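import Pool.Agent.H578.CM.Q4m

set_option autoImplicit false
set_option linter.unusedSectionVars false
set_option maxHeartbeats 4000000

/-!
# Level six: the final values in the diagonal case
-/

namespace Pool.Agent.H578.CM

open Finset Pool.Agent.H546 Pool.Agent.H547
open Pool.Agent.Q267.CDE (R)

section fin

variable {p : ℕ} [hp : Fact p.Prime] {m : ℤ} {w w2 w3 w6 μ ρ : WO p} {wi : R p} {b : ℕ}

theorem cast_4 (x : ℤ) : mk2 (WO p) p (4 * (x : WO p) ^ 2 - 2 * p) = ((4 * x ^ 2 - 2 * p : ℤ) : QO (WO p) p) := by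
  push_cast
  rw [map_sub, map_mul, map_mul, map_pow, map_intCast, map_natCast, map_ofNat, map_ofNat]

theorem cast_12 (x : ℤ) : mk2 (WO p) p (2 * p - 12 * (x : WO p) ^ 2) =
    ((2 * p - 12 * x ^ 2 : ℤ) : QO (WO p) p) := by
  push_cast
  rw [map_sub, map_mul, map_mul, map_pow, map_intCast, map_natCast, map_ofNat, map_ofNat]

theorem cast_8 (x : ℤ) : mk2 (WO p) p (2 * (8 * (x : WO p) ^ 2 - 2 * p)) =
    ((2 * (8 * x ^ 2 - 2 * p) : ℤ) : QO (WO p) p) := by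
  push_cast
  rw [map_mul, map_sub, map_mul, map_mul, map_pow, map_intCast, map_natCast, map_ofNat, map_ofNat]

theorem cast_24 (x : ℤ) : mk2 (WO p) p (2 * (2 * p - 24 * (x : WO p) ^ 2)) =
    ((2 * (2 * p - 24 * x ^ 2) : ℤ) : QO (WO p) p) := by
  push_cast
  rw [map_mul, map_sub, map_mul, map_mul, map_pow, map_intCast, map_natCast, map_ofNat, map_ofNat]

theorem e67_1 (h3 : 3 < p) (q : Q4 m w w2 w3 w6) (u : U4 w w2 w3 w6) (B : BW b w w6) (B2 : BW b w2 w3)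
    (hρ : ρ ^ 2 = -3) (hμ : (m : WO p) * μ = 1) (hwi : (m : R p) * wi = 1)
    (hF : (SW p).red w ^ p = (SW p).red w)
    (hb : ¬ (p : ℤ) ∣ (6 * b)) (hbig : 16 * (6 * b) < p ^ 2) {x y : ℤ} (hxy : (p : ℤ) = x ^ 2 + 6 * b * y ^ 2) :
    AA p wi = ((4 * x ^ 2 - 2 * p : ℤ) : R p) := by
  have v1 := ev1 h3 q u B hρ hF (mk_Y q u) hb hbig hxy
  have v2 := ev1 h3 q.t2 u.t2 B2 hρ (frob_2 hF q q) (mk_Y2 q u) hb hbig hxy
  rw [cast_4] at v1 v2
  refine fin_same h3 q u hμ hwi ?_ v1 v2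
  rw [map_mul, mul_pow, hF, frob_3 (u3_of h3) hF q q]

theorem e67_3 (h3 : 3 < p) (q : Q4 m w w2 w3 w6) (u : U4 w w2 w3 w6) (B : BW b w w6) (B2 : BW b w2 w3)
    (hρ : ρ ^ 2 = -3) (hμ : (m : WO p) * μ = 1) (hwi : (m : R p) * wi = 1)
    (hF : (SW p).red w ^ p = (SW p).red w3)
    (hb : ¬ (p : ℤ) ∣ (6 * b)) (hbig : 16 * (6 * b) < p ^ 2) {x y : ℤ}
    (hxy : (p : ℤ) = 3 * x ^ 2 + 2 * b * y ^ 2) :
    AA p wi = ((2 * p - 12 * x ^ 2 : ℤ) : R p) := by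
  have v1 := ev3 h3 q u B hρ hF (mk_Y q u) hb hbig hxy
  have v2 := ev3 h3 q.t2 u.t2 B2 hρ (frob_2 hF q q.t3) (mk_Y2 q u) hb hbig hxy
  rw [cast_12] at v1 v2
  refine fin_same h3 q u hμ hwi ?_ v1 v2
  rw [map_mul, mul_pow, hF, frob_3 (u3_of h3) hF q q.t3, mul_comm]

theorem e67_2 (h3 : 3 < p) (q : Q4 m w w2 w3 w6) (u : U4 w w2 w3 w6) (B : BW b w w6) (B2 : BW b w2 w3)
    (hρ : ρ ^ 2 = -3) (hμ : (m : WO p) * μ = 1) (hwi : (m : R p) * wi = 1)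
    (hF : (SW p).red w ^ p = (SW p).red w2)
    (hb : ¬ (p : ℤ) ∣ (6 * b)) (hbig : 16 * (6 * b) < p ^ 2) {x y : ℤ}
    (hxy : (p : ℤ) = 2 * x ^ 2 + 3 * b * y ^ 2) :
    AA p wi = ((8 * x ^ 2 - 2 * p : ℤ) : R p) := by
  have v1 := ev2 h3 q u B hρ hF (mk_Y q u) hb hbig hxy
  have v2 := ev2 h3 q.t2 u.t2 B2 hρ (frob_2 hF q q.t2) (mk_Y2 q u) hb hbig hxy
  rw [cast_8] at v1 v2
  refine fin_conj h3 q u hμ hwi ?_ v1 v2
  rw [map_mul, mul_pow, hF, frob_3 (u3_of h3) hF q q.t2, ← map_mul]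

theorem e67_6 (h3 : 3 < p) (q : Q4 m w w2 w3 w6) (u : U4 w w2 w3 w6) (B : BW b w w6) (B2 : BW b w2 w3)
    (hρ : ρ ^ 2 = -3) (hμ : (m : WO p) * μ = 1) (hwi : (m : R p) * wi = 1)
    (hF : (SW p).red w ^ p = (SW p).red w6)
    (hb : ¬ (p : ℤ) ∣ (6 * b)) (hbig : 16 * (6 * b) < p ^ 2) {x y : ℤ}
    (hxy : (p : ℤ) = 6 * x ^ 2 + b * y ^ 2) :
    AA p wi = ((2 * p - 24 * x ^ 2 : ℤ) : R p) := by
  have v1 := ev6 h3 q u B hρ hF (mk_Y q u) hb hbig hxy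
  have v2 := ev6 h3 q.t2 u.t2 B2 hρ (frob_2 hF q q.t6) (mk_Y2 q u) hb hbig hxy
  rw [cast_24] at v1 v2
  refine fin_conj h3 q u hμ hwi ?_ v1 v2
  rw [map_mul, mul_pow, hF, frob_3 (u3_of h3) hF q q.t6, ← map_mul, mul_comm]

/-- vanishing from an endomorphism -/
theorem zero_w (h3 : 3 < p) (q : Q4 m w w2 w3 w6) (u : U4 w w2 w3 w6) {M : WO p} {l : ℕ} {d : ℤ}
    (D : DW (SW p) w w M l) (hM : M ^ 2 = d) (hd : legendreSym p d = -1)
    {Y : QO (WO p) p} (hY : mk2 (WO p) p (Zw w * (1 - Zw w)) = 27 * Y) : SS p Y = 0 := by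
  have hd0 : ¬ (p : ℤ) ∣ d := by
    intro h0
    have : legendreSym p d = 0 := by
      rw [legendreSym.eq_zero_iff]
      exact (ZMod.intCast_zmod_eq_zero_iff_dvd _ _).mpr h0
    rw [this] at hd
    norm_num at hd
  have rM : (SW p).red M ≠ 0 := by
    intro h0
    have h1 := congrArg (SW p).red hM
    rw [map_pow, h0] at h1
    exact red_int_ne (p := p) hd0 (by rw [← h1]; ring)
  have hA : (SW p).red (4 * Zw w) ≠ 0 := by
    rw [map_mul, map_ofNat]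
    refine mul_ne_zero ?_ (zne h3 q u).1
    have : (4 : kb p) = 2 * 2 := by norm_num
    rw [this]
    exact mul_ne_zero (k2_of h3) (k2_of h3)
  have h := Dat_hs (SW p) (p := p) (by omega) D hA hA rM
  have hFM : (SW p).red M ^ p = -(SW p).red M := by
    have h1 := red_pow_sqrt (p := p) (by omega) (g := M) (d := d) hM
    rw [hd] at h1
    rw [h1]; push_cast; ring
  rw [hFM] at h
  have h2 : (2 * (SW p).red M) * hs p ((SW p).red (4 * Zw w)) = 0 := by linear_combination h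
  have h3' := (mul_eq_zero.mp h2).resolve_left (mul_ne_zero (k2_of h3) rM)
  rw [map_mul, map_ofNat, hs_lg (by omega) (by omega)] at h3'
  exact ss_zero (SW p) (p := p) (z := Zw w) (by
    rcases Nat.lt_or_ge p 5 with h | h
    · have : p = 4 := by omega
      rw [this] at hp; exact absurd hp.out (by norm_num)
    · exact h) (SW_q p) hY h3'

/-- vanishing, the diagonal case -/
theorem e67_0 (h3 : 3 < p) (q : Q4 m w w2 w3 w6) (u : U4 w w2 w3 w6)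
    (B : ∃ M : WO p, 2 * M ^ 2 = b * MUw w ^ 2 ∧ DW (SW p) w w6 M b)
    (B2 : ∃ M : WO p, 2 * M ^ 2 = b * MUw w2 ^ 2 ∧ DW (SW p) w2 w3 M b)
    (hρ : ρ ^ 2 = -3) (hμ : (m : WO p) * μ = 1) (hwi : (m : R p) * wi = 1)
    (hl : legendreSym p (-(6 * b)) = -1) : AA p wi = ((0 : ℤ) : R p) := by
  have key : ∀ {w w2 w3 w6 : WO p} (_ : Q4 m w w2 w3 w6) (_ : U4 w w2 w3 w6)
      (_ : ∃ M : WO p, 2 * M ^ 2 = b * MUw w ^ 2 ∧ DW (SW p) w w6 M b) {Y : QO (WO p) p}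
      (_ : mk2 (WO p) p (Zw w * (1 - Zw w)) = 27 * Y), SS p Y = 0 := by
    intro w w2 w3 w6 q u B Y hY
    obtain ⟨M, hM, d⟩ := B
    have d2 := ((d.two (SW p) q.t6 ⟨u.u6, u.u3, u.u2, u.u⟩ (k2_of h3) (k3_of h3)).three (SW p) q.t3 u.t3
      (k2_of h3) (k3_of h3) hρ)
    have hmm := mm_eq h3 q u hM
    refine zero_w h3 q u d2 (d := -(6 * b)) ?_ hl hY
    push_cast
    linear_combination ρ ^ 2 * hmm + 2 * b * hρ
  exact fin_zero h3 q u hμ hwi (key q u B (mk_Y q u)) (key q.t2 u.t2 B2 (mk_Y2 q u))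

end fin

end Pool.Agent.H578.CM
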