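import Pool.Agent.H578.CM.Q4h

set_option autoImplicit false
set_option linter.unusedSectionVars false
set_option maxHeartbeats 4000000

/-!
# The Franel sums at a given prime, by computation
-/

namespace Pool.Agent.H578.CM

open Finset Pool.Agent.H546 Pool.Agent.H547
open Pool.Agent.Q267.CDE (R)

/-- factorials, forced -/
def fct : ℕ → ℕ
  | 0 => 1
  | n + 1 => Nat.mul (Nat.succ n) (fct n)

theorem fct_eq (n : ℕ) : fct n = n.factorial := by
  induction n with
  | zero => rfl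
  | succ n ih => unfold fct; rw [ih]; rfl

def chq (n k : ℕ) : ℕ := Nat.div (fct n) (Nat.mul (fct k) (fct (Nat.sub n k)))

theorem chq_eq {n k : ℕ} (h : k ≤ n) : chq n k = n.choose k := by
  unfold chq
  rw [fct_eq, fct_eq, fct_eq, Nat.choose_eq_factorial_div_factorial h]
  rfl

def sN (f : ℕ → ℕ) : ℕ → ℕ
  | 0 => 0
  | n + 1 => Nat.add (sN f n) (f n)

theorem sN_eq (f : ℕ → ℕ) (n : ℕ) : sN f n = ∑ k ∈ range n, f k := by
  induction n with
  | zero => rfl
  | succ n ih => rw [sum_range_succ, ← ih]; rfl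

def frq (n : ℕ) : ℕ := sN (fun k => Nat.pow (chq n k) 3) (Nat.succ n)

theorem frq_eq (n : ℕ) : frq n = fr n := by
  unfold frq fr
  rw [sN_eq]
  refine sum_congr rfl fun k hk => ?_
  have := mem_range.mp hk
  rw [chq_eq (by omega)]
  rfl

def sZ (f : ℕ → ℤ) : ℕ → ℤ
  | 0 => 0
  | n + 1 => Int.add (sZ f n) (f n)

theorem sZ_eq (f : ℕ → ℤ) (n : ℕ) : sZ f n = ∑ k ∈ range n, f k := by
  induction n with
  | zero => rfl
  | succ n ih => rw [sum_range_succ, ← ih]; rfl

def trm (p : ℕ) (m : ℤ) (k : ℕ) : ℤ := Int.mul (Int.ofNat (Nat.mul (chq (Nat.mul 2 k) k) (frq k))) (m ^ (p - 1 - k))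

def chkS (p : ℕ) (m E : ℤ) : Bool := T8.iz ((sZ (trm p m) p - E * m ^ (p - 1)) % ((p : ℤ) ^ 2))

theorem AA_direct {p : ℕ} [hp : Fact p.Prime] {m : ℤ} {wi : R p} (hwi : (m : R p) * wi = 1) (E : ℤ)
    (h : chkS p m E = true) : AA p wi = ((E : ℤ) : R p) := by
  have h1 := T8.iz_eq h
  rw [sZ_eq] at h1
  have h2 : ((p : ℤ) ^ 2) ∣ (∑ k ∈ range p, trm p m k - E * m ^ (p - 1)) := Int.dvd_of_emod_eq_zero h1
  have h3 : ((∑ k ∈ range p, trm p m k - E * m ^ (p - 1) : ℤ) : R p) = 0 := by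
    refine (ZMod.intCast_zmod_eq_zero_iff_dvd _ (p ^ 2)).mpr ?_
    exact_mod_cast h2
  have hu : IsUnit ((m : R p) ^ (p - 1)) := (IsUnit.of_mul_eq_one _ hwi).pow _
  apply hu.mul_left_cancel
  have e : (m : R p) ^ (p - 1) * AA p wi = ((∑ k ∈ range p, trm p m k : ℤ) : R p) := by
    unfold AA
    rw [mul_sum, Int.cast_sum]
    refine sum_congr rfl fun k hk => ?_
    have hk' := mem_range.mp hk
    have e1 : (m : R p) ^ (p - 1) = (m : R p) ^ (p - 1 - k) * (m : R p) ^ k := by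
      rw [← pow_add]; congr 1; omega
    have e2 : (m : R p) ^ k * wi ^ k = 1 := by rw [← mul_pow, hwi, one_pow]
    have e3 : trm p m k = ((An k : ℕ) : ℤ) * m ^ (p - 1 - k) := by
      unfold trm An
      rw [chq_eq (show k ≤ Nat.mul 2 k by show k ≤ 2 * k; omega), frq_eq]
      rfl
    rw [e3, e1]
    push_cast
    linear_combination ((An k : ℕ) : R p) * (m : R p) ^ (p - 1 - k) * e2
  rw [e]
  push_cast at h3 ⊢
  linear_combination h3

end Pool.Agent.H578.CM
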