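import Pool.Agent.H578.CM.Q4n

set_option autoImplicit false
set_option linter.unusedSectionVars false
set_option maxHeartbeats 4000000

/-!
# Level six: helpers for the numerical cases
-/

namespace Pool.Agent.H578.CM

open Finset Pool.Agent.H546 Pool.Agent.H547
open Pool.Agent.Q267.CDE (R)

section nd

variable {p : ℕ} [hp : Fact p.Prime]

theorem nd_pow {q : ℕ} (hq : q.Prime) (h : p ≠ q) (e : ℕ) : ¬ (p : ℤ) ∣ ((q : ℕ) : ℤ) ^ e := by
  intro h1
  have h2 := (Nat.prime_iff_prime_int.mp hp.out).dvd_of_dvd_pow h1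
  exact h ((Nat.prime_dvd_prime_iff_eq hp.out hq).mp (by exact_mod_cast h2))

theorem nd_mul' {a b : ℤ} (ha : ¬ (p : ℤ) ∣ a) (hb : ¬ (p : ℤ) ∣ b) : ¬ (p : ℤ) ∣ a * b := by
  intro h
  rcases (Nat.prime_iff_prime_int.mp hp.out).dvd_or_dvd h with h | h
  · exact ha h
  · exact hb h

theorem nd_one : ¬ (p : ℤ) ∣ 1 := fun h =>
  (Nat.prime_iff_prime_int.mp hp.out).not_isUnit (isUnit_of_dvd_one h)

theorem unit_int {n : ℤ} (h : ¬ (p : ℤ) ∣ n) : IsUnit ((n : ℤ) : WO p) :=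
  (SW p).unit_of_red (red_int_ne h)

/-- the Legendre symbol of `2` -/
theorem leg2 (hp2 : p ≠ 2) : legendreSym p 2 = if p % 8 = 1 ∨ p % 8 = 7 then 1 else -1 := by
  rw [legendreSym.at_two hp2, ZMod.χ₈_nat_eq_if_mod_eight]
  have hodd : p % 2 = 1 := by
    rcases hp.out.eq_two_or_odd with h | h
    · exact absurd h hp2
    · exact h
  rw [if_neg (by omega)]

theorem leg_b1 (hp2 : p ≠ 2) (b : ℕ) [hb : Fact b.Prime] (h : b % 4 = 1) :
    legendreSym p b = legendreSym b p :=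
  legendreSym.quadratic_reciprocity_one_mod_four h hp2

theorem leg_b3 (hp2 : p ≠ 2) (b : ℕ) [hb : Fact b.Prime] (h : b % 4 = 3) :
    legendreSym p b = (if p % 4 = 1 then 1 else -1) * legendreSym b p := by
  have hodd : p % 2 = 1 := by
    rcases hp.out.eq_two_or_odd with h | h
    · exact absurd h hp2
    · exact h
  have hb2 : b ≠ 2 := by rintro rfl; norm_num at h
  by_cases h4 : p % 4 = 1
  · rw [if_pos h4, one_mul]
    exact (legendreSym.quadratic_reciprocity_one_mod_four h4 hb2).symm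
  · rw [if_neg h4, neg_one_mul]
    exact legendreSym.quadratic_reciprocity_three_mod_four h (by omega)

theorem leg_b3' (hp2 : p ≠ 2) (b : ℕ) [hb : Fact b.Prime] (h : b % 4 = 3) :
    legendreSym p (-b) = legendreSym b p := by
  have e : legendreSym p (-(b : ℤ)) = legendreSym p (-1) * legendreSym p b := by
    rw [← legendreSym.mul]; congr 1; ring
  rw [e, legm1 hp2, leg_b3 hp2 b h]
  by_cases h4 : p % 4 = 1
  · rw [if_pos h4]; ring
  · rw [if_neg h4]; ring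

/-- the Legendre symbol of a value of a form -/
theorem leg_form (b : ℕ) [hb : Fact b.Prime] {n a x t : ℤ} (h : n = a * x ^ 2 + b * t) (hn : ¬ (b : ℤ) ∣ n) :
    legendreSym b n = legendreSym b a := by
  have e : legendreSym b n = legendreSym b (a * x ^ 2) := by
    unfold legendreSym
    congr 1
    rw [h]
    push_cast
    rw [ZMod.natCast_self]
    ring
  have hx : ¬ (b : ℤ) ∣ x := by
    intro h1
    apply hn
    rw [h]
    exact dvd_add (Dvd.dvd.mul_left (dvd_pow h1 two_ne_zero) _) (dvd_mul_right _ _)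
  have hx' : ((x : ℤ) : ZMod b) ≠ 0 := by
    intro h0
    exact hx ((ZMod.intCast_zmod_eq_zero_iff_dvd _ _).mp h0)
  rw [e, legendreSym.mul, legendreSym.sq_one' _ hx', mul_one]

/-- a multiple of a prime represented by a form -/
theorem leg_disc {l1 l2 n : ℤ} {x y : ℤ} (h : n * (p : ℤ) = l1 * x ^ 2 + l2 * y ^ 2) (hy : ¬ (p : ℤ) ∣ y)
    (hx : ¬ (p : ℤ) ∣ l1 * x) : legendreSym p (-(l1 * l2)) = 1 := by
  have hy' : ((y : ℤ) : ZMod p) ≠ 0 := by
    intro h0
    exact hy ((ZMod.intCast_zmod_eq_zero_iff_dvd _ _).mp h0)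
  have hx' : ((l1 * x : ℤ) : ZMod p) ≠ 0 := by
    intro h0
    exact hx ((ZMod.intCast_zmod_eq_zero_iff_dvd _ _).mp h0)
  have e : legendreSym p (-(l1 * l2) * y ^ 2) = legendreSym p ((l1 * x) ^ 2) := by
    unfold legendreSym
    congr 1
    have h1 := congrArg (Int.cast : ℤ → ZMod p) h
    push_cast at h1 ⊢
    rw [ZMod.natCast_self, mul_zero] at h1
    linear_combination (l1 : ZMod p) * h1
  rw [legendreSym.mul, legendreSym.sq_one' _ hy', mul_one, legendreSym.sq_one' _ hx'] at e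
  exact e

/-- coprimality in a representation -/
theorem form_nd {l1 l2 n : ℤ} {x y : ℤ} (h : n * (p : ℤ) = l1 * x ^ 2 + l2 * y ^ 2) (hl1 : ¬ (p : ℤ) ∣ l1)
    (hl2 : ¬ (p : ℤ) ∣ l2) (hn : ¬ (p : ℤ) ∣ n) : ¬ (p : ℤ) ∣ x ∧ ¬ (p : ℤ) ∣ y := by
  have hpz := Nat.prime_iff_prime_int.mp hp.out
  have key : (p : ℤ) ∣ x → (p : ℤ) ∣ y → False := by
    rintro ⟨a, rfl⟩ ⟨c, rfl⟩
    apply hn
    have h4 : (p : ℤ) * (l1 * p * a ^ 2 + l2 * p * c ^ 2 - n) = 0 := by linear_combination -h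
    have h5 : l1 * p * a ^ 2 + l2 * p * c ^ 2 - n = 0 := by
      rcases mul_eq_zero.mp h4 with h | h
      · exact absurd h hpz.ne_zero
      · exact h
    exact ⟨l1 * a ^ 2 + l2 * c ^ 2, by linear_combination -h5⟩
  constructor
  · intro hx
    refine key hx ?_
    have : (p : ℤ) ∣ l2 * y ^ 2 := by
      have e : l2 * y ^ 2 = p * n - l1 * x ^ 2 := by linear_combination -h
      rw [e]
      exact dvd_sub (dvd_mul_right _ _) (Dvd.dvd.mul_left (dvd_pow hx two_ne_zero) _)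
    exact hpz.dvd_of_dvd_pow ((hpz.dvd_or_dvd this).resolve_left hl2)
  · intro hy
    refine key ?_ hy
    have : (p : ℤ) ∣ l1 * x ^ 2 := by
      have e : l1 * x ^ 2 = p * n - l2 * y ^ 2 := by linear_combination -h
      rw [e]
      exact dvd_sub (dvd_mul_right _ _) (Dvd.dvd.mul_left (dvd_pow hy two_ne_zero) _)
    exact hpz.dvd_of_dvd_pow ((hpz.dvd_or_dvd this).resolve_left hl1)

theorem leg_disc' {l1 l2 n : ℤ} {x y : ℤ} (h : n * (p : ℤ) = l1 * x ^ 2 + l2 * y ^ 2) (hl1 : ¬ (p : ℤ) ∣ l1)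
    (hl2 : ¬ (p : ℤ) ∣ l2) (hn : ¬ (p : ℤ) ∣ n) : legendreSym p (-(l1 * l2)) = 1 :=
  leg_disc h (form_nd h hl1 hl2 hn).2 (nd_mul' hl1 (form_nd h hl1 hl2 hn).1)

theorem sqm8 (x : ℤ) : x ^ 2 % 8 = 0 ∨ x ^ 2 % 8 = 1 ∨ x ^ 2 % 8 = 4 := by
  have : x % 8 = 0 ∨ x % 8 = 1 ∨ x % 8 = 2 ∨ x % 8 = 3 ∨ x % 8 = 4 ∨ x % 8 = 5 ∨ x % 8 = 6 ∨ x % 8 = 7 := by
    omega
  rcases this with h | h | h | h | h | h | h | h <;> simp [pow_two, Int.mul_emod, h]

theorem sqm3 (x : ℤ) : x ^ 2 % 3 = 0 ∨ x ^ 2 % 3 = 1 := by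
  have : x % 3 = 0 ∨ x % 3 = 1 ∨ x % 3 = 2 := by omega
  rcases this with h | h | h <;> simp [pow_two, Int.mul_emod, h]

end nd

section fr

variable {B : Type*} [CommRing B]

/-- an element of a biquadratic ring -/
def Wq (c0 c1 c2 c3 : ℤ) (v g k : B) : B := ((c0 : B) + c1 * g + c2 * k + c3 * (g * k)) * v

variable {p : ℕ} [hp : Fact p.Prime]

theorem frob_Wq {v g k g' k' : WO p} {n : ℤ} (hv : (n : WO p) * v = 1) (hg : (SW p).red g ^ p = (SW p).red g')
    (hk : (SW p).red k ^ p = (SW p).red k') (c0 c1 c2 c3 : ℤ) :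
    (SW p).red (Wq c0 c1 c2 c3 v g k) ^ p = (SW p).red (Wq c0 c1 c2 c3 v g' k') := by
  have hF := red_pow_inv hv
  have e : ∀ c : ℤ, frobenius (kb p) p ((SW p).red (c : WO p)) = (SW p).red (c : WO p) := fun c => by
    rw [map_intCast, map_intCast]
  unfold Wq
  rw [red_frob_eq]
  simp only [map_mul, map_add, e]
  rw [← red_frob_eq, ← red_frob_eq, ← red_frob_eq, hg, hk, hF]

/-- the Frobenius on a square root, fixed -/
theorem frob_p (hp2 : p ≠ 2) {g : WO p} {d : ℤ} (h : g ^ 2 = (d : WO p)) (hl : legendreSym p d = 1) :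
    (SW p).red g ^ p = (SW p).red g := by
  rw [red_pow_sqrt hp2 h, hl]; push_cast; ring

/-- the Frobenius on a square root, moved -/
theorem frob_m (hp2 : p ≠ 2) {g : WO p} {d : ℤ} (h : g ^ 2 = (d : WO p)) (hl : legendreSym p d = -1) :
    (SW p).red g ^ p = (SW p).red (-g) := by
  rw [red_pow_sqrt hp2 h, hl, map_neg]; push_cast; ring

end fr

end Pool.Agent.H578.CM
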