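import Pool.Agent.H578.CM.Q4h

set_option autoImplicit false
set_option linter.unusedSectionVars false
set_option maxHeartbeats 4000000

/-!
# Level six: the case of discriminant `-3b`
-/

namespace Pool.Agent.H578.CM

open Finset Pool.Agent.H546 Pool.Agent.H547
open Pool.Agent.Q267.CDE (R)

section vals

variable {p : ℕ} [hp : Fact p.Prime] {m : ℤ} {w w2 w3 w6 : WO p} {b q : ℕ} {ρ : WO p}

/-- what is needed at each of the four parameters -/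
structure BA (b q : ℕ) (ρ w w6 : WO p) : Prop where
  ha : (SW p).red (ca (4 * Zw w)) ≠ 0
  hb : (SW p).red (cb (4 * Zw w)) ≠ 0
  iso : ∃ β M : WO p, β ^ 2 = b ∧ 2 * M = (β - ρ) * MUw w ∧ DW (SW p) w w6 M q

theorem five_le (h3 : 3 < p) : 5 ≤ p := by
  rcases Nat.lt_or_ge p 5 with h | h
  · have : p = 4 := by omega
    rw [this] at hp; exact absurd hp.out (by norm_num)
  · exact h

theorem mb_eq (h3 : 3 < p) (Q : Q4 m w w2 w3 w6) (u : U4 w w2 w3 w6) {M β : WO p}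
    (hM : 2 * M = (β - ρ) * MUw w) : M * MUw w6 = β - ρ := by
  apply (u2_of h3).mul_left_cancel
  have h := mu6_eq h3 Q u
  linear_combination MUw w6 * hM + (β - ρ) * h

theorem nd6q (hq : ¬ (p : ℤ) ∣ (6 * q)) : (¬ (p : ℤ) ∣ 2) ∧ (¬ (p : ℤ) ∣ 3) ∧ ¬ (p : ℤ) ∣ q := by
  refine ⟨fun h => hq ?_, fun h => hq ?_, fun h => hq (h.mul_left _)⟩
  · exact (h.trans (by norm_num : (2 : ℤ) ∣ 6)).mul_right _
  · exact (h.trans (by norm_num : (3 : ℤ) ∣ 6)).mul_right _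

/-- class `x² + 3b y²` -/
theorem av1 (h3 : 3 < p) (Q : Q4 m w w2 w3 w6) (u : U4 w w2 w3 w6) (B : BA b q ρ w w6) (hρ : ρ ^ 2 = -3)
    (hF : (SW p).red w ^ p = (SW p).red w) {Y : QO (WO p) p} (hY : mk2 (WO p) p (Zw w * (1 - Zw w)) = 27 * Y)
    (hbq : b + 3 = 2 * q) (hq2 : 2 ≤ q) (hq : ¬ (p : ℤ) ∣ (6 * q)) (hbig : 16 * (6 * q) < p ^ 2) {x y : ℤ}
    (hxy : (p : ℤ) = x ^ 2 + 3 * b * y ^ 2) :
    SS p Y = mk2 (WO p) p (4 * (x : WO p) ^ 2 - 2 * p) := by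
  obtain ⟨β, M, hβ, hM, d⟩ := B.iso
  obtain ⟨z0, z1⟩ := zne h3 Q u
  have d2 := ((d.two (SW p) Q.t6 ⟨u.u6, u.u3, u.u2, u.u⟩ (k2_of h3) (k3_of h3)).three (SW p) Q.t3 u.t3
    (k2_of h3) (k3_of h3) hρ)
  have hmb := mb_eq h3 Q u hM
  have hbqO : (b : WO p) + 3 = 2 * q := by exact_mod_cast congrArg (Nat.cast : ℕ → WO p) hbq
  have hbqZ : (b : ℤ) = 2 * q - 3 := by have := congrArg (Nat.cast : ℕ → ℤ) hbq; push_cast at this; linarith
  have hpx : (p : WO p) = (x : WO p) ^ 2 + 3 * b * (y : WO p) ^ 2 := by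
    exact_mod_cast congrArg (Int.cast : ℤ → WO p) hxy
  have hm2 : M * MUw w6 * ρ ≠ 0 := by
    intro h0
    have e : (M * MUw w6 * ρ) * ((-β - ρ) * ρ) = ((6 * q : ℕ) : WO p) := by
      rw [hmb]; push_cast
      linear_combination (-ρ ^ 2) * hβ + (ρ ^ 2 - 3 - b) * hρ + 3 * hbqO
    rw [h0, zero_mul] at e
    exact nat_ne (p := p) (6 * q) (by push_cast; exact hq) e.symm
  have h := val_two (SW p) (five_le h3) (SW_q p) hY z0 z1 (frob_Z hF u.u u.u) B.ha B.hb one_ne_zero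
    hm2 (DW.id (SW p) w) d2 (x - 3 * y) y (x + 3 * y) (-y) 6
    (by rw [hxy, hbqZ]; push_cast; ring) (by rw [hxy, hbqZ]; push_cast; ring)
    (by intro h1; exact nd_one (p := p) (by exact_mod_cast h1))
    (by intro h1; apply hq; push_cast at h1; rwa [show (3 : ℤ) * (2 * q) = 6 * q by ring] at h1)
    (by
      have : (2 : ℤ) ≤ q := by exact_mod_cast hq2
      push_cast; linarith)
    (by rw [one_mul]; calc 16 * (3 * (2 * q)) = 16 * (6 * q) := by ring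
          _ < p ^ 2 := hbig)
    (τ := 2 * x) (c := 1) (by push_cast; ring)
    (by
      rw [hpx, hmb]; push_cast
      linear_combination (-(y : WO p) ^ 2 * ρ ^ 2) * hβ +
        ((y : WO p) ^ 2 * (2 * ρ * β - ρ ^ 2 - b - 3)) * hρ)
    (by rw [map_one]; exact one_ne_zero)
  rw [map_one, one_pow, one_mul] at h
  rw [h]
  have e : (2 * (x : WO p)) ^ 2 - 2 * 1 * (p : WO p) = 4 * (x : WO p) ^ 2 - 2 * p := by ring
  rw [e]

/-- class `3 x² + b y²` -/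
theorem av3 (h3 : 3 < p) (Q : Q4 m w w2 w3 w6) (u : U4 w w2 w3 w6) (B : BA b q ρ w w6) (hρ : ρ ^ 2 = -3)
    (hF : (SW p).red w ^ p = (SW p).red w3) {Y : QO (WO p) p} (hY : mk2 (WO p) p (Zw w * (1 - Zw w)) = 27 * Y)
    (hbq : b + 3 = 2 * q) (hq2 : 2 ≤ q) (hq : ¬ (p : ℤ) ∣ (6 * q)) (hbig : 16 * (6 * q) < p ^ 2) {x y : ℤ}
    (hxy : (p : ℤ) = 3 * x ^ 2 + b * y ^ 2) :
    SS p Y = mk2 (WO p) p (2 * p - 12 * (x : WO p) ^ 2) := by
  obtain ⟨β, M, hβ, hM, d⟩ := B.iso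
  obtain ⟨z0, z1⟩ := zne h3 Q u
  obtain ⟨n2, n3, nq⟩ := nd6q hq
  have d1 := (DW.id (SW p) w).three (SW p) Q u (k2_of h3) (k3_of h3) hρ
  have d2 := d.two (SW p) Q.t6 ⟨u.u6, u.u3, u.u2, u.u⟩ (k2_of h3) (k3_of h3)
  have hmb := mb_eq h3 Q u hM
  have hbqO : (b : WO p) + 3 = 2 * q := by exact_mod_cast congrArg (Nat.cast : ℕ → WO p) hbq
  have hbqZ : (b : ℤ) = 2 * q - 3 := by have := congrArg (Nat.cast : ℕ → ℤ) hbq; push_cast at this; linarith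
  have hpx : (p : WO p) = 3 * (x : WO p) ^ 2 + b * (y : WO p) ^ 2 := by
    exact_mod_cast congrArg (Int.cast : ℤ → WO p) hxy
  have hm2 : M * MUw w6 ≠ 0 := by
    intro h0
    have e : (M * MUw w6) * (β + ρ) = ((2 * q : ℕ) : WO p) := by
      rw [hmb]; push_cast
      linear_combination hβ - hρ + hbqO
    rw [h0, zero_mul] at e
    exact nat_ne (p := p) (2 * q) (by push_cast; exact nd_mul' n2 nq) e.symm
  have h := val_two (SW p) (five_le h3) (SW_q p) hY z0 z1 (frob_Z hF u.u u.u3) B.ha B.hb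
    (ne_of_sq (y := -((3 : ℕ) : WO p)) (by push_cast; linear_combination hρ)
      (neg_ne_zero.mpr (nat_ne _ (by exact_mod_cast n3))))
    hm2 d1 d2 (x + y) y (x - y) (-y) (-6)
    (by rw [hxy, hbqZ]; push_cast; ring) (by rw [hxy, hbqZ]; push_cast; ring)
    (by exact_mod_cast n3) (by push_cast; exact nd_mul' n2 nq)
    (by
      have : (2 : ℤ) ≤ q := by exact_mod_cast hq2
      push_cast; linarith)
    (by calc 16 * (3 * 1 * (2 * q)) = 16 * (6 * q) := by ring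
          _ < p ^ 2 := hbig)
    (τ := 2 * x * ρ) (c := -1) (by push_cast; ring)
    (by
      rw [hpx, hmb]; push_cast
      linear_combination (-(y : WO p) ^ 2) * hβ + ((x : WO p) ^ 2) * hρ)
    (by rw [map_neg, map_one]; exact neg_ne_zero.mpr one_ne_zero)
  rw [map_neg, map_one, neg_sq, one_pow, one_mul] at h
  rw [h]
  have e : (2 * (x : WO p) * ρ) ^ 2 - 2 * (-1) * (p : WO p) = 2 * p - 12 * (x : WO p) ^ 2 := by
    linear_combination (4 * (x : WO p) ^ 2) * hρ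
  rw [e]

/-- class `2p = x² + 3b y²` -/
theorem av2 (h3 : 3 < p) (Q : Q4 m w w2 w3 w6) (u : U4 w w2 w3 w6) (B : BA b q ρ w w6) (hρ : ρ ^ 2 = -3)
    (hF : (SW p).red w ^ p = (SW p).red w2) {Y : QO (WO p) p} (hY : mk2 (WO p) p (Zw w * (1 - Zw w)) = 27 * Y)
    (hbq : b + 3 = 2 * q) (hq2 : 2 ≤ q) (hq : ¬ (p : ℤ) ∣ (6 * q)) (hbig : 16 * (6 * q) < p ^ 2) {x y : ℤ}
    (hxy : 2 * (p : ℤ) = x ^ 2 + 3 * b * y ^ 2) :
    mk2 (WO p) p (MUw w) ^ 2 * SS p Y = mk2 (WO p) p (2 * (2 * (x : WO p) ^ 2 - 2 * p)) := by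
  obtain ⟨β, M, hβ, hM, d⟩ := B.iso
  obtain ⟨z0, z1⟩ := zne h3 Q u
  obtain ⟨n2, n3, nq⟩ := nd6q hq
  have hbqZ : (b : ℤ) = 2 * q - 3 := by have := congrArg (Nat.cast : ℕ → ℤ) hbq; push_cast at this; linarith
  obtain ⟨r, hr⟩ : ∃ r : ℤ, x = 2 * r + 3 * y := by
    have h1 : x % 2 = y % 2 := by
      have hx := Int.emod_two_eq_zero_or_one x
      have hy := Int.emod_two_eq_zero_or_one y
      have ex : x ^ 2 % 2 = x % 2 := by rcases hx with h | h <;> simp [pow_two, Int.mul_emod, h]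
      have ey : y ^ 2 % 2 = y % 2 := by rcases hy with h | h <;> simp [pow_two, Int.mul_emod, h]
      obtain ⟨t, ht⟩ : ∃ t : ℤ, t = (q : ℤ) * y ^ 2 := ⟨_, rfl⟩
      have e1 : 2 * (p : ℤ) = x ^ 2 + 6 * t - 9 * y ^ 2 := by rw [hxy, hbqZ, ht]; ring
      omega
    exact ⟨(x - 3 * y) / 2, by omega⟩
  have d1 := (DW.id (SW p) w).two (SW p) Q u (k2_of h3) (k3_of h3)
  have d2 := d.three (SW p) Q.t6 ⟨u.u6, u.u3, u.u2, u.u⟩ (k2_of h3) (k3_of h3) hρ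
  obtain ⟨η, hη⟩ := (u2_of (p := p) h3).exists_right_inv
  have hbqO : (b : WO p) + 3 = 2 * q := by exact_mod_cast congrArg (Nat.cast : ℕ → WO p) hbq
  have hpx : 2 * (p : WO p) = (x : WO p) ^ 2 + 3 * b * (y : WO p) ^ 2 := by
    exact_mod_cast congrArg (Int.cast : ℤ → WO p) hxy
  have hrO : (x : WO p) = 2 * (r : WO p) + 3 * (y : WO p) := by
    exact_mod_cast congrArg (Int.cast : ℤ → WO p) hr
  have uMU := u_MU Q u
  have hMU0 : MUw w ≠ 0 := uMU.ne_zero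
  have hM0 : M ≠ 0 := by
    intro h0
    rw [h0, mul_zero] at hM
    rcases mul_eq_zero.mp hM.symm with h | h
    · have e : ((2 * q : ℕ) : WO p) = 0 := by
        push_cast
        linear_combination (β + ρ) * h - hbqO - hβ + hρ
      exact nat_ne (p := p) (2 * q) (by push_cast; exact nd_mul' n2 nq) e
    · exact hMU0 h
  have hρ0 : ρ ≠ 0 := ne_of_sq (y := -3) hρ (neg_ne_zero.mpr (u3_of h3).ne_zero)
  have uη : IsUnit η := IsUnit.of_mul_eq_one 2 (by rw [mul_comm]; exact hη)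
  have h := val_two (SW p) (five_le h3) (SW_q p) hY z0 z1 (frob_Z hF u.u u.u2) B.ha B.hb
    (by rw [one_mul]; exact hMU0) (mul_ne_zero hM0 hρ0)
    d1 d2 r y (r + 3 * y) (-y) 6
    (by
      have e : 2 * (p : ℤ) = 2 * (r ^ 2 * 2 + r * y * 6 + y ^ 2 * (3 * q)) := by
        rw [hxy, hbqZ, hr]; ring
      push_cast; linarith)
    (by
      have e : 2 * (p : ℤ) = 2 * (r ^ 2 * 2 + r * y * 6 + y ^ 2 * (3 * q)) := by
        rw [hxy, hbqZ, hr]; ring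
      push_cast; linarith)
    (by exact_mod_cast n2) (by push_cast; exact nd_mul' n3 nq)
    (by
      have : (2 : ℤ) ≤ q := by exact_mod_cast hq2
      push_cast; linarith)
    (by calc 16 * (2 * 1 * (3 * q)) = 16 * (6 * q) := by ring
          _ < p ^ 2 := hbig)
    (τ := x * MUw w) (c := η * MUw w ^ 2) (by rw [hrO]; push_cast; ring)
    (by
      have u2 := u2_of (p := p) h3
      apply (u2.mul u2).mul_left_cancel
      push_cast
      linear_combination (ρ * (y : WO p) ^ 2 * (6 * MUw w - ρ * (2 * M) - ρ * ((β - ρ) * MUw w))) * hM -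
        ((y : WO p) ^ 2 * ρ ^ 2 * MUw w ^ 2) * hβ +
        (MUw w ^ 2 * (y : WO p) ^ 2 * (2 * ρ * β - ρ ^ 2 - 3 - b)) * hρ -
        (MUw w ^ 2 * ((x : WO p) + 2 * r + 3 * y)) * hrO -
        (MUw w ^ 2 * ((x : WO p) ^ 2 + 3 * b * (y : WO p) ^ 2)) * hη - (2 * η * MUw w ^ 2) * hpx)
    (red_unit (SW p) (uη.mul (uMU.pow 2)))
  have hη' := congrArg (mk2 (WO p) p) hη
  rw [map_mul, map_ofNat, map_one] at hη'
  rw [map_sub, map_mul, map_pow, map_pow, map_mul, map_mul, map_mul, map_mul, map_pow, map_ofNat,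
    map_natCast, map_intCast] at h
  rw [map_mul, map_sub, map_mul, map_mul, map_pow, map_ofNat, map_natCast, map_intCast]
  have uM2 := (uMU.map (mk2 (WO p) p)).pow 2
  apply uM2.mul_left_cancel
  set μ := mk2 (WO p) p (MUw w)
  set e := mk2 (WO p) p η
  set V := SS p Y
  linear_combination 4 * h - (μ ^ 4 * V * (2 * e + 1) + 4 * (p : QO (WO p) p) * μ ^ 2) * hη'

/-- class `2p = 3 x² + b y²` -/
theorem av6 (h3 : 3 < p) (Q : Q4 m w w2 w3 w6) (u : U4 w w2 w3 w6) (B : BA b q ρ w w6) (hρ : ρ ^ 2 = -3)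
    (hF : (SW p).red w ^ p = (SW p).red w6) {Y : QO (WO p) p} (hY : mk2 (WO p) p (Zw w * (1 - Zw w)) = 27 * Y)
    (hbq : b + 3 = 2 * q) (hq2 : 2 ≤ q) (hq : ¬ (p : ℤ) ∣ (6 * q)) (hbig : 16 * (6 * q) < p ^ 2) {x y : ℤ}
    (hxy : 2 * (p : ℤ) = 3 * x ^ 2 + b * y ^ 2) :
    mk2 (WO p) p (MUw w) ^ 2 * SS p Y = mk2 (WO p) p (2 * (2 * p - 6 * (x : WO p) ^ 2)) := by
  obtain ⟨β, M, hβ, hM, d⟩ := B.iso
  obtain ⟨z0, z1⟩ := zne h3 Q u
  obtain ⟨n2, n3, nq⟩ := nd6q hq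
  have hbqZ : (b : ℤ) = 2 * q - 3 := by have := congrArg (Nat.cast : ℕ → ℤ) hbq; push_cast at this; linarith
  obtain ⟨r, hr⟩ : ∃ r : ℤ, x = 2 * r - y := by
    have h1 : x % 2 = y % 2 := by
      have hx := Int.emod_two_eq_zero_or_one x
      have hy := Int.emod_two_eq_zero_or_one y
      have ex : x ^ 2 % 2 = x % 2 := by rcases hx with h | h <;> simp [pow_two, Int.mul_emod, h]
      have ey : y ^ 2 % 2 = y % 2 := by rcases hy with h | h <;> simp [pow_two, Int.mul_emod, h]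
      obtain ⟨t, ht⟩ : ∃ t : ℤ, t = (q : ℤ) * y ^ 2 := ⟨_, rfl⟩
      have e1 : 2 * (p : ℤ) = 3 * x ^ 2 + 2 * t - 3 * y ^ 2 := by rw [hxy, hbqZ, ht]; ring
      omega
    exact ⟨(x + y) / 2, by omega⟩
  have d1 := ((DW.id (SW p) w).two (SW p) Q u (k2_of h3) (k3_of h3)).three (SW p) Q.t2 u.t2 (k2_of h3) (k3_of h3) hρ
  obtain ⟨η, hη⟩ := (u2_of (p := p) h3).exists_right_inv
  have hbqO : (b : WO p) + 3 = 2 * q := by exact_mod_cast congrArg (Nat.cast : ℕ → WO p) hbq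
  have hpx : 2 * (p : WO p) = 3 * (x : WO p) ^ 2 + b * (y : WO p) ^ 2 := by
    exact_mod_cast congrArg (Int.cast : ℤ → WO p) hxy
  have hrO : (x : WO p) = 2 * (r : WO p) - (y : WO p) := by
    exact_mod_cast congrArg (Int.cast : ℤ → WO p) hr
  have uMU := u_MU Q u
  have hMU0 : MUw w ≠ 0 := uMU.ne_zero
  have hM0 : M ≠ 0 := by
    intro h0
    rw [h0, mul_zero] at hM
    rcases mul_eq_zero.mp hM.symm with h | h
    · have e : ((2 * q : ℕ) : WO p) = 0 := by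
        push_cast
        linear_combination (β + ρ) * h - hbqO - hβ + hρ
      exact nat_ne (p := p) (2 * q) (by push_cast; exact nd_mul' n2 nq) e
    · exact hMU0 h
  have hρ0 : ρ ≠ 0 := ne_of_sq (y := -3) hρ (neg_ne_zero.mpr (u3_of h3).ne_zero)
  have uη : IsUnit η := IsUnit.of_mul_eq_one 2 (by rw [mul_comm]; exact hη)
  have h := val_two (SW p) (five_le h3) (SW_q p) hY z0 z1 (frob_Z hF u.u u.u6) B.ha B.hb
    (by rw [one_mul]; exact mul_ne_zero hMU0 hρ0) hM0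
    d1 d r y (r - y) (-y) (-6)
    (by
      have e : 2 * (p : ℤ) = 2 * (r ^ 2 * 6 + r * y * (-6) + y ^ 2 * q) := by
        rw [hxy, hbqZ, hr]; ring
      push_cast; linarith)
    (by
      have e : 2 * (p : ℤ) = 2 * (r ^ 2 * 6 + r * y * (-6) + y ^ 2 * q) := by
        rw [hxy, hbqZ, hr]; ring
      push_cast; linarith)
    (by
      intro h1; apply nd_mul' n3 n2; push_cast at h1 ⊢; exact h1) nq
    (by
      have : (2 : ℤ) ≤ q := by exact_mod_cast hq2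
      push_cast; linarith)
    (by calc 16 * (3 * (2 * 1) * q) = 16 * (6 * q) := by ring
          _ < p ^ 2 := hbig)
    (τ := x * (MUw w * ρ)) (c := -(η * MUw w ^ 2)) (by rw [hrO]; push_cast; ring)
    (by
      have u2 := u2_of (p := p) h3
      apply (u2.mul u2).mul_left_cancel
      push_cast
      linear_combination ((y : WO p) ^ 2 * (-2 * ρ * MUw w - 2 * M - (β - ρ) * MUw w)) * hM -
        ((y : WO p) ^ 2 * MUw w ^ 2) * hβ + (MUw w ^ 2 * (2 * (r : WO p) - y) ^ 2) * hρ +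
        (3 * MUw w ^ 2 * ((x : WO p) + 2 * r - y)) * hrO +
        (MUw w ^ 2 * (3 * (x : WO p) ^ 2 + b * (y : WO p) ^ 2)) * hη + (2 * η * MUw w ^ 2) * hpx)
    (by rw [map_neg]; exact neg_ne_zero.mpr (red_unit (SW p) (uη.mul (uMU.pow 2))))
  have hη' := congrArg (mk2 (WO p) p) hη
  have hρ' := congrArg (mk2 (WO p) p) hρ
  rw [map_mul, map_ofNat, map_one] at hη'
  rw [map_pow, map_neg, map_ofNat] at hρ'
  rw [map_sub, map_neg, map_mul, map_pow, map_pow, map_mul, map_mul, map_mul, map_mul, map_neg,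
    map_mul, map_pow, map_ofNat, map_natCast, map_intCast] at h
  rw [map_mul, map_sub, map_mul, map_mul, map_pow, map_ofNat, map_ofNat, map_natCast, map_intCast]
  have uM2 := (uMU.map (mk2 (WO p) p)).pow 2
  apply uM2.mul_left_cancel
  set μ := mk2 (WO p) p (MUw w)
  set e := mk2 (WO p) p η
  set V := SS p Y
  set r' := mk2 (WO p) p ρ
  linear_combination 4 * h - (μ ^ 4 * V * (2 * e + 1) - 4 * (p : QO (WO p) p) * μ ^ 2) * hη' +
    (4 * (x : QO (WO p) p) ^ 2 * μ ^ 2) * hρ'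

end vals

section fin

variable {p : ℕ} [hp : Fact p.Prime] {m : ℤ} {w w2 w3 w6 μ ρ : WO p} {wi : R p} {b q : ℕ}

theorem cast_2 (x : ℤ) : mk2 (WO p) p (2 * (2 * (x : WO p) ^ 2 - 2 * p)) =
    ((2 * (2 * x ^ 2 - 2 * p) : ℤ) : QO (WO p) p) := by
  push_cast
  rw [map_mul, map_sub, map_mul, map_mul, map_pow, map_intCast, map_natCast, map_ofNat]

theorem cast_6 (x : ℤ) : mk2 (WO p) p (2 * (2 * p - 6 * (x : WO p) ^ 2)) =
    ((2 * (2 * p - 6 * x ^ 2) : ℤ) : QO (WO p) p) := by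
  push_cast
  rw [map_mul, map_sub, map_mul, map_mul, map_pow, map_intCast, map_natCast, map_ofNat, map_ofNat]

theorem a3b_1 (h3 : 3 < p) (Q : Q4 m w w2 w3 w6) (u : U4 w w2 w3 w6) (B : BA b q ρ w w6) (B2 : BA b q ρ w2 w3)
    (hρ : ρ ^ 2 = -3) (hμ : (m : WO p) * μ = 1) (hwi : (m : R p) * wi = 1)
    (hF : (SW p).red w ^ p = (SW p).red w) (hbq : b + 3 = 2 * q) (hq2 : 2 ≤ q)
    (hq : ¬ (p : ℤ) ∣ (6 * q)) (hbig : 16 * (6 * q) < p ^ 2) {x y : ℤ} (hxy : (p : ℤ) = x ^ 2 + 3 * b * y ^ 2) :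
    AA p wi = ((4 * x ^ 2 - 2 * p : ℤ) : R p) := by
  have v1 := av1 h3 Q u B hρ hF (mk_Y Q u) hbq hq2 hq hbig hxy
  have v2 := av1 h3 Q.t2 u.t2 B2 hρ (frob_2 hF Q Q) (mk_Y2 Q u) hbq hq2 hq hbig hxy
  rw [cast_4] at v1 v2
  refine fin_same h3 Q u hμ hwi ?_ v1 v2
  rw [map_mul, mul_pow, hF, frob_3 (u3_of h3) hF Q Q]

theorem a3b_3 (h3 : 3 < p) (Q : Q4 m w w2 w3 w6) (u : U4 w w2 w3 w6) (B : BA b q ρ w w6) (B2 : BA b q ρ w2 w3)
    (hρ : ρ ^ 2 = -3) (hμ : (m : WO p) * μ = 1) (hwi : (m : R p) * wi = 1)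
    (hF : (SW p).red w ^ p = (SW p).red w3) (hbq : b + 3 = 2 * q) (hq2 : 2 ≤ q)
    (hq : ¬ (p : ℤ) ∣ (6 * q)) (hbig : 16 * (6 * q) < p ^ 2) {x y : ℤ} (hxy : (p : ℤ) = 3 * x ^ 2 + b * y ^ 2) :
    AA p wi = ((2 * p - 12 * x ^ 2 : ℤ) : R p) := by
  have v1 := av3 h3 Q u B hρ hF (mk_Y Q u) hbq hq2 hq hbig hxy
  have v2 := av3 h3 Q.t2 u.t2 B2 hρ (frob_2 hF Q Q.t3) (mk_Y2 Q u) hbq hq2 hq hbig hxy
  rw [cast_12] at v1 v2
  refine fin_same h3 Q u hμ hwi ?_ v1 v2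
  rw [map_mul, mul_pow, hF, frob_3 (u3_of h3) hF Q Q.t3, mul_comm]

theorem a3b_2 (h3 : 3 < p) (Q : Q4 m w w2 w3 w6) (u : U4 w w2 w3 w6) (B : BA b q ρ w w6) (B2 : BA b q ρ w2 w3)
    (hρ : ρ ^ 2 = -3) (hμ : (m : WO p) * μ = 1) (hwi : (m : R p) * wi = 1)
    (hF : (SW p).red w ^ p = (SW p).red w2) (hbq : b + 3 = 2 * q) (hq2 : 2 ≤ q)
    (hq : ¬ (p : ℤ) ∣ (6 * q)) (hbig : 16 * (6 * q) < p ^ 2) {x y : ℤ}
    (hxy : 2 * (p : ℤ) = x ^ 2 + 3 * b * y ^ 2) :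
    AA p wi = ((2 * x ^ 2 - 2 * p : ℤ) : R p) := by
  have v1 := av2 h3 Q u B hρ hF (mk_Y Q u) hbq hq2 hq hbig hxy
  have v2 := av2 h3 Q.t2 u.t2 B2 hρ (frob_2 hF Q Q.t2) (mk_Y2 Q u) hbq hq2 hq hbig hxy
  rw [cast_2] at v1 v2
  refine fin_conj h3 Q u hμ hwi ?_ v1 v2
  rw [map_mul, mul_pow, hF, frob_3 (u3_of h3) hF Q Q.t2, ← map_mul]

theorem a3b_6 (h3 : 3 < p) (Q : Q4 m w w2 w3 w6) (u : U4 w w2 w3 w6) (B : BA b q ρ w w6) (B2 : BA b q ρ w2 w3)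
    (hρ : ρ ^ 2 = -3) (hμ : (m : WO p) * μ = 1) (hwi : (m : R p) * wi = 1)
    (hF : (SW p).red w ^ p = (SW p).red w6) (hbq : b + 3 = 2 * q) (hq2 : 2 ≤ q)
    (hq : ¬ (p : ℤ) ∣ (6 * q)) (hbig : 16 * (6 * q) < p ^ 2) {x y : ℤ}
    (hxy : 2 * (p : ℤ) = 3 * x ^ 2 + b * y ^ 2) :
    AA p wi = ((2 * p - 6 * x ^ 2 : ℤ) : R p) := by
  have v1 := av6 h3 Q u B hρ hF (mk_Y Q u) hbq hq2 hq hbig hxy
  have v2 := av6 h3 Q.t2 u.t2 B2 hρ (frob_2 hF Q Q.t6) (mk_Y2 Q u) hbq hq2 hq hbig hxy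
  rw [cast_6] at v1 v2
  refine fin_conj h3 Q u hμ hwi ?_ v1 v2
  rw [map_mul, mul_pow, hF, frob_3 (u3_of h3) hF Q Q.t6, ← map_mul, mul_comm]

/-- vanishing from an endomorphism with a rational part -/
theorem zero_w' (h3 : 3 < p) (Q : Q4 m w w2 w3 w6) (u : U4 w w2 w3 w6) {M N : WO p} {l : ℕ} {a d : ℤ}
    (D : DW (SW p) w w M l) (hMN : M = a + N) (hN : N ^ 2 = d) (hd : legendreSym p d = -1)
    (rM : (SW p).red M ≠ 0)
    {Y : QO (WO p) p} (hY : mk2 (WO p) p (Zw w * (1 - Zw w)) = 27 * Y) : SS p Y = 0 := by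
  have hd0 : ¬ (p : ℤ) ∣ d := by
    intro h0
    have : legendreSym p d = 0 := by
      rw [legendreSym.eq_zero_iff]
      exact (ZMod.intCast_zmod_eq_zero_iff_dvd _ _).mpr h0
    rw [this] at hd
    norm_num at hd
  have rN : (SW p).red N ≠ 0 := by
    intro h0
    have h1 := congrArg (SW p).red hN
    rw [map_pow, h0] at h1
    exact red_int_ne (p := p) hd0 (by rw [← h1]; ring)
  have hA : (SW p).red (4 * Zw w) ≠ 0 := by
    rw [map_mul, map_ofNat]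
    refine mul_ne_zero ?_ (zne h3 Q u).1
    have : (4 : kb p) = 2 * 2 := by norm_num
    rw [this]
    exact mul_ne_zero (k2_of h3) (k2_of h3)
  have h := Dat_hs (SW p) (p := p) (by omega) D hA hA rM
  have hFN : (SW p).red N ^ p = -(SW p).red N := by
    have h1 := red_pow_sqrt (p := p) (by omega) (g := N) (d := d) hN
    rw [hd] at h1
    rw [h1]; push_cast; ring
  have hFM : (SW p).red M ^ p = (SW p).red (a : WO p) - (SW p).red N := by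
    have ea : frobenius (kb p) p ((SW p).red (a : WO p)) = (SW p).red (a : WO p) := by
      rw [map_intCast, map_intCast]
    rw [hMN, red_frob_eq, map_add, map_add, ea, ← red_frob_eq, hFN]; ring
  have hM' : (SW p).red M = (SW p).red (a : WO p) + (SW p).red N := by rw [hMN, map_add]
  rw [hFM, hM'] at h
  have h2 : (2 * (SW p).red N) * hs p ((SW p).red (4 * Zw w)) = 0 := by linear_combination h
  have h3' := (mul_eq_zero.mp h2).resolve_left (mul_ne_zero (k2_of h3) rN)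
  rw [map_mul, map_ofNat, hs_lg (by omega) (by omega)] at h3'
  exact ss_zero (SW p) (p := p) (z := Zw w) (five_le h3) (SW_q p) hY h3'

/-- vanishing -/
theorem a3b_0 (h3 : 3 < p) (Q : Q4 m w w2 w3 w6) (u : U4 w w2 w3 w6)
    (B : ∃ β M : WO p, β ^ 2 = b ∧ 2 * M = (β - ρ) * MUw w ∧ DW (SW p) w w6 M q)
    (B2 : ∃ β M : WO p, β ^ 2 = b ∧ 2 * M = (β - ρ) * MUw w2 ∧ DW (SW p) w2 w3 M q)
    (hρ : ρ ^ 2 = -3) (hμ : (m : WO p) * μ = 1) (hwi : (m : R p) * wi = 1)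
    (hbq : b + 3 = 2 * q) (hq : ¬ (p : ℤ) ∣ (6 * q))
    (hl : legendreSym p (-(3 * b)) = -1) : AA p wi = ((0 : ℤ) : R p) := by
  have key : ∀ {w w2 w3 w6 : WO p} (_ : Q4 m w w2 w3 w6) (_ : U4 w w2 w3 w6)
      (_ : ∃ β M : WO p, β ^ 2 = b ∧ 2 * M = (β - ρ) * MUw w ∧ DW (SW p) w w6 M q) {Y : QO (WO p) p}
      (_ : mk2 (WO p) p (Zw w * (1 - Zw w)) = 27 * Y), SS p Y = 0 := by
    intro w w2 w3 w6 Q u B Y hY
    obtain ⟨β, M, hβ, hM, d⟩ := B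
    have d2 := ((d.two (SW p) Q.t6 ⟨u.u6, u.u3, u.u2, u.u⟩ (k2_of h3) (k3_of h3)).three (SW p) Q.t3 u.t3
      (k2_of h3) (k3_of h3) hρ)
    have hmb := mb_eq h3 Q u hM
    have hbqO : (b : WO p) + 3 = 2 * q := by exact_mod_cast congrArg (Nat.cast : ℕ → WO p) hbq
    have e : (M * MUw w6 * ρ) * ((-β - ρ) * ρ) = ((6 * q : ℤ) : WO p) := by
      rw [hmb]; push_cast
      linear_combination (-ρ ^ 2) * hβ + (ρ ^ 2 - 3 - b) * hρ + 3 * hbqO
    refine zero_w' h3 Q u d2 (N := β * ρ) (a := 3) (d := -(3 * b)) ?_ ?_ hl ?_ hY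
    · rw [hmb]; push_cast; linear_combination -hρ
    · push_cast
      linear_combination ρ ^ 2 * hβ + b * hρ
    · exact red_ne_mul (n := 6 * q) e hq
  exact fin_zero h3 Q u hμ hwi (key Q u B (mk_Y Q u)) (key Q.t2 u.t2 B2 (mk_Y2 Q u))

end fin

end Pool.Agent.H578.CM
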