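import Pool.Agent.H578.CM.Hs

set_option autoImplicit false
set_option linter.unusedSectionVars false

/-!
# The diagonal case, Frobenius and Legendre symbols
-/

namespace Pool.Agent.H578.CM

open Finset Pool.Agent.H546 Pool.Agent.H547
open Pool.Agent.Q267.CDE (R)

section

variable {O K k : Type*} [CommRing O] [IsDomain O] [Field K] [Algebra O K] [Field k]
  (S : DV O K k) {p : ℕ} [hp : Fact p.Prime] [CharP k p] [IsAlgClosed k]

/-- the diagonal case -/
theorem val_form0 (hp5 : 5 ≤ p) (hq : S.q = (p : O))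
    {z z' : O} {Y : QO O p} (hY : mk2 O p (z * (1 - z)) = 27 * Y)
    (hz : S.red z ≠ 0) (hz1 : S.red (1 - z) ≠ 0) (hz' : S.red z' = S.red z ^ p)
    (ha0 : S.red (ca (4 * z)) ≠ 0) (hb0 : S.red (cb (4 * z)) ≠ 0) {m1 m2 : O} {l1 l2 : ℕ}
    (hm1 : m1 ≠ 0) (hm2 : m2 ≠ 0)
    (d1 : Dat S (cub (ca (4 * z)) (cb (4 * z))) (ca (4 * z')) (cb (4 * z')) m1 l1)
    (d2 : Dat S (cub (ca (4 * z)) (cb (4 * z))) (ca (4 * z')) (cb (4 * z')) m2 l2)
    (x y : ℤ) (hform : (p : ℤ) = l1 * x ^ 2 + l2 * y ^ 2)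
    (hl1 : ¬ (p : ℤ) ∣ l1) (hl2 : ¬ (p : ℤ) ∣ l2)
    (hbig : 16 * (l1 * l2) < p ^ 2) {c : O} (hc : S.red c ≠ 0)
    (hprod : (x : O) ^ 2 * m1 ^ 2 - (y : O) ^ 2 * m2 ^ 2 = c * p) :
    mk2 O p c ^ 2 * SS p Y = mk2 O p (4 * (x : O) ^ 2 * m1 ^ 2 - 2 * c * p) := by
  have key : ∀ y : ℤ, (p : ℤ) = l1 * x ^ 2 + l2 * y ^ 2 → (x : O) ^ 2 * m1 ^ 2 - (y : O) ^ 2 * m2 ^ 2 = c * p →
      S.red ((x : O) * m1 + (y : O) * m2) = 0 →
      mk2 O p c ^ 2 * SS p Y = mk2 O p (4 * (x : O) ^ 2 * m1 ^ 2 - 2 * c * p) := by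
    intro y hform hprod hr
    have := val_form S hp5 hq hY hz hz1 hz' ha0 hb0 hm1 hm2 d1 d2 x y 0 (by rw [hform]; ring) hl1 hl2
      (by positivity) hbig (al := (x : O) * m1 + (y : O) * m2) (τ := 2 * x * m1) rfl hr hc
      (by rw [← hprod]; ring)
    rw [this]
    congr 1
    ring
  have h0 : S.red ((x : O) * m1 + (y : O) * m2) * S.red ((x : O) * m1 - (y : O) * m2) = 0 := by
    rw [← map_mul]
    have : ((x : O) * m1 + (y : O) * m2) * ((x : O) * m1 - (y : O) * m2) = S.q * c := by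
      rw [hq]; linear_combination hprod
    rw [this, map_mul, S.red_q, zero_mul]
  rcases mul_eq_zero.mp h0 with h | h
  · exact key y hform hprod h
  · refine key (-y) (by rw [hform]; ring) ?_ ?_
    · push_cast; linear_combination hprod
    · push_cast; rw [neg_mul, ← sub_eq_add_neg]; exact h

end

section wo

variable {p : ℕ} [hp : Fact p.Prime]

theorem red_pow_int (n : ℤ) : (SW p).red (n : WO p) ^ p = (SW p).red (n : WO p) := by
  rw [map_intCast]
  have h := frobenius_def (R := kb p) p (n : kb p)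
  rw [← h, map_intCast]

/-- the Frobenius fixes inverses of integers -/
theorem red_pow_inv {q : WO p} {n : ℤ} (h : (n : WO p) * q = 1) : (SW p).red q ^ p = (SW p).red q := by
  have h1 := congrArg (SW p).red h
  rw [map_mul, map_one] at h1
  have hn : (SW p).red (n : WO p) ≠ 0 := left_ne_zero_of_mul_eq_one h1
  have h2 := congrArg (fun x => x ^ p) h1
  beta_reduce at h2
  rw [mul_pow, red_pow_int, one_pow] at h2
  apply mul_left_cancel₀ hn
  rw [h1, h2]

/-- the Frobenius on square roots -/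
theorem red_pow_sqrt (hp2 : p ≠ 2) {g : WO p} {d : ℤ} (h : g ^ 2 = (d : WO p)) :
    (SW p).red g ^ p = (legendreSym p d : kb p) * (SW p).red g := by
  refine frob_sqrt hp2 (d := d) ?_
  rw [← map_pow, h, map_intCast]

/-- two elements with the same reduction -/
theorem red_lift {x y : WO p} (h : (SW p).red x ^ p = (SW p).red y) : ∃ δ, x ^ p = y + (p : WO p) * δ := by
  have h1 : (SW p).red (x ^ p - y) = 0 := by rw [map_sub, map_pow, h, sub_self]
  obtain ⟨d, hd⟩ := ((SW p).red_iff _).mp h1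
  rw [SW_q] at hd
  exact ⟨d, by linear_combination hd⟩

theorem isUnit_of_mul_int {x y : WO p} {n : ℤ} (h : x * y = (n : WO p)) (hn : ¬ (p : ℤ) ∣ n) : IsUnit x :=
  (SW p).unit_of_red (red_ne_mul h hn)

/-- the Legendre symbol of `-2` -/
theorem legm2 (hp2 : p ≠ 2) : legendreSym p (-2) = if p % 8 = 1 ∨ p % 8 = 3 then 1 else -1 := by
  rw [legendreSym.at_neg_two hp2]
  have hodd : p % 2 = 1 := by
    rcases hp.out.eq_two_or_odd with h | h
    · exact absurd h hp2
    · exact h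
  have h8 : p % 8 = 1 ∨ p % 8 = 3 ∨ p % 8 = 5 ∨ p % 8 = 7 := by omega
  rw [ZMod.χ₈'_nat_eq_if_mod_eight]
  rw [if_neg (by omega)]

theorem leg_mul (a b : ℤ) : legendreSym p (a * b) = legendreSym p a * legendreSym p b := legendreSym.mul p a b

/-- the Legendre symbol of `6` -/
theorem leg6 (hp2 : p ≠ 2) (hp3 : p ≠ 3) : legendreSym p 6 =
    (if p % 8 = 1 ∨ p % 8 = 3 then 1 else -1) * (if p % 3 = 1 then 1 else -1) := by
  have : (6 : ℤ) = (-2) * (-3) := by norm_num
  rw [this, leg_mul, legm2 hp2, legm3 hp2 hp3]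

/-- the Legendre symbol of `-1` -/
theorem legm1 (hp2 : p ≠ 2) : legendreSym p (-1) = if p % 4 = 1 then 1 else -1 := by
  rw [legendreSym.at_neg_one hp2]
  have hodd : p % 2 = 1 := by
    rcases hp.out.eq_two_or_odd with h | h
    · exact absurd h hp2
    · exact h
  have : p % 4 = 1 ∨ p % 4 = 3 := by omega
  rcases this with h | h
  · rw [ZMod.χ₄_nat_one_mod_four h, if_pos h]
  · rw [ZMod.χ₄_nat_three_mod_four h, if_neg (by omega)]

/-- the Legendre symbol of `3` -/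
theorem leg3' (hp2 : p ≠ 2) (hp3 : p ≠ 3) : legendreSym p 3 =
    (if p % 4 = 1 then 1 else -1) * (if p % 3 = 1 then 1 else -1) := by
  have : (3 : ℤ) = (-1) * (-3) := by norm_num
  rw [this, leg_mul, legm1 hp2, legm3 hp2 hp3]

end wo

end Pool.Agent.H578.CM
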