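import Pool.Agent.H546.Util
import Pool.Agent.H547.ZJ

set_option autoImplicit false
set_option linter.unusedSectionVars false

/-!
# The cubic sums at irrational arguments, from two isogenies
-/

namespace Pool.Agent.H578.CM

open Finset Pool.Agent.H546 Pool.Agent.H547
open Pool.Agent.Q267.CDE (R)
open Pool.Agent.Q267.MW (u3 u3_leg clausen_gen)
open Pool.Agent.Q267.Seven (dl)

variable {O K k : Type*} [CommRing O] [IsDomain O] [Field K] [Algebra O K] [Field k]
  (S : DV O K k)

section sums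

variable {p : ℕ} [hp : Fact p.Prime]

/-- nine times the sum as a square, in any algebra over `ℤ/p²` -/
theorem ss_sq (hp5 : 5 ≤ p) {A : Type*} [CommRing A] (th : R p →+* A) (z Y : A)
    (hz : z * (1 - z) = 27 * Y) :
    9 * SS p Y = (2 * lg (p / 3) z + lg (2 * p / 3) z) ^ 2 ∧ (p : A) * lg (p / 3) z = p * lg (2 * p / 3) z := by
  have hp3 : p ≠ 3 := by omega
  have c1 := clausen_gen p (p / 3) (by omega) z _ hz
  have c2 := clausen_gen p (2 * p / 3) (by omega) z _ hz
  rw [lg_ext _ _ (by omega)] at c1 c2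
  have hS : 3 * SS p Y = 2 * lg (p / 3) z ^ 2 + lg (2 * p / 3) z ^ 2 := by
    rw [c1, c2]
    unfold SS
    rw [mul_sum, mul_sum, ← sum_add_distrib]
    refine sum_congr rfl fun x hx => ?_
    obtain ⟨h1, -⟩ := u3_leg p hp3 x (mem_range.mp hx)
    have h1' := congrArg th h1
    rw [map_mul, map_natCast, map_mul, map_pow, map_add, map_mul, map_intCast, map_intCast, map_ofNat,
      map_ofNat, map_ofNat] at h1'
    have h2 : ((ak x : ℕ) : A) = (x.centralBinom : A) * ((u3 x : ℕ) : A) := by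
      unfold ak Pool.Agent.Q267.MW.u3
      push_cast
      ring
    rw [h2, mul_pow]
    linear_combination (x.centralBinom : A) * Y ^ x * h1'
  have hP : (p : A) * lg (p / 3) z = p * lg (2 * p / 3) z := by
    rw [← lg_ext (p / 3) p (by omega), ← lg_ext (2 * p / 3) p (by omega), mul_sum, mul_sum]
    refine sum_congr rfl fun x hx => ?_
    obtain ⟨-, h2⟩ := u3_leg p hp3 x (mem_range.mp hx)
    have := congrArg th h2
    rw [map_mul, map_mul, map_natCast, map_intCast, map_intCast] at this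
    linear_combination z ^ x * this
  refine ⟨?_, hP⟩
  set a := lg (p / 3) z
  set b := lg (2 * p / 3) z
  have hd : (a - b) ^ 2 = 0 := by
    have hcoef : ∀ x ∈ range p, ∃ y : R p, (dl (p / 3) x : R p) - (dl (2 * p / 3) x : R p) = p * y := by
      intro x hx
      obtain ⟨-, h2⟩ := u3_leg p hp3 x (mem_range.mp hx)
      have h3 : ((dl (p / 3) x : ℤ) : R p) * p = ((dl (2 * p / 3) x : ℤ) : R p) * p := by
        linear_combination h2
      have h4 : (((dl (p / 3) x - dl (2 * p / 3) x) * p : ℤ) : ZMod (p ^ 2)) = 0 := by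
        push_cast
        linear_combination h3
      rw [ZMod.intCast_zmod_eq_zero_iff_dvd] at h4
      obtain ⟨c, hc⟩ := h4
      refine ⟨(c : R p), ?_⟩
      have hp0 : (p : ℤ) ≠ 0 := by exact_mod_cast hp.out.ne_zero
      have h5 : dl (p / 3) x - dl (2 * p / 3) x = p * c := by
        apply mul_right_cancel₀ hp0
        rw [hc]; push_cast; ring
      have := congrArg (Int.cast : ℤ → R p) h5
      push_cast at this
      exact this
    choose! y hy using hcoef
    have hab : a - b = (p : A) * ∑ x ∈ range p, th (y x) * z ^ x := by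
      show lg (p / 3) z - lg (2 * p / 3) z = _
      rw [← lg_ext (p / 3) p (by omega), ← lg_ext (2 * p / 3) p (by omega), ← sum_sub_distrib, mul_sum]
      refine sum_congr rfl fun x hx => ?_
      have := congrArg th (hy x hx)
      rw [map_sub, map_mul, map_natCast, map_intCast, map_intCast] at this
      linear_combination z ^ x * this
    have hpp : (p : A) ^ 2 = 0 := by
      have := congrArg th (Pool.Agent.Q267.CDE.p_sq p)
      rw [map_pow, map_natCast, map_zero] at this
      exact this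
    rw [hab, mul_pow, hpp, zero_mul]
  linear_combination 3 * hS + 2 * hd

variable [CharP k p]

/-- the reduction modulo `p²` -/
abbrev mk2 (O : Type*) [CommRing O] (p : ℕ) : O →+* QO O p := Ideal.Quotient.mk (Ideal.span {(p : O) ^ 2})

theorem mk2_zero {x : O} (hx : (p : O) ^ 2 ∣ x) : mk2 O p x = 0 := by
  rw [Ideal.Quotient.eq_zero_iff_mem, Ideal.mem_span_singleton]
  exact hx

theorem mk2_p : ((p : ℕ) : QO O p) ^ 2 = 0 := by
  have := mk2_zero (O := O) (p := p) (x := (p : O) ^ 2) dvd_rfl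
  rw [map_pow, map_natCast] at this
  exact this

include S in
theorem nine_unit (hp5 : 5 ≤ p) (hq : S.q = (p : O)) : IsUnit (9 : QO O p) := by
  have h3 : IsUnit (3 : O) := by
    apply S.unit_of_red
    have := small_ne (k := k) (p := p) (n := 3) (by norm_num) (by omega)
    rw [map_ofNat]
    exact_mod_cast this
  have h9 : IsUnit (9 : O) := by
    have : (9 : O) = 3 * 3 := by norm_num
    rw [this]; exact h3.mul h3
  have := h9.map (mk2 O p)
  rwa [map_ofNat] at this

include S in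
/-- the sum from the unit root -/
theorem ss_val (hp5 : 5 ≤ p) (hq : S.q = (p : O)) {z w : O} {Y : QO O p}
    (hz : mk2 O p (z * (1 - z)) = 27 * Y)
    (key : ∃ ε : O, ε ^ 2 = 1 ∧ (p : O) ^ 2 ∣ ε * w * (2 * lg (p / 3) z + lg (2 * p / 3) z) - 3) :
    mk2 O p w ^ 2 * SS p Y = 1 := by
  have := charQ S (p := p) hq
  set th : R p →+* QO O p := ZMod.castHom (dvd_refl _) (QO O p) with hth
  obtain ⟨h9, -⟩ := ss_sq (p := p) hp5 th (mk2 O p z) Y (by rw [← hz, map_mul, map_sub, map_one])
  obtain ⟨ε, hε, hk⟩ := key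
  have k1 := mk2_zero hk
  rw [map_sub, map_mul, map_mul, map_add, map_mul, map_ofNat, map_ofNat, lg_cast, lg_cast] at k1
  have hε' : mk2 O p ε ^ 2 = 1 := by rw [← map_pow, hε, map_one]
  apply (nine_unit S hp5 hq).mul_left_cancel
  set L := 2 * lg (p / 3) (mk2 O p z) + lg (2 * p / 3) (mk2 O p z) with hL
  have k3 : mk2 O p ε * mk2 O p w * L = 3 := by linear_combination k1
  have k4 : mk2 O p w ^ 2 * L ^ 2 = 9 := by
    linear_combination (mk2 O p ε * mk2 O p w * L + 3) * k3 - (mk2 O p w ^ 2 * L ^ 2) * hε'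
  linear_combination (mk2 O p w ^ 2) * h9 + k4

include S in
/-- the supersingular case -/
theorem ss_zero (hp5 : 5 ≤ p) (hq : S.q = (p : O)) {z : O} {Y : QO O p}
    (hz : mk2 O p (z * (1 - z)) = 27 * Y) (hss : lg (p / 3) (S.red z) = 0) : SS p Y = 0 := by
  have := charQ S (p := p) hq
  set th : R p →+* QO O p := ZMod.castHom (dvd_refl _) (QO O p) with hth
  obtain ⟨h9, hP⟩ := ss_sq (p := p) hp5 th (mk2 O p z) Y (by rw [← hz, map_mul, map_sub, map_one])
  have hpp := mk2_p (O := O) (p := p)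
  rw [← lg_cast] at hss
  obtain ⟨y, hy⟩ := (S.red_iff _).mp hss
  rw [hq] at hy
  have e1 : lg (p / 3) (mk2 O p z) = (p : QO O p) * mk2 O p y := by
    rw [← lg_cast, hy, map_mul, map_natCast]
  have hP' : mk2 O p (p : O) * lg (2 * p / 3) (mk2 O p z) = 0 := by
    rw [map_natCast, ← hP, e1]
    linear_combination mk2 O p y * hpp
  have hb : ∃ y', lg (2 * p / 3) z = (p : O) * y' := by
    rw [← lg_cast, ← map_mul, Ideal.Quotient.eq_zero_iff_mem, Ideal.mem_span_singleton] at hP'
    obtain ⟨c, hc⟩ := hP'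
    refine ⟨c, ?_⟩
    have hp0 : (p : O) ≠ 0 := by rw [← hq]; exact S.q_ne
    apply mul_left_cancel₀ hp0
    rw [hc]; ring
  obtain ⟨y', hy'⟩ := hb
  have e2 : lg (2 * p / 3) (mk2 O p z) = (p : QO O p) * mk2 O p y' := by
    rw [← lg_cast, hy', map_mul, map_natCast]
  apply (nine_unit S hp5 hq).mul_left_cancel
  rw [h9, e1, e2, mul_zero]
  linear_combination (2 * mk2 O p y + mk2 O p y') ^ 2 * hpp

/-- **The value of the sum from two isogenies, irrational arguments.** -/
theorem val_form [IsAlgClosed k] (hp5 : 5 ≤ p) (hq : S.q = (p : O))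
    {z z' : O} {Y : QO O p} (hY : mk2 O p (z * (1 - z)) = 27 * Y)
    (hz : S.red z ≠ 0) (hz1 : S.red (1 - z) ≠ 0) (hz' : S.red z' = S.red z ^ p)
    (ha0 : S.red (ca (4 * z)) ≠ 0) (hb0 : S.red (cb (4 * z)) ≠ 0) {m1 m2 : O} {l1 l2 : ℕ}
    (hm1 : m1 ≠ 0) (hm2 : m2 ≠ 0)
    (d1 : Dat S (cub (ca (4 * z)) (cb (4 * z))) (ca (4 * z')) (cb (4 * z')) m1 l1)
    (d2 : Dat S (cub (ca (4 * z)) (cb (4 * z))) (ca (4 * z')) (cb (4 * z')) m2 l2)
    (r s t0 : ℤ) (hform : (p : ℤ) = r ^ 2 * l1 + r * s * t0 + s ^ 2 * l2)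
    (hl1 : ¬ (p : ℤ) ∣ l1) (hl2 : ¬ (p : ℤ) ∣ l2) (ht0 : t0 ^ 2 ≤ 4 * l1 * l2)
    (hbig : 16 * (l1 * l2) < p ^ 2) {al τ c : O} (hal : (r : O) * m1 + (s : O) * m2 = al)
    (hred : S.red al = 0) (hc : S.red c ≠ 0) (hprod : al * (τ - al) = c * p) :
    mk2 O p c ^ 2 * SS p Y = mk2 O p (τ ^ 2 - 2 * c * p) := by
  have hp0 : (p : O) ≠ 0 := by rw [← hq]; exact S.q_ne
  obtain ⟨w, hw⟩ := (S.red_iff _).mp hred
  rw [hq] at hw
  have hw1 : w * (τ - al) = c := by
    apply mul_left_cancel₀ hp0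
    rw [hw] at hprod ⊢
    linear_combination hprod
  have hwr : S.red w ≠ 0 := by
    intro h0
    have h1 := congrArg S.red hw1
    rw [map_mul, h0, zero_mul] at h1
    exact hc h1.symm
  have hv := ss_val S hp5 hq hY (lift3 S hp5 hq hz hz1 hz' ha0 hb0 hm1 hm2 d1 d2 r s t0 hform
    (form_ndvd hform hl2) (form_ndvd (r := s) (s := r) (t0 := t0) (l1 := l2) (l2 := l1)
      (by rw [hform]; ring) hl1) ht0 hbig (w := w) (by rw [hal, hw]) hwr)
  have hpp := mk2_p (O := O) (p := p)
  have h1 := congrArg (mk2 O p) hw1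
  have h2 := congrArg (mk2 O p) hw
  rw [map_mul, map_sub] at h1
  rw [map_mul, map_natCast] at h2
  rw [map_sub, map_pow, map_mul, map_mul, map_ofNat, map_natCast, ← h1]
  rw [h2]
  set W := mk2 O p w
  set T := mk2 O p τ
  linear_combination (T - (p : QO O p) * W) ^ 2 * hv - W ^ 2 * hpp

end sums

end Pool.Agent.H578.CM
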