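import Pool.Agent.H578.CM.Gen

set_option autoImplicit false
set_option linter.unusedSectionVars false

/-!
# Isogenies and the Hasse coefficient, general form
-/

namespace Pool.Agent.H578.CM

open Finset Pool.Agent.H546 Pool.Agent.H547

section hasse

open PowerSeries

variable {k : Type*} [Field k] {p : ℕ} [hp : Fact p.Prime] [CharP k p]

/-- the Hasse coefficient of `y² = x³ + a x + b` -/
noncomputable def Hc {k : Type*} [CommRing k] (p : ℕ) (a b : k) : k := ((cub a b) ^ ((p - 1) / 2)).coeff (p - 1)

theorem coeff_transl {P : Polynomial k} (h : P.natDegree < 2 * p - 1) (c : k) :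
    (P.comp (Polynomial.X + Polynomial.C c)).coeff (p - 1) = P.coeff (p - 1) := by
  have hp2 := hp.out.two_le
  rw [← Polynomial.taylor_apply, Polynomial.taylor_coeff]
  have e : Polynomial.hasseDeriv (p - 1) P = Polynomial.C (P.coeff (p - 1)) := by
    ext n
    rw [Polynomial.hasseDeriv_coeff, Polynomial.coeff_C]
    by_cases hn : n = 0
    · subst hn; simp
    · rw [if_neg hn]
      by_cases hnp : n < p
      · have h1 : p ∣ (n + (p - 1)).choose (p - 1) := by
          rw [add_comm n]
          exact hp.out.dvd_choose_add (by omega) hnp (by omega)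
        rw [(CharP.cast_eq_zero_iff k p _).mpr h1, zero_mul]
      · rw [Polynomial.coeff_eq_zero_of_natDegree_lt (by omega), mul_zero]
  rw [e, Polynomial.eval_C]

theorem cub_deg (a b : k) (e : ℕ) : (cub a b ^ e).natDegree ≤ 3 * e := by
  refine Polynomial.natDegree_pow_le.trans ?_
  have : (cub a b).natDegree ≤ 3 := by unfold cub; compute_degree
  nlinarith

theorem hs_Hc (hp2 : p ≠ 2) {A : k} (hA : A ≠ 0) : hs p A = Hc p (ca A) (cb A) := by
  obtain ⟨e, he⟩ := hp.out.odd_of_ne_two hp2
  have e1 : (p - 1) / 2 = e := by omega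
  unfold hs Hc
  rw [e1]
  have h1 := congrArg (fun P => (P ^ e).coeff (p - 1)) (cub_comp A)
  beta_reduce at h1
  have h2 : (cub (ca A) (cb A)).comp (Polynomial.C A * Polynomial.X + 3) =
      ((cub (ca A) (cb A)).comp (Polynomial.X + Polynomial.C 3)).comp (Polynomial.C A * Polynomial.X) := by
    rw [Polynomial.comp_assoc]
    congr 1
    simp only [Polynomial.add_comp, Polynomial.X_comp, Polynomial.C_comp]
    rw [map_ofNat]
  rw [h2, ← Polynomial.pow_comp, Polynomial.comp_C_mul_X_coeff, ← Polynomial.pow_comp,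
    coeff_transl (p := p) (lt_of_le_of_lt (cub_deg _ _ e) (by omega)), mul_pow, ← pow_mul,
    ← Polynomial.C_pow, Polynomial.coeff_C_mul] at h1
  have h3 : 2 * e = p - 1 := by omega
  rw [h3] at h1
  apply mul_left_cancel₀ (pow_ne_zero (p - 1) hA)
  rw [← h1]; ring

/-- **Isogenies and the Hasse coefficient.** -/
theorem hasse_gen [Infinite k] (hp2 : p ≠ 2) {a1 b1 a b m : k} {n d : Polynomial k} (hd : d ≠ 0)
    (hm : m ≠ 0) (hne : wr n d ≠ 0)
    (ode : cub a1 b1 * wr n d ^ 2 = Polynomial.C m ^ 2 * tgt a b n d) :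
    m * Hc p a1 b1 = m ^ p * Hc p a b := by
  obtain ⟨e, he⟩ := hp.out.odd_of_ne_two hp2
  have e1 : (p - 1) / 2 = e := by omega
  obtain ⟨x0, hx0⟩ : ∃ x0, (d * wr n d).eval x0 ≠ 0 := by
    by_contra hcon
    push Not at hcon
    exact mul_ne_zero hd hne (Polynomial.funext fun r => by rw [hcon r, Polynomial.eval_zero])
  rw [Polynomial.eval_mul] at hx0
  have hdx := left_ne_zero_of_mul hx0
  have hwx := right_ne_zero_of_mul hx0
  set L : Polynomial k := Polynomial.X + Polynomial.C x0 with hL
  have hL0 : L.eval 0 = x0 := by simp [hL]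
  obtain ⟨y0, hy0⟩ : ∃ y0, y0 = n.eval x0 / d.eval x0 := ⟨_, rfl⟩
  obtain ⟨D, hD⟩ : ∃ D, D = d.comp L := ⟨_, rfl⟩
  obtain ⟨N, hN⟩ : ∃ N, N = n.comp L - Polynomial.C y0 * D := ⟨_, rfl⟩
  have hLd : Polynomial.derivative L = 1 := by simp [hL]
  have hD0 : D.coeff 0 = d.eval x0 := by
    rw [Polynomial.coeff_zero_eq_eval_zero, hD, Polynomial.eval_comp, hL0]
  have hN0 : N.coeff 0 = 0 := by
    rw [Polynomial.coeff_zero_eq_eval_zero, hN, Polynomial.eval_sub, Polynomial.eval_mul, Polynomial.eval_C,
      hD, Polynomial.eval_comp, Polynomial.eval_comp, hL0, hy0, div_mul_cancel₀ _ hdx, sub_self]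
  have hwr : wr N D = (wr n d).comp L := by
    rw [hN, hD]
    simp only [wr, Polynomial.derivative_sub, Polynomial.derivative_mul, Polynomial.derivative_C,
      Polynomial.derivative_comp, hLd, Polynomial.sub_comp, Polynomial.mul_comp]
    ring
  have hode : (cub a1 b1).comp L * wr N D ^ 2 = Polynomial.C m ^ 2 * tgt a b (N + Polynomial.C y0 * D) D := by
    have h1 := congrArg (fun P => P.comp L) ode
    simp only [Polynomial.mul_comp, Polynomial.pow_comp, Polynomial.C_comp] at h1
    rw [hwr, h1]
    have : N + Polynomial.C y0 * D = n.comp L := by rw [hN]; ring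
    rw [this, hD]
    simp only [tgt, Polynomial.mul_comp, Polynomial.add_comp, Polynomial.pow_comp, Polynomial.C_comp]
  set al : Polynomial k →+* k⟦X⟧ := Polynomial.coeToPowerSeries.ringHom with hal
  have alC : ∀ c : k, al (Polynomial.C c) = C c := fun c => by simp [hal]
  have alc : ∀ P : Polynomial k, constantCoeff (al P) = P.coeff 0 := fun P => by
    rw [← coeff_zero_eq_constantCoeff_apply]; simp [hal]
  have alD : ∀ P : Polynomial k, d⁄dX k (al P) = al (Polynomial.derivative P) := by
    intro P; simp [hal, derivative_coe]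
  have hDu : IsUnit (al D) := by
    rw [PowerSeries.isUnit_iff_constantCoeff, alc, hD0]
    exact isUnit_iff_ne_zero.mpr hdx
  obtain ⟨iD, hiD⟩ := hDu.exists_left_inv
  set U := al N * iD with hU
  have hiD' : d⁄dX k iD = - iD ^ 2 * (al (Polynomial.derivative D)) := by
    have h := congrArg (d⁄dX k) hiD
    rw [Derivation.leibniz, derivative_one, smul_eq_mul, smul_eq_mul, alD] at h
    linear_combination iD * h - (d⁄dX k iD) * hiD
  have hdU : d⁄dX k U = al (wr N D) * iD ^ 2 := by
    rw [hU, Derivation.leibniz, smul_eq_mul, smul_eq_mul, alD, hiD', wr, map_sub, map_mul, map_mul]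
    linear_combination (-(iD * al (Polynomial.derivative N))) * hiD
  have hU0 : constantCoeff U = 0 := by rw [hU, map_mul, alc, hN0, zero_mul]
  set T : Polynomial k := (cub a b).comp (Polynomial.X + Polynomial.C y0) with hT
  have hwU : Polynomial.aeval U T = (U + C y0) ^ 3 + C a * (U + C y0) + C b := by
    simp only [hT, cub, Polynomial.add_comp, Polynomial.mul_comp, Polynomial.pow_comp, Polynomial.X_comp,
      Polynomial.C_comp, map_add, map_mul, map_pow, Polynomial.aeval_X, Polynomial.aeval_C]
    rfl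
  have hode' := congrArg al hode
  have hCm : C m * C m⁻¹ = (1 : k⟦X⟧) := by rw [← map_mul, mul_inv_cancel₀ hm, map_one]
  have key : Polynomial.aeval U T = al ((cub a1 b1).comp L) * (C m⁻¹ * d⁄dX k U) ^ 2 := by
    rw [hwU, hdU]
    simp only [tgt, map_mul, map_pow, map_add, alC] at hode'
    have hUD : U * al D = al N := by rw [hU]; linear_combination al N * hiD
    set V := U + C y0 with hV
    have hVD : al N + C y0 * al D = V * al D := by rw [hV, ← hUD]; ring
    rw [hVD] at hode'
    have hiD4 : iD ^ 4 * al D ^ 4 = 1 := by rw [← mul_pow, hiD, one_pow]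
    have hCm2 : C m⁻¹ ^ 2 * C m ^ 2 = (1 : k⟦X⟧) := by rw [← mul_pow, mul_comm, hCm, one_pow]
    linear_combination (-(C m⁻¹ ^ 2 * iD ^ 4)) * hode' - (V ^ 3 + C a * V + C b) * hiD4 -
      (iD ^ 4 * al D ^ 4 * (V ^ 3 + C a * V + C b)) * hCm2
  have hke : Polynomial.aeval U (T ^ e) * d⁄dX k U =
      C (m⁻¹ ^ (2 * e)) * ((d⁄dX k U) ^ p * al (((cub a1 b1).comp L) ^ e)) := by
    rw [map_pow, key, he, map_pow, map_pow]
    ring
  have h1 := cart_poly (k := k) (p := p) U hU0 (T ^ e)
  have hc1 : constantCoeff (d⁄dX k U) = coeff 1 U := by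
    rw [← coeff_zero_eq_constantCoeff_apply, coeff_derivative]; simp
  rw [hke, coeff_C_mul, pow_low _ _ hc1] at h1
  have hcoe : coeff (p - 1) (al (((cub a1 b1).comp L) ^ e)) = (((cub a1 b1).comp L) ^ e).coeff (p - 1) :=
    Polynomial.coeff_coe _ _
  rw [hcoe] at h1
  have hne1 : coeff 1 U ≠ 0 := by
    intro h0
    rw [← hc1, hdU, map_mul, map_pow, alc, hwr, Polynomial.coeff_zero_eq_eval_zero, Polynomial.eval_comp, hL0] at h0
    rcases mul_eq_zero.mp h0 with h | h
    · exact hwx h
    · have h2 := congrArg constantCoeff hiD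
      rw [map_mul, pow_eq_zero_iff (by norm_num) |>.mp h, zero_mul, map_one] at h2
      exact zero_ne_one h2
  have hc2 : (((cub a1 b1).comp L) ^ e).coeff (p - 1) = (cub a1 b1 ^ e).coeff (p - 1) := by
    rw [← Polynomial.pow_comp, hL]
    exact coeff_transl (lt_of_le_of_lt (cub_deg _ _ e) (by omega)) x0
  have hc3 : (T ^ e).coeff (p - 1) = (cub a b ^ e).coeff (p - 1) := by
    rw [hT, ← Polynomial.pow_comp]
    exact coeff_transl (lt_of_le_of_lt (cub_deg _ _ e) (by omega)) y0
  rw [hc2, hc3] at h1
  unfold Hc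
  rw [e1]
  have h3 : m⁻¹ ^ (2 * e) * (cub a1 b1 ^ e).coeff (p - 1) = (cub a b ^ e).coeff (p - 1) := by
    apply mul_right_cancel₀ (pow_ne_zero p hne1)
    rw [← h1]; ring
  rw [← h3, he]
  have hmm : m ^ (2 * e) * m⁻¹ ^ (2 * e) = 1 := by
    rw [← mul_pow, mul_inv_cancel₀ hm, one_pow]
  rw [pow_succ]
  linear_combination (-(m * (cub a1 b1 ^ e).coeff (2 * e + 1 - 1))) * hmm

end hasse

section dat

variable {O K k : Type*} [CommRing O] [IsDomain O] [Field K] [Algebra O K] [Field k]
  (S : DV O K k)

/-- an explicit isogeny relates the Hasse coefficients -/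
theorem Dat_hs {p : ℕ} [hp : Fact p.Prime] [CharP k p] [Infinite k] (hp2 : p ≠ 2) {A A' m : O} {l : ℕ}
    (h : Dat S (cub (ca A) (cb A)) (ca A') (cb A') m l) (hA : S.red A ≠ 0) (hA' : S.red A' ≠ 0)
    (hm : S.red m ≠ 0) :
    S.red m * hs p (S.red A) = S.red m ^ p * hs p (S.red A') := by
  obtain ⟨n, d, ode, hd, hdeg, hnl, copK, copk, hl⟩ := h
  rw [hs_Hc hp2 hA, hs_Hc hp2 hA']
  have ode' := congrArg (Polynomial.map S.red) ode
  rw [Polynomial.map_mul, Polynomial.map_mul, Polynomial.map_pow, Polynomial.map_pow, cub_map, wr_map,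
    tgt_map, Polynomial.map_C, ca_map, cb_map, ca_map, cb_map] at ode'
  have hnd : (n.map S.red).natDegree ≠ 0 := by rw [hl]; omega
  have hd0 : d.map S.red ≠ 0 := by
    intro h0
    rw [h0, isCoprime_zero_right] at copk
    exact hnd (Polynomial.natDegree_eq_zero_of_isUnit copk)
  refine hasse_gen hp2 hd0 hm ?_ ode'
  intro h0
  rw [h0, zero_pow two_ne_zero, mul_zero] at ode'
  have ht : tgt (ca (S.red A')) (cb (S.red A')) (n.map S.red) (d.map S.red) = 0 := by
    rcases mul_eq_zero.mp ode'.symm with h | h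
    · exact absurd (pow_eq_zero_iff (by norm_num) |>.mp h) (Polynomial.C_ne_zero.mpr hm)
    · exact h
  unfold tgt at ht
  rcases mul_eq_zero.mp ht with h | h
  · exact hd0 h
  · -- degrees
    have hlt : (d.map S.red).natDegree < (n.map S.red).natDegree := by
      rw [hl]; exact lt_of_le_of_lt Polynomial.natDegree_map_le hdeg
    set n' := n.map S.red
    set d' := d.map S.red
    have h1 : n' ^ 3 = -(Polynomial.C (ca (S.red A')) * n' * d' ^ 2 + Polynomial.C (cb (S.red A')) * d' ^ 3) := by
      linear_combination h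
    have h2 := congrArg Polynomial.natDegree h1
    rw [Polynomial.natDegree_pow, Polynomial.natDegree_neg] at h2
    have h3 : (Polynomial.C (ca (S.red A')) * n' * d' ^ 2 + Polynomial.C (cb (S.red A')) * d' ^ 3).natDegree
        < 3 * n'.natDegree := by
      refine lt_of_le_of_lt (Polynomial.natDegree_add_le _ _) (max_lt ?_ ?_)
      · refine lt_of_le_of_lt Polynomial.natDegree_mul_le ?_
        rw [Polynomial.natDegree_pow]
        have := Polynomial.natDegree_C_mul_le (ca (S.red A')) n'
        omega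
      · refine lt_of_le_of_lt (Polynomial.natDegree_C_mul_le _ _) ?_
        rw [Polynomial.natDegree_pow]
        omega
    omega

/-- composition with an isomorphism -/
theorem Dat_iso {f : Polynomial O} {a b a' b' m u : O} {l : ℕ} (h : Dat S f a b m l) (hu : S.red u ≠ 0)
    (ha : a = u ^ 4 * a') (hb : b = u ^ 6 * b') : Dat S f a' b' (m * u) l := by
  obtain ⟨n, d, ode, hd, hdeg, hnl, copK, copk, hl⟩ := h
  have hu0 : u ≠ 0 := by rintro rfl; exact hu (map_zero _)
  have huK : algebraMap O K u ≠ 0 := fun h0 => hu0 (S.inj (by rw [h0, map_zero]))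
  refine ⟨n, Polynomial.C (u ^ 2) * d, ?_, mul_ne_zero (Polynomial.C_ne_zero.mpr (pow_ne_zero 2 hu0)) hd, ?_, hnl,
    ?_, ?_, hl⟩
  · have e1 : wr n (Polynomial.C (u ^ 2) * d) = Polynomial.C (u ^ 2) * wr n d := by
      simp only [wr, Polynomial.derivative_mul, Polynomial.derivative_C]; ring
    rw [e1]
    rw [ha, hb] at ode
    simp only [tgt, Polynomial.C_mul, Polynomial.C_pow] at ode ⊢
    linear_combination (Polynomial.C u ^ 4) * ode
  · rw [Polynomial.natDegree_C_mul (pow_ne_zero 2 hu0)]; exact hdeg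
  · rw [Polynomial.map_mul, Polynomial.map_C]
    have hU : IsUnit (Polynomial.C (algebraMap O K (u ^ 2)) : Polynomial K) := by
      apply Polynomial.isUnit_C.mpr
      rw [map_pow]
      exact (isUnit_iff_ne_zero.mpr huK).pow 2
    rw [isCoprime_mul_unit_left_right hU]
    exact copK
  · rw [Polynomial.map_mul, Polynomial.map_C]
    have hU : IsUnit (Polynomial.C (S.red (u ^ 2)) : Polynomial k) := by
      apply Polynomial.isUnit_C.mpr
      rw [map_pow]
      exact (isUnit_iff_ne_zero.mpr hu).pow 2
    rw [isCoprime_mul_unit_left_right hU]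
    exact copk

/-- numerator and denominator of the composite with the 2-isogeny with kernel `x = e` -/
noncomputable def twN {R : Type*} [CommRing R] (e t : R) (n d : Polynomial R) : Polynomial R :=
  n * (n - Polynomial.C e * d) + Polynomial.C t * d ^ 2

noncomputable def twD {R : Type*} [CommRing R] (e : R) (n d : Polynomial R) : Polynomial R :=
  d * (n - Polynomial.C e * d)

theorem tw_cop {F : Type*} [Field F] {e t : F} (ht : t ≠ 0) {n d : Polynomial F} (h : IsCoprime n d) :
    IsCoprime (twN e t n d) (twD e n d) := by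
  have hed : IsCoprime (n - Polynomial.C e * d) d := by
    have := h.add_mul_right_left (-Polynomial.C e)
    have e' : n + (-Polynomial.C e) * d = n - Polynomial.C e * d := by ring
    rwa [e'] at this
  set ε := n - Polynomial.C e * d with hε
  have c1 : IsCoprime (twN e t n d) d := by
    have : twN e t n d = n * ε + d * (Polynomial.C t * d) := by
      unfold twN; rw [← hε]; ring
    rw [this]
    exact (h.mul_left hed).add_mul_left_left _
  have hu : IsUnit (Polynomial.C t : Polynomial F) := Polynomial.isUnit_C.mpr (isUnit_iff_ne_zero.mpr ht)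
  have c2 : IsCoprime (twN e t n d) ε := by
    have : twN e t n d = Polynomial.C t * d ^ 2 + ε * n := by
      unfold twN; rw [← hε]; ring
    rw [this]
    apply IsCoprime.add_mul_left_left
    rw [isCoprime_mul_unit_left_left hu]
    exact hed.symm.pow_left
  unfold twD
  rw [← hε]
  exact c1.mul_right c2

theorem twN_deg {R : Type*} [CommRing R] [IsDomain R] (e t : R) {n d : Polynomial R}
    (hdeg : d.natDegree < n.natDegree) : (twN e t n d).natDegree = 2 * n.natDegree := by
  have hn0 : n ≠ 0 := by rintro rfl; simp at hdeg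
  have hed : (Polynomial.C e * d).natDegree < n.natDegree :=
    lt_of_le_of_lt (Polynomial.natDegree_C_mul_le _ _) hdeg
  have hne : (n - Polynomial.C e * d).natDegree = n.natDegree :=
    Polynomial.natDegree_sub_eq_left_of_natDegree_lt hed
  have hne0 : n - Polynomial.C e * d ≠ 0 := by
    intro h0; rw [h0] at hne; simp at hne; omega
  unfold twN
  rw [Polynomial.natDegree_add_eq_left_of_natDegree_lt]
  · rw [Polynomial.natDegree_mul hn0 hne0, hne]; ring
  · rw [Polynomial.natDegree_mul hn0 hne0, hne]
    refine lt_of_le_of_lt (Polynomial.natDegree_C_mul_le _ _) ?_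
    rw [Polynomial.natDegree_pow]
    omega

/-- composition with a 2-isogeny -/
theorem Dat_two {f : Polynomial O} {a b m e : O} {l : ℕ} (h : Dat S f a b m l)
    (he : e ^ 3 + a * e + b = 0) (ht : S.red (3 * e ^ 2 + a) ≠ 0) :
    Dat S f (a - 5 * (3 * e ^ 2 + a)) (b - 7 * (3 * e ^ 2 + a) * e) m (2 * l) := by
  obtain ⟨n, d, ode, hd, hdeg, hnl, copK, copk, hl⟩ := h
  set t := 3 * e ^ 2 + a with htd
  have ht0 : t ≠ 0 := by intro h0; rw [h0, map_zero] at ht; exact ht rfl
  have htK : algebraMap O K t ≠ 0 := fun h0 => ht0 (S.inj (by rw [h0, map_zero]))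
  have hn0 : n ≠ 0 := by rintro rfl; simp at hdeg
  have hed : (Polynomial.C e * d).natDegree < n.natDegree :=
    lt_of_le_of_lt (Polynomial.natDegree_C_mul_le _ _) hdeg
  have hne : (n - Polynomial.C e * d).natDegree = n.natDegree :=
    Polynomial.natDegree_sub_eq_left_of_natDegree_lt hed
  have hne0 : n - Polynomial.C e * d ≠ 0 := by
    intro h0; rw [h0] at hne; simp at hne; omega
  refine ⟨twN e t n d, twD e n d, ?_, mul_ne_zero hd hne0, ?_, ?_, ?_, ?_, ?_⟩
  · have e1 : wr (twN e t n d) (twD e n d) = ((n - Polynomial.C e * d) ^ 2 - Polynomial.C t * d ^ 2) * wr n d := by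
      simp only [wr, twN, twD, Polynomial.derivative_add, Polynomial.derivative_mul, Polynomial.derivative_sub,
        Polynomial.derivative_pow, Polynomial.derivative_C]
      push_cast
      simp only [map_ofNat]
      ring
    have hCt : (Polynomial.C t : Polynomial O) = 3 * Polynomial.C e ^ 2 + Polynomial.C a := by
      rw [htd]; simp only [Polynomial.C_add, Polynomial.C_mul, Polynomial.C_pow, map_ofNat]
    have hCe : (Polynomial.C e : Polynomial O) ^ 3 + Polynomial.C a * Polynomial.C e + Polynomial.C b = 0 := by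
      rw [← Polynomial.C_pow, ← Polynomial.C_mul, ← Polynomial.C_add, ← Polynomial.C_add, he, Polynomial.C_0]
    have hCb : (Polynomial.C b : Polynomial O) = -(Polynomial.C e ^ 3 + Polynomial.C a * Polynomial.C e) := by
      linear_combination hCe
    have e2 : tgt (a - 5 * t) (b - 7 * t * e) (twN e t n d) (twD e n d) =
        ((n - Polynomial.C e * d) ^ 2 - Polynomial.C t * d ^ 2) ^ 2 * tgt a b n d := by
      simp only [tgt, twN, twD, Polynomial.C_sub, Polynomial.C_mul, map_ofNat, hCt, hCb]
      ring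
    rw [e1, e2]
    linear_combination ((n - Polynomial.C e * d) ^ 2 - Polynomial.C t * d ^ 2) ^ 2 * ode
  · rw [twN_deg e t hdeg]
    unfold twD
    rw [Polynomial.natDegree_mul hd hne0, hne]
    omega
  · rw [twN_deg e t hdeg, hnl]
  · have : (twN e t n d).map (algebraMap O K) = twN (algebraMap O K e) (algebraMap O K t)
        (n.map (algebraMap O K)) (d.map (algebraMap O K)) := by simp [twN]
    rw [this]
    have : (twD e n d).map (algebraMap O K) = twD (algebraMap O K e) (n.map (algebraMap O K))
        (d.map (algebraMap O K)) := by simp [twD]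
    rw [this]
    exact tw_cop htK copK
  · have : (twN e t n d).map S.red = twN (S.red e) (S.red t) (n.map S.red) (d.map S.red) := by simp [twN]
    rw [this]
    have : (twD e n d).map S.red = twD (S.red e) (n.map S.red) (d.map S.red) := by simp [twD]
    rw [this]
    exact tw_cop ht copk
  · have : (twN e t n d).map S.red = twN (S.red e) (S.red t) (n.map S.red) (d.map S.red) := by simp [twN]
    rw [this, twN_deg e t hdeg, twN_deg _ _ (by rw [hl]; exact lt_of_le_of_lt Polynomial.natDegree_map_le hdeg), hl]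

end dat

section tr

variable {p : ℕ} [hp : Fact p.Prime]

/-- from the Witt vectors to the integers modulo `p²` -/
theorem aa_transfer {X : WO p} {M : ℤ} (hMX : (M : WO p) * X = 1) {wi : Pool.Agent.Q267.CDE.R p}
    (hwi : (M : Pool.Agent.Q267.CDE.R p) * wi = 1) {E : ℤ}
    (h : AA p (mk2 (WO p) p X) = ((E : ℤ) : QO (WO p) p)) : AA p wi = ((E : ℤ) : Pool.Agent.Q267.CDE.R p) := by
  have := charQ (SW p) (p := p) (SW_q p)
  set th : Pool.Agent.Q267.CDE.R p →+* QO (WO p) p := ZMod.castHom (dvd_refl _) (QO (WO p) p) with hth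
  have thinj : Function.Injective th := ZMod.castHom_injective _
  have e : th wi = mk2 (WO p) p X := by
    have h1 := congrArg (mk2 (WO p) p) hMX
    rw [map_mul, map_intCast, map_one] at h1
    have h2 := congrArg th hwi
    rw [map_mul, map_intCast, map_one] at h2
    linear_combination (-(th wi)) * h1 + (mk2 (WO p) p X) * h2
  apply thinj
  rw [AA_map, e, h, map_intCast]

end tr

end Pool.Agent.H578.CM
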