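import Pool.Agent.H578.CM.T8

set_option autoImplicit false
set_option linter.unusedSectionVars false
set_option maxHeartbeats 4000000

/-!
# Isogenies verified by computation
-/

namespace Pool.Agent.H578.CM

open Polynomial T8 Pool.Agent.H546

section comp

/-- value and derivative of a list of coefficients at an integer -/
def hor2 (x : ℤ) : List T8 → T8 × T8
  | [] => (int 0, int 0)
  | a :: l => fT (hor2 x l).1 fun v => fT (hor2 x l).2 fun d => (T8.add a (T8.smul x v), T8.add v (T8.smul x d))

/-- `x³ + α x + β` -/
def cubv (al be : T8) (x : ℤ) : T8 := T8.add (int (x * x * x)) (T8.add (T8.smul x al) be)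

def sub' (x y : T8) : T8 := T8.add x (T8.smul (-1) y)

variable (A B C : ℤ)

def chkO (al be al' be' : T8) (N H : List T8) (x : ℤ) : Bool :=
  fT (hor2 x N).1 fun n => fT (hor2 x N).2 fun n' => fT (hor2 x H).1 fun h => fT (hor2 x H).2 fun h' =>
  fT (T8.add (T8.mul A B C n' h) (T8.smul (-2) (T8.mul A B C n h'))) fun w =>
  fT (T8.mul A B C w w) fun w2 => fT (T8.mul A B C h h) fun h2 => fT (T8.mul A B C h2 h2) fun h4 =>
  fT (cubv al be x) fun f => fT (T8.mul A B C n n) fun n2 => fT (T8.mul A B C al' h4) fun r1 =>
  fT (T8.mul A B C h4 h2) fun h6 => fT (T8.mul A B C f w2) fun L =>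
  isz (sub' L (T8.add (T8.mul A B C n (T8.add n2 r1)) (T8.mul A B C be' h6)))

def chkF (al be : T8) (U V H : List T8) (r : ℤ) (x : ℤ) : Bool :=
  fT (hor2 x U).1 fun u => fT (hor2 x V).1 fun v => fT (hor2 x H).1 fun h => fT (cubv al be x) fun f =>
  isz (sub' (T8.add (T8.mul A B C u f) (T8.mul A B C v h)) (int r))

def chkD (U V H : List T8) (r : ℤ) (x : ℤ) : Bool :=
  fT (hor2 x U).1 fun u => fT (hor2 x V).1 fun v => fT (hor2 x H).1 fun h => fT (hor2 x H).2 fun h' =>
  isz (sub' (T8.add (T8.mul A B C u h) (T8.mul A B C v h')) (int r))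

def chkN (al be : T8) (Q N H : List T8) (x : ℤ) : Bool :=
  fT (hor2 x Q).1 fun q => fT (hor2 x N).1 fun n => fT (hor2 x H).1 fun h => fT (hor2 x H).2 fun h' =>
  fT (cubv al be x) fun f => fT (T8.mul A B C h' h') fun h2 =>
  isz (sub' n (T8.add (T8.mul A B C q h) (T8.smul 4 (T8.mul A B C f h2))))

def chkAll (f : ℤ → Bool) (c : ℤ) : ℕ → Bool
  | 0 => true
  | n + 1 => f ((n : ℤ) - c) && chkAll f c n

theorem chkAll_eq {f : ℤ → Bool} {c : ℤ} {n : ℕ} (h : chkAll f c n = true) (j : ℕ) (hj : j < n) :
    f ((j : ℤ) - c) = true := by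
  induction n with
  | zero => omega
  | succ n ih =>
    simp only [chkAll, Bool.and_eq_true] at h
    rcases Nat.lt_succ_iff_lt_or_eq.mp hj with h' | h'
    · exact ih h.2 h'
    · rw [h']; exact h.1

end comp

section pl

variable {S : Type*} [CommRing S] (g k i : S)

/-- the polynomial -/
noncomputable def pl : List T8 → S[X]
  | [] => 0
  | a :: l => C (ev g k i a) + X * pl l

theorem pl_deg (l : List T8) : (pl g k i l).natDegree ≤ l.length - 1 := by
  induction l with
  | nil => simp [pl]
  | cons a l ih =>
    rcases l with _ | ⟨b, l⟩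
    · simp [pl]
    · have : (pl g k i (a :: b :: l)) = C (ev g k i a) + X * pl g k i (b :: l) := rfl
      rw [this]
      refine (natDegree_add_le _ _).trans (max_le (by rw [natDegree_C]; omega) ?_)
      refine natDegree_mul_le.trans ?_
      have h1 := natDegree_X_le (R := S)
      simp only [List.length_cons] at ih ⊢
      omega

theorem hor2_ev (x : ℤ) (l : List T8) : ev g k i (hor2 x l).1 = (pl g k i l).eval (x : S) ∧
    ev g k i (hor2 x l).2 = (derivative (pl g k i l)).eval (x : S) := by
  induction l with
  | nil => simp [hor2, pl, ev, T8.int]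
  | cons a l ih =>
    obtain ⟨h1, h2⟩ := ih
    simp only [hor2, fT_eq, pl, ev_add, ev_smul, h1, h2, derivative_add, derivative_C, derivative_mul,
      derivative_X, eval_add, eval_mul, eval_C, eval_X, eval_zero, eval_one]
    refine ⟨trivial, by ring⟩

theorem sub_ev {x y : T8} (h : isz (sub' x y) = true) : ev g k i x = ev g k i y := by
  have := ev_isz g k i h
  unfold sub' at this
  rw [ev_add, ev_smul] at this
  push_cast at this
  linear_combination this

theorem cubv_ev (al be : T8) (x : ℤ) :
    ev g k i (cubv al be x) = (cub (ev g k i al) (ev g k i be)).eval (x : S) := by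
  simp only [cubv, ev_add, ev_smul, ev_int, cub, eval_add, eval_mul, eval_pow, eval_X, eval_C]
  push_cast; ring

variable {g k i}

theorem zero_of_pts [IsDomain S] [CharZero S] {P : S[X]} {n : ℕ} {c : ℤ} (hd : P.natDegree < n)
    (h : ∀ j < n, P.eval ((((j : ℕ) : ℤ) - c : ℤ) : S) = 0) : P = 0 := by
  classical
  refine eq_zero_of_natDegree_lt_card_of_eval_eq_zero' P ((Finset.range n).image
    fun j : ℕ => ((((j : ℕ) : ℤ) - c : ℤ) : S)) ?_ ?_
  · intro x hx
    obtain ⟨j, hj, rfl⟩ := Finset.mem_image.mp hx
    exact h j (Finset.mem_range.mp hj)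
  · rw [Finset.card_image_of_injective, Finset.card_range]
    · exact hd
    · intro a b hab
      have := Int.cast_injective hab
      omega

variable [IsDomain S] [CharZero S] {A B C : ℤ}

theorem ode_of {al be al' be' : T8} {N H : List T8} {n : ℕ} {c : ℤ}
    (hg : g ^ 2 = A) (hk : k ^ 2 = B) (hi : i ^ 2 = C)
    (hchk : chkAll (chkO A B C al be al' be' N H) c n = true)
    (hn : 2 * ((N.length - 1) + (H.length - 1)) + 3 < n) (hn1 : 3 * (N.length - 1) < n)
    (hn2 : (N.length - 1) + 4 * (H.length - 1) < n) (hn3 : 6 * (H.length - 1) < n) :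
    cub (ev g k i al) (ev g k i be) * (derivative (pl g k i N) * pl g k i H -
      2 * pl g k i N * derivative (pl g k i H)) ^ 2 =
    pl g k i N ^ 3 + Polynomial.C (ev g k i al') * pl g k i N * pl g k i H ^ 4 +
      Polynomial.C (ev g k i be') * pl g k i H ^ 6 := by
  rw [← sub_eq_zero]
  refine zero_of_pts (n := n) (c := c) ?_ ?_
  · have dN := pl_deg g k i N
    have dH := pl_deg g k i H
    have dN' : (derivative (pl g k i N)).natDegree ≤ N.length - 1 :=
      (natDegree_derivative_le _).trans (by omega)
    have dH' : (derivative (pl g k i H)).natDegree ≤ H.length - 1 :=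
      (natDegree_derivative_le _).trans (by omega)
    have dc : (cub (ev g k i al) (ev g k i be)).natDegree ≤ 3 := by unfold cub; compute_degree
    refine lt_of_le_of_lt (natDegree_sub_le _ _) (max_lt ?_ ?_)
    · refine lt_of_le_of_lt natDegree_mul_le ?_
      have h1 : (derivative (pl g k i N) * pl g k i H -
          2 * pl g k i N * derivative (pl g k i H)).natDegree ≤ (N.length - 1) + (H.length - 1) := by
        refine (natDegree_sub_le _ _).trans (max_le ?_ ?_)
        · exact natDegree_mul_le.trans (by omega)
        · have : (2 : S[X]) * pl g k i N * derivative (pl g k i H) =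
              Polynomial.C 2 * (pl g k i N * derivative (pl g k i H)) := by rw [map_ofNat]; ring
          rw [this]
          exact (natDegree_C_mul_le _ _).trans (natDegree_mul_le.trans (by omega))
      have h2 := natDegree_pow_le (p := derivative (pl g k i N) * pl g k i H -
          2 * pl g k i N * derivative (pl g k i H)) (n := 2)
      omega
    · refine lt_of_le_of_lt (natDegree_add_le _ _) (max_lt ?_ ?_)
      · refine lt_of_le_of_lt (natDegree_add_le _ _) (max_lt ?_ ?_)
        · have := natDegree_pow_le (p := pl g k i N) (n := 3)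
          omega
        · rw [mul_assoc]
          refine lt_of_le_of_lt (natDegree_C_mul_le _ _) ?_
          refine lt_of_le_of_lt natDegree_mul_le ?_
          have := natDegree_pow_le (p := pl g k i H) (n := 4)
          omega
      · refine lt_of_le_of_lt (natDegree_C_mul_le _ _) ?_
        have := natDegree_pow_le (p := pl g k i H) (n := 6)
        omega
  · intro j hj
    have h := chkAll_eq hchk j hj
    generalize ((j : ℕ) : ℤ) - c = x at h ⊢
    unfold chkO at h
    simp only [fT_eq] at h
    have h1 := sub_ev g k i h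
    obtain ⟨n1, n2⟩ := hor2_ev g k i x N
    obtain ⟨h1', h2'⟩ := hor2_ev g k i x H
    simp only [ev_mul hg hk hi, ev_add, ev_smul, n1, n2, h1', h2', cubv_ev] at h1
    simp only [eval_sub, eval_mul, eval_pow, eval_add, eval_C, eval_ofNat]
    push_cast at h1
    linear_combination h1

theorem F_of {al be : T8} {U V H : List T8} {r : ℤ} {n : ℕ} {c : ℤ}
    (hg : g ^ 2 = A) (hk : k ^ 2 = B) (hi : i ^ 2 = C)
    (hchk : chkAll (chkF A B C al be U V H r) c n = true)
    (hn : (U.length - 1) + 3 < n) (hn1 : (V.length - 1) + (H.length - 1) < n) :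
    pl g k i U * cub (ev g k i al) (ev g k i be) + pl g k i V * pl g k i H = Polynomial.C (r : S) := by
  rw [← sub_eq_zero]
  refine zero_of_pts (n := n) (c := c) ?_ ?_
  · have dU := pl_deg g k i U
    have dV := pl_deg g k i V
    have dH := pl_deg g k i H
    have dc : (cub (ev g k i al) (ev g k i be)).natDegree ≤ 3 := by unfold cub; compute_degree
    refine lt_of_le_of_lt (natDegree_sub_le _ _) (max_lt ?_ ?_)
    · refine lt_of_le_of_lt (natDegree_add_le _ _) (max_lt ?_ ?_)
      · exact lt_of_le_of_lt natDegree_mul_le (by omega)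
      · exact lt_of_le_of_lt natDegree_mul_le (by omega)
    · rw [natDegree_C]; omega
  · intro j hj
    have h := chkAll_eq hchk j hj
    generalize ((j : ℕ) : ℤ) - c = x at h ⊢
    unfold chkF at h
    simp only [fT_eq] at h
    have h1 := sub_ev g k i h
    simp only [ev_mul hg hk hi, ev_add, ev_int, (hor2_ev g k i x U).1, (hor2_ev g k i x V).1,
      (hor2_ev g k i x H).1, cubv_ev] at h1
    simp only [eval_sub, eval_mul, eval_add, eval_C]
    linear_combination h1

theorem D_of {U V H : List T8} {r : ℤ} {n : ℕ} {c : ℤ}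
    (hg : g ^ 2 = A) (hk : k ^ 2 = B) (hi : i ^ 2 = C)
    (hchk : chkAll (chkD A B C U V H r) c n = true)
    (hn : (U.length - 1) + (H.length - 1) < n) (hn1 : (V.length - 1) + (H.length - 1) < n) :
    pl g k i U * pl g k i H + pl g k i V * derivative (pl g k i H) = Polynomial.C (r : S) := by
  rw [← sub_eq_zero]
  refine zero_of_pts (n := n) (c := c) ?_ ?_
  · have dU := pl_deg g k i U
    have dV := pl_deg g k i V
    have dH := pl_deg g k i H
    have dH' : (derivative (pl g k i H)).natDegree ≤ H.length - 1 :=
      (natDegree_derivative_le _).trans (by omega)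
    refine lt_of_le_of_lt (natDegree_sub_le _ _) (max_lt ?_ ?_)
    · refine lt_of_le_of_lt (natDegree_add_le _ _) (max_lt ?_ ?_)
      · exact lt_of_le_of_lt natDegree_mul_le (by omega)
      · exact lt_of_le_of_lt natDegree_mul_le (by omega)
    · rw [natDegree_C]; omega
  · intro j hj
    have h := chkAll_eq hchk j hj
    generalize ((j : ℕ) : ℤ) - c = x at h ⊢
    unfold chkD at h
    simp only [fT_eq] at h
    have h1 := sub_ev g k i h
    simp only [ev_mul hg hk hi, ev_add, ev_int, (hor2_ev g k i x U).1, (hor2_ev g k i x V).1,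
      (hor2_ev g k i x H).1, (hor2_ev g k i x H).2] at h1
    simp only [eval_sub, eval_mul, eval_add, eval_C]
    linear_combination h1

theorem N_of {al be : T8} {Q N H : List T8} {n : ℕ} {c : ℤ}
    (hg : g ^ 2 = A) (hk : k ^ 2 = B) (hi : i ^ 2 = C)
    (hchk : chkAll (chkN A B C al be Q N H) c n = true)
    (hn : (Q.length - 1) + (H.length - 1) < n) (hn1 : 2 * (H.length - 1) + 3 < n) (hn2 : N.length - 1 < n) :
    pl g k i N = pl g k i Q * pl g k i H +
      4 * (cub (ev g k i al) (ev g k i be) * derivative (pl g k i H) ^ 2) := by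
  rw [← sub_eq_zero]
  refine zero_of_pts (n := n) (c := c) ?_ ?_
  · have dQ := pl_deg g k i Q
    have dN := pl_deg g k i N
    have dH := pl_deg g k i H
    have dc : (cub (ev g k i al) (ev g k i be)).natDegree ≤ 3 := by unfold cub; compute_degree
    have dH' : (derivative (pl g k i H)).natDegree ≤ H.length - 1 :=
      (natDegree_derivative_le _).trans (by omega)
    refine lt_of_le_of_lt (natDegree_sub_le _ _) (max_lt (by omega) ?_)
    refine lt_of_le_of_lt (natDegree_add_le _ _) (max_lt ?_ ?_)
    · exact lt_of_le_of_lt natDegree_mul_le (by omega)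
    · have : (4 : S[X]) * (cub (ev g k i al) (ev g k i be) * derivative (pl g k i H) ^ 2) =
          Polynomial.C 4 * (cub (ev g k i al) (ev g k i be) * derivative (pl g k i H) ^ 2) := by rw [map_ofNat]
      rw [this]
      refine lt_of_le_of_lt (natDegree_C_mul_le _ _) ?_
      refine lt_of_le_of_lt natDegree_mul_le ?_
      have := natDegree_pow_le (p := derivative (pl g k i H)) (n := 2)
      omega
  · intro j hj
    have h := chkAll_eq hchk j hj
    generalize ((j : ℕ) : ℤ) - c = x at h ⊢
    unfold chkN at h
    simp only [fT_eq] at h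
    have h1 := sub_ev g k i h
    simp only [ev_mul hg hk hi, ev_add, ev_smul, (hor2_ev g k i x Q).1, (hor2_ev g k i x N).1,
      (hor2_ev g k i x H).1, (hor2_ev g k i x H).2, cubv_ev] at h1
    simp only [eval_sub, eval_mul, eval_pow, eval_add, eval_ofNat]
    push_cast at h1
    linear_combination h1

end pl

end Pool.Agent.H578.CM
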