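import Pool.Agent.H578.CM.Lp

set_option autoImplicit false
set_option linter.unusedSectionVars false
set_option maxHeartbeats 4000000

/-!
# Isogenies verified by computation, II
-/

namespace Pool.Agent.H578.CM

open Polynomial Pool.Agent.H546

section field

variable {F : Type*} [Field F]

theorem isUnit_C_of {r : F} (h : r ≠ 0) : IsUnit (C r : F[X]) := isUnit_C.mpr (isUnit_iff_ne_zero.mpr h)

/-- coprimality of numerator and kernel polynomial -/
theorem cop_of {f N H Q U1 V1 U2 V2 : F[X]} {r1 r2 : F} (h2 : (2 : F) ≠ 0) (hr1 : r1 ≠ 0) (hr2 : r2 ≠ 0)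
    (hN : N = Q * H + 4 * (f * derivative H ^ 2)) (hF : U1 * f + V1 * H = C r1)
    (hD : U2 * H + V2 * derivative H = C r2) : IsCoprime N H := by
  have c1 : IsCoprime f H := by
    obtain ⟨u, hu⟩ := (isUnit_C_of hr1).exists_left_inv
    exact ⟨u * U1, u * V1, by linear_combination u * hF + hu⟩
  have c2 : IsCoprime (derivative H) H := by
    obtain ⟨u, hu⟩ := (isUnit_C_of hr2).exists_left_inv
    exact ⟨u * V2, u * U2, by linear_combination u * hD + hu⟩
  have c3 : IsCoprime (4 * (f * derivative H ^ 2)) H := by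
    have h4 : (4 : F[X]) = C 4 := by rw [map_ofNat]
    rw [h4, isCoprime_mul_unit_left_left (isUnit_C_of (by
      have : (4 : F) = 2 * 2 := by norm_num
      rw [this]; exact mul_ne_zero h2 h2))]
    exact c1.mul_left c2.pow_left
  rw [hN]
  have := c3.add_mul_right_left Q
  rwa [add_comm] at this

end field

variable {O K k : Type*} [CommRing O] [IsDomain O] [Field K] [Algebra O K] [Field k]
  (S : DV O K k)

/-- an isogeny from a kernel polynomial of odd degree -/
theorem Dat_of_sq {a1 b1 a b m c : O} {n h : O[X]} {l : ℕ}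
    (ode : cub a1 b1 * C c * (derivative n * h - 2 * n * derivative h) ^ 2 =
      n ^ 3 + C (a * m ^ 4) * C c ^ 2 * n * h ^ 4 + C (b * m ^ 6) * C c ^ 3 * h ^ 6)
    (hc : S.red c ≠ 0) (hm : S.red m ≠ 0) (hh : h ≠ 0) (hhd : 2 * h.natDegree < n.natDegree)
    (hn : n.natDegree = l) (hnl : S.red n.leadingCoeff ≠ 0)
    (copK : IsCoprime (n.map (algebraMap O K)) (h.map (algebraMap O K)))
    (copk : IsCoprime (n.map S.red) (h.map S.red)) :
    Dat S (cub a1 b1) a b m l := by
  have unitC : ∀ {x : O}, S.red x ≠ 0 → ((C (algebraMap O K x) : K[X]) * C (algebraMap O K x)⁻¹ = 1) := by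
    intro x hx
    rw [← C_mul, mul_inv_cancel₀, C_1]
    intro h0
    apply hx
    have : x = 0 := S.inj (by rw [h0, map_zero])
    rw [this, map_zero]
  have unitk : ∀ {x : O}, S.red x ≠ 0 → ((C (S.red x) : k[X]) * C (S.red x)⁻¹ = 1) := by
    intro x hx
    rw [← C_mul, mul_inv_cancel₀ hx, C_1]
  have hmc : S.red (c * m ^ 2) ≠ 0 := by
    rw [map_mul, map_pow]; exact mul_ne_zero hc (pow_ne_zero 2 hm)
  have hmc0 : c * m ^ 2 ≠ 0 := by intro h0; rw [h0, map_zero] at hmc; exact hmc rfl
  refine ⟨n, C (c * m ^ 2) * h ^ 2, ?_, ?_, ?_, hn, ?_, ?_, ?_⟩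
  · have e1 : wr n (C (c * m ^ 2) * h ^ 2) = C (c * m ^ 2) * h * (derivative n * h - 2 * n * derivative h) := by
      simp only [wr, derivative_mul, derivative_C, derivative_pow]
      push_cast
      simp only [map_ofNat]
      ring
    rw [e1]
    simp only [tgt]
    simp only [C_mul, C_pow] at ode ⊢
    linear_combination (C m ^ 4 * C c * h ^ 2) * ode
  · exact mul_ne_zero (C_ne_zero.mpr hmc0) (pow_ne_zero 2 hh)
  · rw [natDegree_C_mul hmc0, natDegree_pow]; exact hhd
  · rw [Polynomial.map_mul, Polynomial.map_pow, map_C]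
    have hu : IsUnit (C (algebraMap O K (c * m ^ 2)) : K[X]) := IsUnit.of_mul_eq_one _ (unitC hmc)
    rw [isCoprime_mul_unit_left_right hu]
    exact copK.pow_right
  · rw [Polynomial.map_mul, Polynomial.map_pow, map_C]
    have hu : IsUnit (C (S.red (c * m ^ 2)) : k[X]) := IsUnit.of_mul_eq_one _ (unitk hmc)
    rw [isCoprime_mul_unit_left_right hu]
    exact copk.pow_right
  · exact natDegree_map_of_leadingCoeff_ne_zero _ hnl

/-- the same, with everything needed for coprimality, and scaled -/
theorem Dat_of_cop {a1 b1 a b m D al be al' be' : O} {N H Q U1 V1 U2 V2 : O[X]} {r1 r2 : O} {l : ℕ}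
    (ode : cub al be * (derivative N * H - 2 * N * derivative H) ^ 2 =
      N ^ 3 + C al' * N * H ^ 4 + C be' * H ^ 6)
    (hal : al = D ^ 2 * a1) (hbe : be = D ^ 3 * b1) (hal' : al' = D ^ 2 * (a * m ^ 4))
    (hbe' : be' = D ^ 3 * (b * m ^ 6)) (h2 : (2 : k) ≠ 0)
    (hD : S.red D ≠ 0) (hm : S.red m ≠ 0) (hHd : 2 * H.natDegree < N.natDegree) (hN : N.natDegree = l)
    (hNl : S.red N.leadingCoeff ≠ 0)
    (hNQ : N = Q * H + 4 * (cub al be * derivative H ^ 2)) (hF : U1 * cub al be + V1 * H = C r1)
    (hDD : U2 * H + V2 * derivative H = C r2) (hr1 : S.red r1 ≠ 0) (hr2 : S.red r2 ≠ 0) :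
    Dat S (cub a1 b1) a b m l := by
  have inj0 : ∀ {x : O}, S.red x ≠ 0 → algebraMap O K x ≠ 0 := by
    intro x hx h0
    apply hx
    have : x = 0 := S.inj (by rw [h0, map_zero])
    rw [this, map_zero]
  have ne0 : ∀ {x : O}, S.red x ≠ 0 → x ≠ 0 := by
    rintro x hx rfl; exact hx (map_zero _)
  have h2O : S.red (2 : O) ≠ 0 := by rwa [map_ofNat]
  have h2K : (2 : K) ≠ 0 := by
    have := inj0 h2O; rwa [map_ofNat] at this
  have hD0 := ne0 hD
  have hLd : derivative (C D * X : O[X]) = C D := by simp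
  have dL : (C D * X : O[X]).natDegree = 1 := natDegree_C_mul_X D hD0
  have lL : (C D * X : O[X]).leadingCoeff = D := by simp
  have copK : IsCoprime (N.map (algebraMap O K)) (H.map (algebraMap O K)) := by
    have e1 := congrArg (Polynomial.map (algebraMap O K)) hNQ
    have e2 := congrArg (Polynomial.map (algebraMap O K)) hF
    have e3 := congrArg (Polynomial.map (algebraMap O K)) hDD
    simp only [Polynomial.map_add, Polynomial.map_mul, Polynomial.map_pow, Polynomial.map_C,
      Polynomial.map_ofNat, ← Polynomial.derivative_map] at e1 e2 e3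
    exact cop_of h2K (inj0 hr1) (inj0 hr2) e1 e2 e3
  have copk : IsCoprime (N.map S.red) (H.map S.red) := by
    have e1 := congrArg (Polynomial.map S.red) hNQ
    have e2 := congrArg (Polynomial.map S.red) hF
    have e3 := congrArg (Polynomial.map S.red) hDD
    simp only [Polynomial.map_add, Polynomial.map_mul, Polynomial.map_pow, Polynomial.map_C,
      Polynomial.map_ofNat, ← Polynomial.derivative_map] at e1 e2 e3
    exact cop_of h2 hr1 hr2 e1 e2 e3
  have dn : (N.comp (C D * X)).natDegree = l := by rw [natDegree_comp, dL, mul_one, hN]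
  have dh : (H.comp (C D * X)).natDegree = H.natDegree := by rw [natDegree_comp, dL, mul_one]
  have hH0 : H ≠ 0 := by
    rintro rfl
    rw [derivative_zero, mul_zero, mul_zero, add_zero] at hDD
    have : r2 = 0 := C_eq_zero.mp hDD.symm
    rw [this, map_zero] at hr2
    exact hr2 rfl
  have hh0 : H.comp (C D * X) ≠ 0 := by
    intro h0
    rcases (comp_eq_zero_iff.mp h0) with h | ⟨-, h⟩
    · exact hH0 h
    · have := congrArg natDegree h
      rw [dL, natDegree_C] at this
      exact one_ne_zero this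
  refine Dat_of_sq S (c := D) (n := N.comp (C D * X)) (h := H.comp (C D * X)) ?_ hD hm hh0
    (by rw [dh, dn, ← hN]; exact hHd) dn ?_ ?_ ?_
  · have e := congrArg (fun P => P.comp (C D * X)) ode
    have e0 : (cub al be).comp (C D * X) = C D ^ 3 * cub a1 b1 := by
      rw [hal, hbe]
      simp only [cub, add_comp, mul_comp, pow_comp, X_comp, C_comp, C_mul, C_pow]
      ring
    simp only [mul_comp, add_comp, sub_comp, pow_comp, C_comp, ofNat_comp, e0] at e
    rw [derivative_comp, derivative_comp, hLd]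
    rw [hal', hbe'] at e
    simp only [C_mul, C_pow] at e ⊢
    linear_combination e
  · rw [leadingCoeff_comp (by rw [dL]; exact one_ne_zero), lL, map_mul, map_pow]
    exact mul_ne_zero hNl (pow_ne_zero _ hD)
  · have := copK.map (compRingHom ((C D * X : O[X]).map (algebraMap O K)))
    simpa only [coe_compRingHom, ← Polynomial.map_comp] using this
  · have := copk.map (compRingHom ((C D * X : O[X]).map S.red))
    simpa only [coe_compRingHom, ← Polynomial.map_comp] using this

end Pool.Agent.H578.CM
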