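import Pool.Agent.H578.CM.Lp2

set_option autoImplicit false
set_option linter.unusedSectionVars false
set_option maxHeartbeats 4000000

/-!
# Isogenies verified by computation, III
-/

namespace Pool.Agent.H578.CM

open Polynomial T8 Pool.Agent.H546

/-- computational data of an isogeny of odd degree `l` -/
structure LD where
  A : ℤ
  B : ℤ
  C : ℤ
  al : T8
  be : T8
  al' : T8
  be' : T8
  N : List T8
  H : List T8
  Q : List T8
  U1 : List T8
  V1 : List T8
  U2 : List T8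
  V2 : List T8
  r1 : ℤ
  r2 : ℤ
  c2 : ℤ
  l : ℕ

namespace LD

def okO (d : LD) : Bool := chkAll (chkO d.A d.B d.C d.al d.be d.al' d.be' d.N d.H) (3 * d.l / 2) (3 * d.l + 3)
def okN (d : LD) : Bool := chkAll (chkN d.A d.B d.C d.al d.be d.Q d.N d.H) (d.l / 2) (d.l + 3)
def okF (d : LD) : Bool := chkAll (chkF d.A d.B d.C d.al d.be d.U1 d.V1 d.H d.r1) (d.l / 2) (d.l + 3)
def okD (d : LD) : Bool := chkAll (chkD d.A d.B d.C d.U2 d.V2 d.H d.r2) (d.l / 2) (d.l + 3)
def okL (d : LD) : Bool := isz (sub' (d.N.getD d.l (T8.int 0)) (T8.int d.c2)) &&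
  (Nat.beq d.N.length (d.l + 1) && (Nat.beq (2 * d.H.length) (d.l + 1) && (Nat.ble (2 * d.U1.length) (d.l + 1) &&
  (Nat.ble d.V1.length 3 && (Nat.ble (2 * d.U2.length) (d.l + 1) && (Nat.ble (2 * d.V2.length) (d.l + 1) &&
  Nat.ble (2 * d.Q.length) (d.l + 5)))))))

end LD

section pl

variable {S : Type*} [CommRing S] (g k i : S)

theorem pl_coeff (l : List T8) (n : ℕ) : (pl g k i l).coeff n = ev g k i (l.getD n (T8.int 0)) := by
  induction l generalizing n with
  | nil => simp [pl, ev, T8.int]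
  | cons a l ih =>
    cases n with
    | zero => simp [pl]
    | succ n =>
      have : (pl g k i (a :: l)) = Polynomial.C (ev g k i a) + X * pl g k i l := rfl
      rw [this, coeff_add, coeff_C_succ, zero_add, coeff_X_mul, ih]
      simp

end pl

variable {O K k : Type*} [CommRing O] [IsDomain O] [Field K] [Algebra O K] [Field k]
  (S : DV O K k)

theorem LD.dat [CharZero O] (d : LD) (hO : d.okO = true) (hN : d.okN = true) (hF : d.okF = true)
    (hD : d.okD = true) (hL : d.okL = true) {g q i : O} (hg : g ^ 2 = d.A) (hq : q ^ 2 = d.B) (hi : i ^ 2 = d.C)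
    {a1 b1 a b m D : O} (hal : ev g q i d.al = D ^ 2 * a1) (hbe : ev g q i d.be = D ^ 3 * b1)
    (hal' : ev g q i d.al' = D ^ 2 * (a * m ^ 4)) (hbe' : ev g q i d.be' = D ^ 3 * (b * m ^ 6))
    (h2 : (2 : k) ≠ 0) (hDr : S.red D ≠ 0) (hm : S.red m ≠ 0) (hc : S.red ((d.c2 : ℤ) : O) ≠ 0)
    (hr1 : S.red ((d.r1 : ℤ) : O) ≠ 0) (hr2 : S.red ((d.r2 : ℤ) : O) ≠ 0) : Dat S (cub a1 b1) a b m d.l := by
  simp only [LD.okL, Bool.and_eq_true] at hL
  obtain ⟨h1, h2', h3, h4, h5, h6, h7, h8⟩ := hL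
  replace h2' := Nat.eq_of_beq_eq_true h2'
  replace h3 := Nat.eq_of_beq_eq_true h3
  replace h4 := Nat.le_of_ble_eq_true h4
  replace h5 := Nat.le_of_ble_eq_true h5
  replace h6 := Nat.le_of_ble_eq_true h6
  replace h7 := Nat.le_of_ble_eq_true h7
  replace h8 := Nat.le_of_ble_eq_true h8
  have lead : (pl g q i d.N).coeff d.l = ((d.c2 : ℤ) : O) := by
    rw [pl_coeff, sub_ev g q i h1, ev_int]
  have hc0 : ((d.c2 : ℤ) : O) ≠ 0 := by
    intro h0; rw [h0, map_zero] at hc; exact hc rfl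
  have dN : (pl g q i d.N).natDegree = d.l := by
    refine le_antisymm ((pl_deg g q i d.N).trans (by omega)) (le_natDegree_of_ne_zero (by rw [lead]; exact hc0))
  have dH := pl_deg g q i d.H
  refine Dat_of_cop S (ode_of hg hq hi hO ?_ ?_ ?_ ?_) hal hbe hal' hbe' h2 hDr hm ?_ dN ?_
    (N_of hg hq hi hN ?_ ?_ ?_) (F_of hg hq hi hF ?_ ?_) (D_of hg hq hi hD ?_ ?_) hr1 hr2
  · omega
  · omega
  · omega
  · omega
  · rw [dN]; omega
  · rw [leadingCoeff, dN, lead]; exact hc
  · omega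
  · omega
  · omega
  · omega
  · omega
  · omega
  · omega

/-- characteristic zero -/
theorem charZ {p : ℕ} [hp : Fact p.Prime] : CharZero (WO p) := by
  refine charZero_of_inj_zero fun n hn => ?_
  by_contra h0
  have hp0 : (p : WO p) ≠ 0 := by rw [← SW_q]; exact (SW p).q_ne
  have key : ∀ a m : ℕ, m ≠ 0 → ¬ p ∣ m → ((p ^ a * m : ℕ) : WO p) ≠ 0 := by
    intro a m _ hm
    push_cast
    refine mul_ne_zero (pow_ne_zero _ hp0) ?_
    intro h1
    have := congrArg (SW p).red h1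
    rw [map_natCast, map_zero, CharP.cast_eq_zero_iff (kb p) p] at this
    exact hm this
  obtain ⟨a, m, hm, rfl⟩ := Nat.exists_eq_pow_mul_and_not_dvd h0 p hp.out.ne_one
  refine key a m ?_ hm hn
  rintro rfl
  exact hm (dvd_zero _)

end Pool.Agent.H578.CM
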