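import Pool.Agent.H578.CM.M16e
import Pool.Agent.H578.CM.Lp3

set_option autoImplicit false
set_option linter.unusedSectionVars false
set_option maxHeartbeats 4000000

/-!
# The sum `Z_p(-16)`
-/

namespace Pool.Agent.H578.CM.M16

open Finset Pool.Agent.H546 Pool.Agent.H547 Pool.Agent.H578.CM
open Pool.Agent.Q267.CDE (R)

section side

variable {p : ℕ} [hp : Fact p.Prime]

theorem nd (n : ℕ) (l : List ℕ) (hn : l.prod = n) (hl : ∀ q ∈ l, q.Prime ∧ p ≠ q) : ¬ (p : ℤ) ∣ (n : ℤ) :=
  ndvd_of_primes p (l := l) (fun q hq => (hl q hq).1) hn (fun q hq => (hl q hq).2)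

theorem nd1 : ¬ (p : ℤ) ∣ 1 := fun h =>
  (Nat.prime_iff_prime_int.mp hp.out).not_isUnit (isUnit_of_dvd_one h)

theorem nd2 (h3 : 3 < p) : ¬ (p : ℤ) ∣ 2 := by
  have := nd (p := p) 2 [2] (by norm_num) (by simp; norm_num; omega)
  exact_mod_cast this

theorem nd3 (h3 : 3 < p) : ¬ (p : ℤ) ∣ 3 := by
  have := nd (p := p) 3 [3] (by norm_num) (by simp; norm_num; omega)
  exact_mod_cast this

variable {v r i : WO p}

theorem ne_of_red {x : WO p} (h : (SW p).red x ≠ 0) : x ≠ 0 := by
  rintro rfl; exact h (map_zero _)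

theorem red2 (h3 : 3 < p) : (2 : kb p) ≠ 0 := by
  have := small_ne (k := kb p) (p := p) (n := 2) (by norm_num) (by omega)
  exact_mod_cast this

theorem red3 (h3 : 3 < p) : (3 : kb p) ≠ 0 := by
  have := small_ne (k := kb p) (p := p) (n := 3) (by norm_num) (by omega)
  exact_mod_cast this

theorem redT (h3 : 3 < p) (hr : r ^ 2 = 3) : (SW p).red (3 * E r ^ 2 + ca (A r)) ≠ 0 := by
  refine red_ne_mul (n := -27) (by push_cast; exact TT hr) ?_
  rw [dvd_neg]
  have := nd (p := p) 27 [3, 3, 3] (by norm_num) (by simp; norm_num; omega)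
  exact_mod_cast this

theorem redmu (h3 : 3 < p) (hr : r ^ 2 = 3) : (SW p).red (1 + r) ≠ 0 := by
  refine red_ne_mul (n := -2) (by push_cast; exact mm hr) ?_
  rw [dvd_neg]
  exact nd2 h3

theorem redAr (h3 : 3 < p) (hr : r ^ 2 = 3) : (SW p).red (A r) ≠ 0 := by
  refine red_ne_mul (n := -2) (by push_cast; exact AAn hr) ?_
  rw [dvd_neg]
  exact nd2 h3

theorem redA0 (h3 : 3 < p) (hr : r ^ 2 = 3) : (SW p).red (4 - A r) ≠ 0 := by
  refine red_ne_mul (n := 54) (by push_cast; exact AA0 hr) ?_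
  have := nd (p := p) 54 [2, 3, 3, 3] (by norm_num) (by simp; norm_num; omega)
  exact_mod_cast this

theorem reda (h3 : 3 < p) (h11 : p ≠ 11) (h23 : p ≠ 23) (hr : r ^ 2 = 3) : (SW p).red (ca (A r)) ≠ 0 := by
  refine red_ne_mul (n := 2277) (by push_cast; exact aa hr) ?_
  have := nd (p := p) 2277 [3, 3, 11, 23] (by norm_num) (by simp; norm_num; omega)
  exact_mod_cast this

theorem redb (h3 : 3 < p) (h7 : p ≠ 7) (h11 : p ≠ 11) (hr : r ^ 2 = 3) : (SW p).red (cb (A r)) ≠ 0 := by
  refine red_ne_mul (n := 17248) (by push_cast; exact bb hr) ?_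
  have := nd (p := p) 17248 [2, 2, 2, 2, 2, 7, 7, 11] (by norm_num) (by simp; norm_num; omega)
  exact_mod_cast this

theorem redZ (hv : 24 * v = 1) (hr : r ^ 2 = 3) : (SW p).red (Z v r) ≠ 0 := by
  refine red_ne_mul (n := -1) (by push_cast; exact zz hv hr) ?_
  rw [dvd_neg]; exact nd1

theorem redZ1 (h3 : 3 < p) (hv : 24 * v = 1) (hr : r ^ 2 = 3) : (SW p).red (1 - Z v r) ≠ 0 := by
  refine red_ne_mul (n := 27) (by push_cast; exact z1 hv hr) ?_
  have := nd (p := p) 27 [3, 3, 3] (by norm_num) (by simp; norm_num; omega)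
  exact_mod_cast this

theorem redM2 (h5 : 5 < p) (hv : 24 * v = 1) (hr : r ^ 2 = 3) (hi : i ^ 2 = -1) : (SW p).red (M2 v r i) ≠ 0 := by
  refine red_ne_mul (n := 25) (by push_cast; exact m2n hv hr hi) ?_
  have := nd (p := p) 25 [5, 5] (by norm_num) (by simp; norm_num; omega)
  exact_mod_cast this

/-- the 2-isogeny to the conjugate curve -/
theorem dat2 (h3 : 3 < p) (hr : r ^ 2 = 3) :
    Dat (SW p) (cub (ca (A r)) (cb (A r))) (ca (A (-r))) (cb (A (-r))) (1 + r) 2 := by
  have h := Dat_two (SW p) (Dat.id (SW p) (ca (A r)) (cb (A r))) (root hr) (redT h3 hr)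
  have h' := Dat_iso (SW p) h (u := 1 + r) (redmu h3 hr) (twoa hr) (twob hr)
  rwa [one_mul, mul_one] at h'

/-- the endomorphism `3 i` -/
theorem dat9 (h3 : 3 < p) (hr : r ^ 2 = 3) (hi : i ^ 2 = -1) :
    Dat (SW p) (cub (ca (A r)) (cb (A r))) (ca (A r)) (cb (A r)) (-3 * i) 9 := by
  have hρ : (r * i) ^ 2 = -3 := by rw [mul_pow, hr, hi]; norm_num
  have ri : (SW p).red i ≠ 0 := by
    refine red_ne_mul (y := i) (n := -1) (by push_cast; rw [← hi]; ring) ?_
    rw [dvd_neg]; exact nd1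
  have d1 := Dat.nu (SW p) (Dat.id (SW p) (ca (A r)) (cb (A r))) (red2 h3) (red3 h3) (redAr h3 hr) hρ
  have d2 := Dat_iso (SW p) d1 (u := i) ri (a' := ca (4 - A r)) (b' := cb (4 - A r))
    (by rw [show i ^ 4 = (i ^ 2) ^ 2 by ring, hi]; ring) (by rw [cb0 hr]; ring)
  have d3 := Dat.nu (SW p) d2 (red2 h3) (red3 h3) (redA0 h3 hr) hρ
  have e : 4 - (4 - A r) = A r := by ring
  rw [e] at d3
  have em : 1 * (r * i) * i * (r * i) = -3 * i := by linear_combination i ^ 3 * hr + 3 * i * hi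
  rw [em] at d3
  exact d3

/-- the 5-isogeny to the conjugate curve -/
theorem dat5 (h5 : 5 < p) (hv : 24 * v = 1) (hr : r ^ 2 = 3) (hi : i ^ 2 = -1) :
    Dat (SW p) (cub (ca (A r)) (cb (A r))) (ca (A (-r))) (cb (A (-r))) (M2 v r i) 5 := by
  have e : gN r i = Polynomial.C 25 * Polynomial.X ^ 5 + (Polynomial.C (150 * r * i - 200 * r + 300 * i - 650) *
        Polynomial.X ^ 4 + Polynomial.C (-16500 * r * i + 6000 * r - 29700 * i + 11850) * Polynomial.X ^ 3 +
        Polynomial.C (289650 * r * i + 15300 * r + 509400 * i + 23050) * Polynomial.X ^ 2 +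
        Polynomial.C (-1660200 * r * i - 808400 * r - 2895900 * i - 1396175) * Polynomial.X +
        Polynomial.C (2807100 * r * i + 3077700 * r + 4880700 * i + 5328900)) := by
    simp only [gN, Polynomial.C_mul, Polynomial.C_add, Polynomial.C_sub, Polynomial.C_pow, map_ofNat,
      Polynomial.C_neg]
    ring
  have h25 : (25 : WO p) ≠ 0 := ne_of_red (by
    have := red_int_ne (p := p) (n := 25) (by
      have := nd (p := p) 25 [5, 5] (by norm_num) (by simp; norm_num; omega)
      exact_mod_cast this)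
    exact_mod_cast this)
  have hlow : (Polynomial.C (150 * r * i - 200 * r + 300 * i - 650) *
        Polynomial.X ^ 4 + Polynomial.C (-16500 * r * i + 6000 * r - 29700 * i + 11850) * Polynomial.X ^ 3 +
        Polynomial.C (289650 * r * i + 15300 * r + 509400 * i + 23050) * Polynomial.X ^ 2 +
        Polynomial.C (-1660200 * r * i - 808400 * r - 2895900 * i - 1396175) * Polynomial.X +
        Polynomial.C (2807100 * r * i + 3077700 * r + 4880700 * i + 5328900)).degree < 5 := by
    refine lt_of_le_of_lt (b := 4) ?_ (by norm_num)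
    compute_degree
  have hd5 : (Polynomial.C 25 * Polynomial.X ^ 5 : Polynomial (WO p)).degree = 5 :=
    Polynomial.degree_C_mul_X_pow 5 h25
  have hdn : (gN r i).natDegree = 5 := by
    rw [e, Polynomial.natDegree_add_eq_left_of_degree_lt (by rw [hd5]; exact hlow),
      Polynomial.natDegree_C_mul_X_pow 5 _ h25]
  have hlead : (gN r i).leadingCoeff = 25 := by
    rw [e, Polynomial.leadingCoeff_add_of_degree_lt' (by rw [hd5]; exact hlow),
      Polynomial.leadingCoeff_C_mul_X_pow]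
  have hdh : (gh r i).natDegree ≤ 2 := by
    have eh : gh r i = Polynomial.C 5 * Polynomial.X ^ 2 + Polynomial.C (15 * r * i - 20 * r + 30 * i - 65) *
        Polynomial.X + Polynomial.C (-111 * r * i + 82 * r - 204 * i + 188) := by
      simp only [gh, Polynomial.C_mul, Polynomial.C_add, Polynomial.C_sub, Polynomial.C_pow, map_ofNat,
        Polynomial.C_neg]
      ring
    rw [eh]; compute_degree
  haveI : CharZero (WO p) := charZ
  refine Dat.of_sq (SW p) (c := 1) (g_ode hr hi (m2sq hv hr hi)) ?_ (redM2 h5 hv hr hi) ?_ ?_ hdn ?_ (g_bez hr hi) ?_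
  · rw [map_one]; exact one_ne_zero
  · rintro h0
    have h1 := g_bez (R := WO p) hr hi
    have h2 := congrArg (fun P => (P.map (SW p).red)) h1
    rw [h0] at h1
    have h3 : (gh r i).coeff 2 = 5 := by
      simp [gh, Polynomial.coeff_X, Polynomial.coeff_C]
    rw [h0, Polynomial.coeff_zero] at h3
    have h4 := red_int_ne (p := p) (n := 5) (by
      have := nd (p := p) 5 [5] (by norm_num) (by simp; norm_num; omega)
      exact_mod_cast this)
    apply h4
    push_cast
    rw [← h3, map_zero]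
  · rw [hdn]; omega
  · rw [hlead]
    have := red_int_ne (p := p) (n := 25) (by
      have := nd (p := p) 25 [5, 5] (by norm_num) (by simp; norm_num; omega)
      exact_mod_cast this)
    exact_mod_cast this
  · have := nd (p := p) 388800 [2, 2, 2, 2, 2, 2, 3, 3, 3, 3, 3, 5, 5] (by norm_num) (by simp; norm_num; omega)
    have := red_int_ne (p := p) (n := 388800) (by exact_mod_cast this)
    exact_mod_cast this

/-- the Frobenius on the parameters -/
theorem frobZ (hv : 24 * v = 1) {ε : kb p} (hF : (SW p).red r ^ p = ε * (SW p).red r)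
    {r' : WO p} (hr' : (SW p).red r' = ε * (SW p).red r) (f : WO p → WO p) (c1 c2 : ℤ)
    (hf : ∀ x, f x = ((c1 : WO p) + (c2 : WO p) * x) * v) : (SW p).red (f r') = (SW p).red (f r) ^ p := by
  have hFq : (SW p).red v ^ p = (SW p).red v := red_pow_inv (n := 24) (by push_cast; exact hv)
  have h1 : ∀ x : kb p, x ^ p = frobenius (kb p) p x := fun _ => rfl
  have k1 : frobenius (kb p) p ((SW p).red (c1 : WO p)) = (SW p).red (c1 : WO p) := red_pow_int c1
  have k2 : frobenius (kb p) p ((SW p).red (c2 : WO p)) = (SW p).red (c2 : WO p) := red_pow_int c2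
  rw [hf, hf, map_mul, map_mul, map_add, map_add, map_mul, map_mul, hr', h1, map_mul, map_add, map_mul, k1, k2,
    ← h1 ((SW p).red v), hFq, ← h1 ((SW p).red r), hF]

theorem Zf (v x : WO p) : Z v x = (((-30 : ℤ) : WO p) + ((-18 : ℤ) : WO p) * x) * v := by
  unfold Z; push_cast; ring

theorem Sf (v x : WO p) : S v x = (((-6 : ℤ) : WO p) + ((-3 : ℤ) : WO p) * x) * v := by
  unfold S; push_cast; ring

/-- the value, Frobenius fixing `r` -/
theorem val_same (h11 : 11 < p) (h23 : p ≠ 23) (hv : 24 * v = 1) (hr : r ^ 2 = 3) (hi : i ^ 2 = -1)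
    (hF : (SW p).red r ^ p = (SW p).red r) {Y : QO (WO p) p} (hY : mk2 (WO p) p (Z v r * (1 - Z v r)) = 27 * Y)
    {x y : ℤ} (hxy : (p : ℤ) = x ^ 2 + 9 * y ^ 2) : SS p Y = mk2 (WO p) p (4 * (x : WO p) ^ 2 - 2 * p) := by
  have hz' : (SW p).red (Z v r) = (SW p).red (Z v r) ^ p :=
    frobZ hv (ε := 1) (by rw [hF, one_mul]) (r' := r) (by rw [one_mul]) (Z v) (-30) (-18) (Zf v)
  have n9 : ¬ (p : ℤ) ∣ ((9 : ℕ) : ℤ) := nd (p := p) 9 [3, 3] (by norm_num) (by simp; norm_num; omega)
  have n1 : ¬ (p : ℤ) ∣ ((1 : ℕ) : ℤ) := by exact_mod_cast nd1 (p := p)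
  have hpx : (p : WO p) = (x : WO p) ^ 2 + 9 * (y : WO p) ^ 2 := by
    exact_mod_cast congrArg (Int.cast : ℤ → WO p) hxy
  have h9 := dat9 (p := p) (by omega) hr hi
  have hi0 : -3 * i ≠ 0 := by
    intro h0
    have h1 : (9 : WO p) = 0 := by
      have : (-3 * i) ^ 2 = 0 := by rw [h0]; ring
      linear_combination (-1 : WO p) * this + 9 * hi
    have h2 := red_int_ne (p := p) (n := 9) (by exact_mod_cast n9)
    apply h2
    push_cast
    rw [h1, map_zero]
  have ha := reda (p := p) (by omega) (by omega) h23 hr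
  have hb := redb (p := p) (by omega) (by omega) (by omega) hr
  rw [← four (r := r) hv] at h9 ha hb
  have h := val_form0 (SW p) (p := p) (by omega) (SW_q p) hY (redZ hv hr) (redZ1 (by omega) hv hr) hz'
    ha hb one_ne_zero hi0 (Dat.id (SW p) _ _) h9 x y (by push_cast; linarith) n1 n9 (by
      have : 12 < p := by
        rcases Nat.lt_or_ge 12 p with h | h
        · exact h
        · have : p = 12 := by omega
          rw [this] at hp
          exact absurd hp.out (by norm_num)
      nlinarith) (c := 1) (by rw [map_one]; exact one_ne_zero) (by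
      rw [hpx]; linear_combination (-9 * (y : WO p) ^ 2) * hi)
  have e : 4 * (x : WO p) ^ 2 * 1 ^ 2 - 2 * 1 * (p : WO p) = 4 * (x : WO p) ^ 2 - 2 * p := by ring
  rw [map_one, one_pow, one_mul, e] at h
  exact h

/-- the value, Frobenius moving `r` -/
theorem val_conj (h12 : 12 < p) (h23 : p ≠ 23) (hv : 24 * v = 1) (hr : r ^ 2 = 3) (hi : i ^ 2 = -1)
    (hF : (SW p).red r ^ p = -(SW p).red r) {Y : QO (WO p) p} (hY : mk2 (WO p) p (Z v r * (1 - Z v r)) = 27 * Y)
    {x y : ℤ} (hxy : (p : ℤ) = 2 * x ^ 2 + 2 * x * y + 5 * y ^ 2) :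
    SS p Y = mk2 (WO p) p (2 * ((2 * (x : WO p) + y) ^ 2 - p) * (2 - r)) := by
  have key : ∀ i : WO p, i ^ 2 = -1 → (SW p).red ((x : WO p) * (1 + r) + (y : WO p) * M2 v r i) = 0 →
      SS p Y = mk2 (WO p) p (2 * ((2 * (x : WO p) + y) ^ 2 - p) * (2 - r)) := by
    intro i hi hred
    have hz' : (SW p).red (Z v (-r)) = (SW p).red (Z v r) ^ p :=
      frobZ hv (ε := -1) (by rw [hF, neg_one_mul]) (r' := -r) (by rw [map_neg, neg_one_mul]) (Z v) (-30) (-18)
        (Zf v)
    have n2 : ¬ (p : ℤ) ∣ ((2 : ℕ) : ℤ) := nd (p := p) 2 [2] (by norm_num) (by simp; norm_num; omega)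
    have n5 : ¬ (p : ℤ) ∣ ((5 : ℕ) : ℤ) := nd (p := p) 5 [5] (by norm_num) (by simp; norm_num; omega)
    have hpx : (p : WO p) = 2 * (x : WO p) ^ 2 + 2 * x * y + 5 * (y : WO p) ^ 2 := by
      exact_mod_cast congrArg (Int.cast : ℤ → WO p) hxy
    have d2 := dat2 (p := p) (by omega) hr
    have d5 := dat5 (p := p) (by omega) hv hr hi
    have ha := reda (p := p) (by omega) (by omega) h23 hr
    have hb := redb (p := p) (by omega) (by omega) (by omega) hr
    rw [← four (r := r) hv, ← four (r := -r) hv] at d2 d5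
    rw [← four (r := r) hv] at ha hb
    have hm2 := m2two (r := r) (i := i) hv
    have hc : (SW p).red (2 + r) ≠ 0 :=
      red_ne_mul (y := 2 - r) (n := 1) (by push_cast; exact two_r hr) nd1
    have h2O : (2 : WO p) ≠ 0 := ne_of_red (by rw [map_ofNat]; exact red2 (by omega))
    have h := val_form (SW p) (p := p) (by omega) (SW_q p) hY (redZ hv hr) (redZ1 (by omega) hv hr) hz'
      ha hb (ne_of_red (redmu (by omega) hr)) (ne_of_red (redM2 (by omega) hv hr hi)) d2 d5 x y 2
      (by push_cast; linarith) n2 n5 (by norm_num) (by nlinarith)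
      (al := (x : WO p) * (1 + r) + (y : WO p) * M2 v r i) (τ := (1 + r) * (2 * x + y)) (c := 2 + r) rfl hred hc
      (by
        apply mul_left_cancel₀ (mul_ne_zero h2O h2O)
        rw [hpx]
        linear_combination ((y : WO p) * (2 * (1 + r) * y - 2 * y * M2 v r i - y * ((1 + r) * (1 + 3 * i)))) * hm2
          + (-9 * (y : WO p) ^ 2 * (1 + r) ^ 2) * hi + ((2 * (x : WO p) + y) ^ 2 + 9 * (y : WO p) ^ 2) * hr)
    have h2 := congrArg (mk2 (WO p) p) (two_r hr)
    have h3 := congrArg (mk2 (WO p) p) hr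
    rw [map_mul, map_add, map_sub, map_one, map_ofNat] at h2
    rw [map_pow, map_ofNat] at h3
    rw [map_sub, map_pow, map_mul, map_mul, map_mul, map_add, map_add, map_add, map_mul, map_one, map_ofNat,
      map_natCast, map_intCast, map_intCast] at h
    rw [map_mul, map_mul, map_sub, map_sub, map_pow, map_add, map_mul, map_ofNat, map_natCast, map_intCast,
      map_intCast]
    set ρ := mk2 (WO p) p r
    linear_combination (2 - ρ) ^ 2 * h - (SS p Y * ((2 + ρ) * (2 - ρ) + 1)) * h2 +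
      ((2 - ρ) ^ 2 * (2 * (x : QO (WO p) p) + y) ^ 2) * h3 +
      (2 * ((2 * (x : QO (WO p) p) + y) ^ 2 - p) * (2 - ρ)) * h2
  have h2O : (2 : kb p) ≠ 0 := red2 (by omega)
  have h0 : (SW p).red ((x : WO p) * (1 + r) + (y : WO p) * M2 v r i) *
      (SW p).red ((x : WO p) * (1 + r) + (y : WO p) * M2 v r (-i)) = 0 := by
    have hpx : (p : WO p) = 2 * (x : WO p) ^ 2 + 2 * x * y + 5 * (y : WO p) ^ 2 := by
      exact_mod_cast congrArg (Int.cast : ℤ → WO p) hxy
    have hm2 := m2two (r := r) (i := i) hv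
    have hm2' := m2two (r := r) (i := -i) hv
    rw [← map_mul]
    apply mul_left_cancel₀ (mul_ne_zero h2O h2O)
    have e : (2 * 2 : WO p) * (((x : WO p) * (1 + r) + (y : WO p) * M2 v r i) *
        ((x : WO p) * (1 + r) + (y : WO p) * M2 v r (-i))) = (p : WO p) * (2 * (1 + r) ^ 2) := by
      rw [hpx]
      linear_combination ((y : WO p) * (2 * x * (1 + r) + 2 * y * M2 v r (-i))) * hm2 +
        ((y : WO p) * (2 * x * (1 + r) + y * ((1 + r) * (1 + 3 * i)))) * hm2' +
        (-9 * (y : WO p) ^ 2 * (1 + r) ^ 2) * hi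
    have e' := congrArg (SW p).red e
    rw [map_mul, map_mul, map_mul ((SW p).red) (p : WO p), map_ofNat] at e'
    have hp0 : (SW p).red (p : WO p) = 0 := by rw [← SW_q]; exact (SW p).red_q
    rw [hp0, zero_mul] at e'
    rw [e', mul_zero]
  rcases mul_eq_zero.mp h0 with h | h
  · exact key i hi h
  · exact key (-i) (by rw [neg_sq]; exact hi) h

/-- the supersingular case -/
theorem zero_side (h3 : 3 < p) (hv : 24 * v = 1) (hr : r ^ 2 = 3) (hi : i ^ 2 = -1)
    (h4 : p % 4 = 3) {Y : QO (WO p) p} (hY : mk2 (WO p) p (Z v r * (1 - Z v r)) = 27 * Y) :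
    SS p Y = 0 := by
  have e4 : 4 * (1 - Z v r) = 4 - A r := by rw [← four hv]; ring
  have eZ : (1 - Z v r) * (1 - (1 - Z v r)) = Z v r * (1 - Z v r) := by ring
  refine ss_zero (SW p) (p := p) (z := 1 - Z v r) (by omega) (SW_q p) (by rw [eZ]; exact hY) ?_
  have ri : (SW p).red i ≠ 0 := by
    refine red_ne_mul (y := i) (n := -1) (by push_cast; rw [← hi]; ring) ?_
    rw [dvd_neg]; exact nd1
  have d := Dat_iso (SW p) (Dat.id (SW p) (ca (4 - A r)) (cb (4 - A r))) (u := i) ri (a' := ca (4 - A r))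
    (b' := cb (4 - A r)) (by rw [show i ^ 4 = (i ^ 2) ^ 2 by ring, hi]; ring) (by rw [cb0 hr]; ring)
  rw [one_mul] at d
  have h := Dat_hs (SW p) (p := p) (by omega) d (redA0 h3 hr) (redA0 h3 hr) ri
  have hFi : (SW p).red i ^ p = -(SW p).red i := by
    have h1 := red_pow_sqrt (p := p) (by omega) (g := i) (d := -1) (by push_cast; exact hi)
    rw [legm1 (by omega), if_neg (by omega)] at h1
    rw [h1]; push_cast; ring
  rw [hFi] at h
  have h2 : (2 * (SW p).red i) * hs p ((SW p).red (4 - A r)) = 0 := by linear_combination h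
  have h3' := (mul_eq_zero.mp h2).resolve_left (mul_ne_zero (red2 h3) ri)
  rw [← e4, map_mul, map_ofNat, hs_lg (by omega) (by omega)] at h3'
  exact h3'

end side

section main

variable (p : ℕ) [hp : Fact p.Prime]

theorem data (h3 : 3 < p) : ∃ v r i : WO p, 24 * v = 1 ∧ r ^ 2 = 3 ∧ i ^ 2 = -1 := by
  obtain ⟨v, hv⟩ := ((SW p).unit_of_red (x := ((24 : ℤ) : WO p)) (red_int_ne (by
    have := nd (p := p) 24 [2, 2, 2, 3] (by norm_num) (by simp; norm_num; omega)
    exact_mod_cast this))).exists_right_inv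
  obtain ⟨r, hr⟩ := wo_isqrt p (by omega) (d := 3) (nd3 h3)
  obtain ⟨i, hi⟩ := wo_isqrt p (by omega) (d := -1) (by rw [dvd_neg]; exact nd1)
  push_cast at hv hr hi
  exact ⟨v, r, i, hv, hr, hi⟩

theorem argY {v r : WO p} (hv : 24 * v = 1) (hr : r ^ 2 = 3) :
    mk2 (WO p) p (Z v r * (1 - Z v r)) = 27 * (mk2 (WO p) p (S v r) ^ 2 * mk2 (WO p) p (I4 v r) ^ 3) := by
  rw [yy hv hr, map_mul, map_mul, map_pow, map_pow, map_ofNat]

theorem argY2 {v r : WO p} (hv : 24 * v = 1) (hr : r ^ 2 = 3) :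
    mk2 (WO p) p (Z v (-r) * (1 - Z v (-r))) = 27 * (mk2 (WO p) p (S v r) * mk2 (WO p) p (I16 v r) ^ 3) := by
  rw [yy2 hv hr, map_mul, map_mul, map_pow, map_ofNat]

theorem main (h5 : 5 < p) {wi : R p} (hwi : ((-16 : ℤ) : R p) * wi = 1) :
    (∀ x y : ℤ, p % 12 = 1 → (p : ℤ) = x ^ 2 + 9 * y ^ 2 → AA p wi = ((4 * x ^ 2 - 2 * p : ℤ) : R p)) ∧
    (∀ x y : ℤ, p % 12 = 5 → (p : ℤ) = 2 * x ^ 2 + 2 * x * y + 5 * y ^ 2 →
      AA p wi = ((2 * ((2 * x + y) ^ 2 - p) : ℤ) : R p)) ∧
    (p % 4 = 3 → AA p wi = ((0 : ℤ) : R p)) := by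
  obtain ⟨v, r, i, hv, hr, hi⟩ := data p (by omega)
  have hr' : (-r) ^ 2 = 3 := by rw [neg_sq]; exact hr
  have hX : ((-16 : ℤ) : WO p) * (S v r * I8 v r ^ 2) = 1 := by push_cast; exact xx hv hr
  have k4 := congrArg (mk2 (WO p) p) (i4 hv hr)
  have k8 := congrArg (mk2 (WO p) p) (i8 hv hr)
  have k16 := congrArg (mk2 (WO p) p) (i16 hv hr)
  have k8' := congrArg (mk2 (WO p) p) (i8 hv hr')
  rw [map_mul, map_add, map_mul, map_one, map_ofNat] at k4 k8 k16 k8'
  have u3 : IsUnit (3 : QO (WO p) p) := by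
    have h1 : IsUnit (((3 : ℤ)) : WO p) := (SW p).unit_of_red (red_int_ne (nd3 (by omega)))
    have := h1.map (mk2 (WO p) p)
    rwa [map_intCast, Int.cast_ofNat] at this
  have hpp := mk2_p (O := WO p) (p := p)
  have hgF := red_pow_sqrt (p := p) (by omega) (g := r) (d := 3) (by push_cast; exact hr)
  rw [leg3' (by omega) (by omega)] at hgF
  have e1 : ∀ x : kb p, x ^ p = frobenius (kb p) p x := fun _ => rfl
  refine ⟨fun x y h12 hxy => ?_, fun x y h12 hxy => ?_, fun h4 => ?_⟩
  · rw [if_pos (by omega), if_pos (by omega)] at hgF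
    push_cast at hgF
    replace hgF : (SW p).red r ^ p = (SW p).red r := by rw [hgF]; ring
    have hgF' : (SW p).red (-r) ^ p = (SW p).red (-r) := by
      rw [map_neg, e1, map_neg, ← e1, hgF]
    have v1 := val_same (by omega) (by omega) hv hr hi hgF (argY p hv hr) hxy
    have v2 := val_same (by omega) (by omega) hv hr' hi hgF' (argY2 p hv hr) hxy
    obtain ⟨δ, hδ⟩ := red_lift (p := p) (x := S v r) (y := S v r) (by
      refine (frobZ hv (ε := 1) (by rw [hgF, one_mul]) (r' := r) (by rw [one_mul]) (S v) (-6) (-3)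
        (Sf v)).symm)
    have hδ' := congrArg (mk2 (WO p) p) hδ
    rw [map_pow, map_add, map_mul, map_natCast] at hδ'
    have key := club_same (p := p) hpp (by omega) k4 k8 k16 hδ' u3 (by rw [v1, v2])
    refine aa_transfer hX hwi ?_
    rw [map_mul, map_pow, key, v1]
    push_cast
    rw [map_sub, map_mul, map_mul, map_pow, map_intCast, map_natCast, map_ofNat, map_ofNat]
  · rw [if_pos (by omega), if_neg (by omega)] at hgF
    push_cast at hgF
    replace hgF : (SW p).red r ^ p = -(SW p).red r := by rw [hgF]; ring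
    have hgF' : (SW p).red (-r) ^ p = -(SW p).red (-r) := by
      rw [map_neg, e1, map_neg, ← e1, hgF]
    have v1 := val_conj (by omega) (by omega) hv hr hi hgF (argY p hv hr) hxy
    have v2 := val_conj (by omega) (by omega) hv hr' hi hgF' (argY2 p hv hr) hxy
    obtain ⟨δ, hδ⟩ := red_lift (p := p) (x := S v r) (y := S v (-r)) (by
      refine (frobZ hv (ε := -1) (by rw [hgF, neg_one_mul]) (r' := -r)
        (by rw [map_neg, neg_one_mul]) (S v) (-6) (-3) (Sf v)).symm)
    have hδ' := congrArg (mk2 (WO p) p) hδ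
    rw [map_pow, map_add, map_mul, map_natCast] at hδ'
    have r1 := congrArg (mk2 (WO p) p) (rel1 hv hr)
    have r2 := congrArg (mk2 (WO p) p) (rel2 hv hr)
    rw [map_mul, map_mul, map_add, map_mul, map_one, map_mul, map_mul, map_add, map_mul, map_one,
      map_ofNat, map_ofNat] at r1
    rw [map_mul, map_mul, map_add, map_mul, map_one, map_mul, map_add, map_mul, map_one,
      map_ofNat, map_ofNat] at r2
    rw [map_mul] at v1 v2
    have key := club_fin (p := p) hpp (by omega) k4 k8 k16 hδ' (IsUnit.of_mul_eq_one _ k8') u3 (by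
      rw [v1, v2]
      linear_combination mk2 (WO p) p (2 * ((2 * (x : WO p) + y) ^ 2 - p)) * r1)
    refine aa_transfer hX hwi ?_
    rw [map_mul, map_pow]
    have hu : IsUnit (mk2 (WO p) p (I8 v r) * (1 + 8 * mk2 (WO p) p (S v (-r)))) :=
      (IsUnit.of_mul_eq_one (1 + 8 * mk2 (WO p) p (S v r)) (by linear_combination k8)).mul
        (IsUnit.of_mul_eq_one _ k8')
    apply hu.mul_left_cancel
    rw [key, v1]
    push_cast
    rw [map_mul, map_sub, map_pow, map_add, map_mul, map_intCast, map_intCast, map_natCast, map_ofNat]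
    linear_combination (2 * ((2 * (x : QO (WO p) p) + y) ^ 2 - (p : QO (WO p) p))) * r2
  · have v1 := zero_side (by omega) hv hr hi h4 (argY p hv hr)
    have v2 := zero_side (by omega) hv hr' hi h4 (argY2 p hv hr)
    have key := club_zero (p := p) hpp (by omega) k4 k8 k16 u3 v2 v1
    refine aa_transfer hX hwi ?_
    rw [map_mul, map_pow, key, Int.cast_zero]

end main

end Pool.Agent.H578.CM.M16
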