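import Pool.Agent.H578.CM.Diag

set_option autoImplicit false
set_option linter.unusedSectionVars false
set_option maxHeartbeats 4000000

/-!
# The elliptic curves attached to `Z_p(-16)`: data
-/

namespace Pool.Agent.H578.CM.M16

open Pool.Agent.H546

section ring

variable {B : Type*} [CommRing B]

def A (r : B) : B := -(5 + 3 * r)
def Z (v r : B) : B := -6 * (5 + 3 * r) * v
def S (v r : B) : B := -3 * (2 + r) * v
def I4 (v r : B) : B := -16 * r * v
def I8 (v r : B) : B := 12 * (1 - r) * v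
def I16 (v r : B) : B := 8 * (3 - 2 * r) * v
def M2 (v r i : B) : B := 12 * (1 + r) * (1 + 3 * i) * v
def E (r : B) : B := -(4 + 4 * r)

variable {v r i : B}

theorem four (hv : 24 * v = 1) : 4 * Z v r = A r := by
  simp only [Z, A]
  linear_combination (-3 * r - 5) * hv

theorem root (hr : r ^ 2 = 3) : E r ^ 3 + ca (A r) * E r + cb (A r) = 0 := by
  simp only [E, A, ca, cb]
  linear_combination (-64 * r - 111) * hr

theorem twoa (hr : r ^ 2 = 3) : ca (A r) - 5 * (3 * E r ^ 2 + ca (A r)) = (1 + r) ^ 4 * ca (A (-r)) := by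
  simp only [E, A, ca]
  linear_combination (-18 * r ^ 3 - 15 * r ^ 2 + 66 * r - 15) * hr

theorem twob (hr : r ^ 2 = 3) : cb (A r) - 7 * (3 * E r ^ 2 + ca (A r)) * E r = (1 + r) ^ 6 * cb (A (-r)) := by
  simp only [E, A, ca, cb]
  linear_combination (-9 * r ^ 6 + 30 * r ^ 5 + 173 * r ^ 4 + 156 * r ^ 3 - 471 * r ^ 2 - 362 * r + 84) * hr

theorem TT (hr : r ^ 2 = 3) : (3 * E r ^ 2 + ca (A r)) * (3 * E (-r) ^ 2 + ca (A (-r))) = -27 := by
  simp only [E, A, ca]
  linear_combination (2304 * r ^ 2 - 36) * hr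

theorem mm (hr : r ^ 2 = 3) : (1 + r) * (1 + -r) = -2 := by
  linear_combination (-1) * hr

theorem AAn (hr : r ^ 2 = 3) : A r * A (-r) = -2 := by
  simp only [A]
  linear_combination (-9) * hr

theorem AA0 (hr : r ^ 2 = 3) : (4 - A r) * (4 - A (-r)) = 54 := by
  simp only [A]
  linear_combination (-9) * hr

theorem aa (hr : r ^ 2 = 3) : ca (A r) * ca (A (-r)) = 2277 := by
  simp only [A, ca]
  linear_combination (-324) * hr

theorem bb (hr : r ^ 2 = 3) : cb (A r) * cb (A (-r)) = 17248 := by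
  simp only [A, cb]
  linear_combination (81 * r ^ 2 - 3771) * hr

theorem cb0 (hr : r ^ 2 = 3) : cb (4 - A r) = 0 := by
  simp only [A, cb]
  linear_combination (9) * hr

theorem i4 (hv : 24 * v = 1) (hr : r ^ 2 = 3) : (1 + 4 * S v r) * I4 v r = 1 := by
  simp only [S, I4]
  linear_combination (192 * v ^ 2) * hr + (16 * v * r + 24 * v + 1) * hv

theorem i8 (hv : 24 * v = 1) (hr : r ^ 2 = 3) : (1 + 8 * S v r) * I8 v r = 1 := by
  simp only [S, I8]
  linear_combination (288 * v ^ 2) * hr + (12 * v * r + 12 * v + 1) * hv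

theorem i16 (hv : 24 * v = 1) (hr : r ^ 2 = 3) : (1 + 16 * S v r) * I16 v r = 1 := by
  simp only [S, I16]
  linear_combination (768 * v ^ 2) * hr + (16 * v * r + 1) * hv

theorem xx (hv : 24 * v = 1) (hr : r ^ 2 = 3) : -16 * (S v r * I8 v r ^ 2) = 1 := by
  simp only [S, I8]
  linear_combination (6912 * v ^ 3 * r) * hr + (576 * v ^ 2 + 24 * v + 1) * hv

theorem yy (hv : 24 * v = 1) (hr : r ^ 2 = 3) : Z v r * (1 - Z v r) = 27 * (S v r ^ 2 * I4 v r ^ 3) := by
  simp only [Z, S, I4]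
  linear_combination (995328 * v ^ 5 * r ^ 3 + 3981312 * v ^ 5 * r ^ 2 + 6967296 * v ^ 5 * r + 11943936 * v ^ 5 - 324 * v ^ 2) * hr + (870912 * v ^ 4 * r + 1492992 * v ^ 4 + 36288 * v ^ 3 * r + 62208 * v ^ 3 + 1512 * v ^ 2 * r + 2592 * v ^ 2 + 18 * v * r + 30 * v) * hv

theorem yy2 (hv : 24 * v = 1) (hr : r ^ 2 = 3) : Z v (-r) * (1 - Z v (-r)) = 27 * (S v r * I16 v r ^ 3) := by
  simp only [Z, S, I16]
  linear_combination (-331776 * v ^ 4 * r ^ 2 + 829440 * v ^ 4 * r - 248832 * v ^ 4 - 324 * v ^ 2) * hr + (-36288 * v ^ 3 * r + 62208 * v ^ 3 - 1512 * v ^ 2 * r + 2592 * v ^ 2 - 18 * v * r + 30 * v) * hv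

theorem zz (hv : 24 * v = 1) (hr : r ^ 2 = 3) : Z v r * (8 * Z v (-r)) = -1 := by
  simp only [Z]
  linear_combination (-2592 * v ^ 2) * hr + (-24 * v - 1) * hv

theorem z1 (hv : 24 * v = 1) (hr : r ^ 2 = 3) : (1 - Z v r) * (8 * (1 - Z v (-r))) = 27 := by
  simp only [Z]
  linear_combination (-2592 * v ^ 2) * hr + (-24 * v + 19) * hv

theorem rel1 (hv : 24 * v = 1) (hr : r ^ 2 = 3) : I16 v r * (1 + 16 * S v (-r)) * (2 - -r) = I4 v r * (1 + 4 * S v (-r)) * (2 - r) := by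
  simp only [S, I4, I16]
  linear_combination (-960 * v ^ 2 * r + 1920 * v ^ 2 - 32 * v) * hr + (-24 * v * r + 48 * v) * hv

theorem rel2 (hv : 24 * v = 1) (hr : r ^ 2 = 3) : I4 v r * (1 + 4 * S v (-r)) * (2 - r) = I8 v r * (1 + 8 * S v (-r)) := by
  simp only [S, I4, I8]
  linear_combination (192 * v ^ 2 * r - 480 * v ^ 2 + 16 * v) * hr + (20 * v * r - 36 * v) * hv

theorem m2sq (hv : 24 * v = 1) (hr : r ^ 2 = 3) (hi : i ^ 2 = -1) : M2 v r i ^ 2 = (2 + r) * (-4 + 3 * i) := by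
  simp only [M2]
  linear_combination (1296 * v ^ 2 * r ^ 2 + 2592 * v ^ 2 * r + 1296 * v ^ 2) * hi + (864 * v ^ 2 * i - 1152 * v ^ 2) * hr + (72 * v * r * i - 96 * v * r + 144 * v * i - 192 * v + 3 * r * i - 4 * r + 6 * i - 8) * hv

theorem m2two (hv : 24 * v = 1) : 2 * M2 v r i = (1 + r) * (1 + 3 * i) := by
  simp only [M2]
  linear_combination (3 * r * i + r + 3 * i + 1) * hv

theorem m2n (hv : 24 * v = 1) (hr : r ^ 2 = 3) (hi : i ^ 2 = -1) : M2 v r i * (M2 v r (-i) * (M2 v (-r) i * M2 v (-r) (-i))) = 25 := by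
  simp only [M2]
  linear_combination (1679616 * v ^ 4 * r ^ 4 * i ^ 2 - 2052864 * v ^ 4 * r ^ 4 - 3359232 * v ^ 4 * r ^ 2 * i ^ 2 + 4105728 * v ^ 4 * r ^ 2 + 1679616 * v ^ 4 * i ^ 2 - 2052864 * v ^ 4) * hi + (2073600 * v ^ 4 * r ^ 2 + 2073600 * v ^ 4) * hr + (345600 * v ^ 3 + 14400 * v ^ 2 + 600 * v + 25) * hv

theorem two_r (hr : r ^ 2 = 3) : (2 + r) * (2 - r) = 1 := by
  linear_combination (-1) * hr
end ring

section poly

open Polynomial

variable {R : Type*} [CommRing R]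

noncomputable def gN (r i : R) : R[X] := 25 * X ^ 5 + 150 * X ^ 4 * C r * C i - 200 * X ^ 4 * C r + 300 * X ^ 4 * C i - 650 * X ^ 4 - 16500 * X ^ 3 * C r * C i + 6000 * X ^ 3 * C r - 29700 * X ^ 3 * C i + 11850 * X ^ 3 + 289650 * X ^ 2 * C r * C i + 15300 * X ^ 2 * C r + 509400 * X ^ 2 * C i + 23050 * X ^ 2 - 1660200 * X * C r * C i - 808400 * X * C r - 2895900 * X * C i - 1396175 * X + 2807100 * C r * C i + 3077700 * C r + 4880700 * C i + 5328900

noncomputable def gh (r i : R) : R[X] := 5 * X ^ 2 + 15 * X * C r * C i - 20 * X * C r + 30 * X * C i - 65 * X - 111 * C r * C i + 82 * C r - 204 * C i + 188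

theorem gN_der (r i : R) : derivative (gN r i) = 125 * X ^ 4 + 600 * X ^ 3 * C r * C i - 800 * X ^ 3 * C r + 1200 * X ^ 3 * C i - 2600 * X ^ 3 - 49500 * X ^ 2 * C r * C i + 18000 * X ^ 2 * C r - 89100 * X ^ 2 * C i + 35550 * X ^ 2 + 579300 * X * C r * C i + 30600 * X * C r + 1018800 * X * C i + 46100 * X - 1660200 * C r * C i - 808400 * C r - 2895900 * C i - 1396175 := by
  simp only [gN, gh, derivative_add, derivative_sub, derivative_mul, derivative_pow, derivative_C,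
    derivative_X, derivative_ofNat, derivative_one]
  push_cast
  simp only [map_ofNat]
  ring

theorem gh_der (r i : R) : derivative (gh r i) = 10 * X + 15 * C r * C i - 20 * C r + 30 * C i - 65 := by
  simp only [gN, gh, derivative_add, derivative_sub, derivative_mul, derivative_pow, derivative_C,
    derivative_X, derivative_ofNat, derivative_one]
  push_cast
  simp only [map_ofNat]
  ring

theorem at4 {r i m : R} (hr : r ^ 2 = 3) (hi : i ^ 2 = -1) (hm : m ^ 2 = (2 + r) * (-4 + 3 * i)) : ca (A (-r)) * m ^ 4 = 2448 * r * i - 714 * r + 4392 * i - 1281 := by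
  simp only [A, ca]
  linear_combination ((6 * (-(5 + 3 * -r)) - 27) * (m ^ 2 + (2 + r) * (-4 + 3 * i))) * hm + (162 * r ^ 3 + 135 * r ^ 2 - 1404 * r - 2052) * hi + (-432 * r * i + 126 * r - 360 * i + 105) * hr

theorem bt6 {r i m : R} (hr : r ^ 2 = 3) (hi : i ^ 2 = -1) (hm : m ^ 2 = (2 + r) * (-4 + 3 * i)) : cb (A (-r)) * m ^ 6 = 88452 * r * i + 33264 * r + 153972 * i + 57904 := by
  simp only [A, cb]
  linear_combination (((-(5 + 3 * -r)) ^ 2 - 18 * (-(5 + 3 * -r)) + 54) * (m ^ 4 + m ^ 2 * ((2 + r) * (-4 + 3 * i)) + ((2 + r) * (-4 + 3 * i)) ^ 2)) * hm + (243 * r ^ 5 * i - 972 * r ^ 5 - 810 * r ^ 4 * i + 3240 * r ^ 4 - 6129 * r ^ 3 * i + 24516 * r ^ 3 + 2106 * r ^ 2 * i - 8424 * r ^ 2 + 36612 * r * i - 146448 * r + 36504 * i - 146016) * hi + (1053 * r ^ 3 * i + 396 * r ^ 3 - 3510 * r ^ 2 * i - 1320 * r ^ 2 - 23400 * r * i - 8800 * r - 1404 * i - 528) * hr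

theorem a_eq (r : R) : ca (A r) = -18 * r - 57 := by simp only [A, ca]; ring

theorem b_eq {r : R} (hr : r ^ 2 = 3) : cb (A r) = 84 * r + 196 := by
  simp only [A, cb]
  linear_combination (9) * hr

theorem g_bez {r i : R} (hr : r ^ 2 = 3) (hi : i ^ 2 = -1) :
    (385319 * X * C r * C i - 560192 * X * C r - 667392 * X * C i + 970281 * X - 1659127 * C r * C i + 1460761 * C r + 2873691 * C i - 2530113) * gN r i + (-1926595 * X ^ 4 * C r * C i + 2800960 * X ^ 4 * C r + 3336960 * X ^ 4 * C i - 4851405 * X ^ 4 + 22245075 * X ^ 3 * C r * C i - 22761975 * X ^ 3 * C r - 38529585 * X ^ 3 * C i + 39424905 * X ^ 3 - 172773375 * X ^ 2 * C r * C i + 10721250 * X ^ 2 * C r + 299251890 * X ^ 2 * C i - 18570645 * X ^ 2 + 625483595 * X * C r * C i + 237121165 * X * C r - 1083369705 * X * C i - 410694435 * X - 766219680 * C r * C i - 419510160 * C r + 1327150800 * C i + 726577200) * gh r i = C 388800 := by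
  have h1 : (C r : R[X]) ^ 2 = 3 := by
    have := congrArg (C : R → R[X]) hr
    simpa only [C_mul, C_pow, map_ofNat, C_1] using this
  have h2 : (C i : R[X]) ^ 2 = -1 := by
    have := congrArg (C : R → R[X]) hi
    simpa only [C_mul, C_pow, C_neg, map_ofNat, C_1] using this
  simp only [gN, gh, map_ofNat]
  generalize (C r : R[X]) = r at h1 ⊢
  generalize (C i : R[X]) = i at h2 ⊢
  linear_combination (28898925 * X ^ 5 * r ^ 2 + 7743450 * X ^ 5 * r - 100108800 * X ^ 5 - 6059104380 * X ^ 4 * r ^ 2 - 386659455 * X ^ 4 * r + 18847022310 * X ^ 4 + 133922439900 * X ^ 3 * r ^ 2 + 3875941935 * X ^ 3 * r - 408480515460 * X ^ 3 - 1091712640800 * X ^ 2 * r ^ 2 - 16093018365 * X ^ 2 * r + 3303010211490 * X ^ 2 + 3755189636055 * X * r ^ 2 + 30530496675 * X * r - 11318439957480 * X - 4572285017220 * r ^ 2 - 21968066880 * r + 13754884900500) * h2 + (-80546300 * X ^ 5 * i + 27120275 * X ^ 5 + 10850803075 * X ^ 4 * i + 3090718400 * X ^ 4 -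 182454588975 * X ^ 3 * i - 135809718450 * X ^ 3 + 991953329425 * X ^ 2 * i + 1563058216100 * X ^ 2 - 1436534875625 * X * i - 6632337608125 * X - 1022057350800 * i + 9033669313800) * h1
end poly

end Pool.Agent.H578.CM.M16
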