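import Pool.Agent.H578.CM.M16d
import Pool.Agent.H578.CM.Lp

set_option autoImplicit false
set_option maxHeartbeats 4000000
set_option maxRecDepth 100000

/-!
# The differential equation of the 5-isogeny
-/

namespace Pool.Agent.H578.CM.M16

open Polynomial T8 Pool.Agent.H546

def lN : List T8 := [⟨5328900, 3077700, 0, 0, 4880700, 2807100, 0, 0⟩, ⟨-1396175, -808400, 0, 0, -2895900, -1660200, 0, 0⟩,
  ⟨23050, 15300, 0, 0, 509400, 289650, 0, 0⟩, ⟨11850, 6000, 0, 0, -29700, -16500, 0, 0⟩,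
  ⟨-650, -200, 0, 0, 300, 150, 0, 0⟩, ⟨25, 0, 0, 0, 0, 0, 0, 0⟩]

def lH : List T8 := [⟨188, 82, 0, 0, -204, -111, 0, 0⟩, ⟨-65, -20, 0, 0, 30, 15, 0, 0⟩, ⟨5, 0, 0, 0, 0, 0, 0, 0⟩]

def lal : T8 := ⟨-57, -18, 0, 0, 0, 0, 0, 0⟩
def lbe : T8 := ⟨196, 84, 0, 0, 0, 0, 0, 0⟩
def lal' : T8 := ⟨-1281, -714, 0, 0, 4392, 2448, 0, 0⟩
def lbe' : T8 := ⟨57904, 33264, 0, 0, 153972, 88452, 0, 0⟩

theorem chk_ode : chkAll (chkO 3 1 (-1) lal lbe lal' lbe' lN lH) 7 18 = true := by decide +kernel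

variable {R : Type*} [CommRing R]

theorem pl_lN (r i : R) : pl r 1 i lN = gN r i := by
  simp only [pl, lN, gN, ev]
  push_cast
  simp only [C_add, C_mul, C_neg, map_ofNat, C_1, C_0]
  ring

theorem pl_lH (r i : R) : pl r 1 i lH = gh r i := by
  simp only [pl, lH, gh, ev]
  push_cast
  simp only [C_add, C_mul, C_neg, map_ofNat, C_1, C_0]
  ring

theorem g_ode [IsDomain R] [CharZero R] {r i m : R} (hr : r ^ 2 = 3) (hi : i ^ 2 = -1)
    (hm : m ^ 2 = (2 + r) * (-4 + 3 * i)) :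
    cub (ca (A r)) (cb (A r)) * C 1 * (derivative (gN r i) * gh r i - 2 * gN r i * derivative (gh r i)) ^ 2 =
    gN r i ^ 3 + C (ca (A (-r)) * m ^ 4) * C 1 ^ 2 * gN r i * gh r i ^ 4 +
      C (cb (A (-r)) * m ^ 6) * C 1 ^ 3 * gh r i ^ 6 := by
  have h := ode_of (S := R) (A := 3) (B := 1) (C := -1) (g := r) (k := 1) (i := i) (n := 18) (c := 7)
    (by rw [hr]; norm_num) (by norm_num) (by rw [hi]; norm_num) chk_ode
    (by simp [lN, lH]) (by simp [lN]) (by simp [lN, lH]) (by simp [lH])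
  rw [pl_lN, pl_lH] at h
  have e1 : ev r 1 i lal = ca (A r) := by
    rw [a_eq]; simp only [ev, lal]; push_cast; ring
  have e2 : ev r 1 i lbe = cb (A r) := by
    rw [b_eq hr]; simp only [ev, lbe]; push_cast; ring
  have e3 : ev r 1 i lal' = ca (A (-r)) * m ^ 4 := by
    rw [at4 hr hi hm]; simp only [ev, lal']; push_cast; ring
  have e4 : ev r 1 i lbe' = cb (A (-r)) * m ^ 6 := by
    rw [bt6 hr hi hm]; simp only [ev, lbe']; push_cast; ring
  rw [e1, e2, e3, e4] at h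
  simp only [C_1, one_pow, mul_one]
  exact h

end Pool.Agent.H578.CM.M16
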