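import Pool.Agent.H578.CM.M96d

set_option autoImplicit false
set_option linter.unusedSectionVars false
set_option maxHeartbeats 4000000

/-!
# The sum `Z_p(96)`
-/

namespace Pool.Agent.H578.CM.M96

open Finset Pool.Agent.H546 Pool.Agent.H547 Pool.Agent.H578.CM
open Pool.Agent.Q267.CDE (R)

section side

variable {p : ℕ} [hp : Fact p.Prime]

theorem nd23 (h5 : 5 < p) {n : ℕ} {l : List ℕ} (hn : l.prod = n) (hl : ∀ q ∈ l, q = 2 ∨ q = 3 ∨ q = 5) :
    ¬ (p : ℤ) ∣ (n : ℤ) := by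
  refine ndvd_of_primes p (l := l) (fun q hq => ?_) hn (fun q hq => ?_)
  · rcases hl q hq with rfl | rfl | rfl <;> norm_num
  · rcases hl q hq with rfl | rfl | rfl <;> omega

variable {q g t : WO p}

theorem redT (h5 : 5 < p) (hq : 3000 * q = 1) (hg : g ^ 2 = 6) :
    (SW p).red (3 * E q g ^ 2 + ca (4 * Z q g)) ≠ 0 := by
  refine red_ne_mul (n := 6561) (by push_cast; exact TT hq hg) ?_
  have := nd23 (p := p) h5 (n := 6561) (l := [3, 3, 3, 3, 3, 3, 3, 3]) (by norm_num) (by simp)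
  exact_mod_cast this

theorem redMU (h5 : 5 < p) (hq : 3000 * q = 1) (hg : g ^ 2 = 6) : (SW p).red (MU q g) ≠ 0 := by
  refine red_ne_mul (n := -2) (by push_cast; exact MMU hq hg) ?_
  rw [dvd_neg]
  have := nd23 (p := p) h5 (n := 2) (l := [2]) (by norm_num) (by simp)
  exact_mod_cast this

theorem redU (hq : 3000 * q = 1) (hg : g ^ 2 = 6) (ht : t ^ 2 = -2) : (SW p).red (U q g t) ≠ 0 := by
  refine red_ne_mul (n := 1) (by push_cast; exact UU hq hg ht) ?_
  intro h; exact (Nat.prime_iff_prime_int.mp hp.out).not_isUnit (isUnit_of_dvd_one h)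

theorem redZ (h5 : 5 < p) (hq : 3000 * q = 1) (hg : g ^ 2 = 6) : (SW p).red (Z q g) ≠ 0 := by
  refine red_ne_mul (n := 729) (by push_cast; exact zz hq hg) ?_
  have := nd23 (p := p) h5 (n := 729) (l := [3, 3, 3, 3, 3, 3]) (by norm_num) (by simp)
  exact_mod_cast this

theorem redZ1 (hq : 3000 * q = 1) (hg : g ^ 2 = 6) : (SW p).red (1 - Z q g) ≠ 0 := by
  refine red_ne_mul (n := 1) (by push_cast; exact z1 hq hg) ?_
  intro h; exact (Nat.prime_iff_prime_int.mp hp.out).not_isUnit (isUnit_of_dvd_one h)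

theorem redA (h5 : 5 < p) (hq : 3000 * q = 1) (hg : g ^ 2 = 6) : (SW p).red (ca (4 * Z q g)) ≠ 0 := by
  refine red_ne_mul (n := 729) (by push_cast; exact aa hq hg) ?_
  have := nd23 (p := p) h5 (n := 729) (l := [3, 3, 3, 3, 3, 3]) (by norm_num) (by simp)
  exact_mod_cast this

theorem redB (h7 : 7 < p) (hq : 3000 * q = 1) (hg : g ^ 2 = 6) : (SW p).red (cb (4 * Z q g)) ≠ 0 := by
  refine red_ne_mul (n := -285768) (by push_cast; exact bb hq hg) ?_
  rw [dvd_neg]
  have := ndvd_of_primes p (n := 285768) (l := [2, 2, 2, 3, 3, 3, 3, 3, 3, 7, 7]) (by simp; norm_num) (by norm_num)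
    (by simp; omega)
  exact_mod_cast this

theorem dat2 (h5 : 5 < p) (hq : 3000 * q = 1) (hg : g ^ 2 = 6) :
    Dat (SW p) (cub (ca (4 * Z q g)) (cb (4 * Z q g))) (ca (4 * Z q (-g))) (cb (4 * Z q (-g))) (MU q g) 2 := by
  have h := Dat_two (SW p) (Dat.id (SW p) (ca (4 * Z q g)) (cb (4 * Z q g))) (root hq hg) (redT h5 hq hg)
  have h' := Dat_iso (SW p) h (u := MU q g) (redMU h5 hq hg) (twoa hq hg) (twob hq hg)
  rwa [one_mul, mul_one] at h'

theorem dat1 (hq : 3000 * q = 1) (hg : g ^ 2 = 6) (ht : t ^ 2 = -2) :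
    Dat (SW p) (cub (ca (4 * Z q g)) (cb (4 * Z q g))) (ca (4 * Z q (-g))) (cb (4 * Z q (-g))) (U q g t) 1 := by
  have h := Dat_iso (SW p) (Dat.id (SW p) (ca (4 * Z q g)) (cb (4 * Z q g))) (u := U q g t)
    (redU hq hg ht) (isoa hq hg ht) (isob hq hg ht)
  rwa [one_mul] at h

theorem dats (h5 : 5 < p) (hq : 3000 * q = 1) (hg : g ^ 2 = 6) (ht : t ^ 2 = -2) :
    Dat (SW p) (cub (ca (4 * Z q g)) (cb (4 * Z q g))) (ca (4 * Z q g)) (cb (4 * Z q g)) t 2 := by
  have hg' : (-g) ^ 2 = 6 := by rw [neg_sq]; exact hg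
  have h1 := isoa hq hg' ht
  have h2 := isob hq hg' ht
  rw [neg_neg] at h1 h2
  have h := Dat_iso (SW p) (dat2 h5 hq hg) (u := U q (-g) t) (redU hq hg' ht) h1 h2
  rwa [MUU hq hg] at h

theorem ne_of_red {x : WO p} (h : (SW p).red x ≠ 0) : x ≠ 0 := by
  rintro rfl; exact h (map_zero _)

theorem redt (h5 : 5 < p) (ht : t ^ 2 = -2) : (SW p).red t ≠ 0 := by
  refine red_ne_mul (y := t) (n := -2) (by push_cast; rw [← ht]; ring) ?_
  rw [dvd_neg]
  have := nd23 (p := p) h5 (n := 2) (l := [2]) (by norm_num) (by simp)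
  exact_mod_cast this

theorem red2 (h5 : 5 < p) : (2 : kb p) ≠ 0 := by
  have := small_ne (k := kb p) (p := p) (n := 2) (by norm_num) (by omega)
  exact_mod_cast this

/-- the Frobenius on the parameter -/
theorem frobZ (hq : 3000 * q = 1) {ε : kb p} (hF : (SW p).red g ^ p = ε * (SW p).red g)
    {g' : WO p} (hg' : (SW p).red g' = ε * (SW p).red g) (f : WO p → WO p) (c1 c2 : ℤ)
    (hf : ∀ x, f x = ((c1 : WO p) + (c2 : WO p) * x) * q) : (SW p).red (f g') = (SW p).red (f g) ^ p := by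
  have hFq : (SW p).red q ^ p = (SW p).red q := red_pow_inv (n := 3000) (by push_cast; exact hq)
  have h1 : ∀ x : kb p, x ^ p = frobenius (kb p) p x := fun _ => rfl
  have k1 : frobenius (kb p) p ((SW p).red (c1 : WO p)) = (SW p).red (c1 : WO p) := red_pow_int c1
  have k2 : frobenius (kb p) p ((SW p).red (c2 : WO p)) = (SW p).red (c2 : WO p) := red_pow_int c2
  rw [hf, hf, map_mul, map_mul, map_add, map_add, map_mul, map_mul, hg', h1, map_mul, map_add, map_mul, k1, k2,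
    ← h1 ((SW p).red q), hFq, ← h1 ((SW p).red g), hF]

theorem Zf (q x : WO p) : Z q x = (((2592 : ℤ) : WO p) + ((-162 : ℤ) : WO p) * x) * q := by
  unfold Z; push_cast; ring

theorem Sf (q x : WO p) : S q x = (((1875 : ℤ) : WO p) + ((750 : ℤ) : WO p) * x) * q := by
  unfold S; push_cast; ring

/-- the value, Frobenius fixing `g` -/
theorem val_same (h7 : 7 < p) (hq : 3000 * q = 1) (hg : g ^ 2 = 6) (ht : t ^ 2 = -2)
    (hF : (SW p).red g ^ p = (SW p).red g) {Y : QO (WO p) p} (hY : mk2 (WO p) p (Z q g * (1 - Z q g)) = 27 * Y)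
    {x y : ℤ} (hxy : (p : ℤ) = x ^ 2 + 2 * y ^ 2) : SS p Y = mk2 (WO p) p (4 * (x : WO p) ^ 2 - 2 * p) := by
  have hz' : (SW p).red (Z q g) = (SW p).red (Z q g) ^ p :=
    frobZ hq (ε := 1) (by rw [hF, one_mul]) (g' := g) (by rw [one_mul]) (Z q) 2592 (-162) (Zf q)
  have n2 : ¬ (p : ℤ) ∣ ((2 : ℕ) : ℤ) := nd23 (p := p) (by omega) (n := 2) (l := [2]) (by norm_num) (by simp)
  have n1 : ¬ (p : ℤ) ∣ ((1 : ℕ) : ℤ) := by
    intro h; exact (Nat.prime_iff_prime_int.mp hp.out).not_isUnit (isUnit_of_dvd_one (by exact_mod_cast h))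
  have hpx : (p : WO p) = (x : WO p) ^ 2 + 2 * (y : WO p) ^ 2 := by
    exact_mod_cast congrArg (Int.cast : ℤ → WO p) hxy
  have h := val_form0 (SW p) (p := p) (by omega) (SW_q p) hY (redZ (by omega) hq hg) (redZ1 hq hg) hz'
    (redA (by omega) hq hg) (redB h7 hq hg) one_ne_zero (ne_of_red (redt (by omega) ht)) (Dat.id (SW p) _ _)
    (dats (by omega) hq hg ht) x y (by push_cast; linarith) n1 n2 (by
      have : 8 ≤ p := by omega
      nlinarith) (c := 1) (by rw [map_one]; exact one_ne_zero) (by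
      rw [ht, hpx]; ring)
  have e : 4 * (x : WO p) ^ 2 * 1 ^ 2 - 2 * 1 * (p : WO p) = 4 * (x : WO p) ^ 2 - 2 * p := by ring
  rw [map_one, one_pow, one_mul, e] at h
  exact h

/-- the value, Frobenius moving `g` -/
theorem val_conj (h7 : 7 < p) (hq : 3000 * q = 1) (hg : g ^ 2 = 6) (ht : t ^ 2 = -2)
    (hF : (SW p).red g ^ p = -(SW p).red g) {Y : QO (WO p) p} (hY : mk2 (WO p) p (Z q g * (1 - Z q g)) = 27 * Y)
    {x y : ℤ} (hxy : (p : ℤ) = x ^ 2 + 2 * y ^ 2) :
    SS p Y = mk2 (WO p) p ((4 * (x : WO p) ^ 2 - 2 * p) * U q (-g) t ^ 2) := by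
  have hz' : (SW p).red (Z q (-g)) = (SW p).red (Z q g) ^ p :=
    frobZ hq (ε := -1) (by rw [hF, neg_one_mul]) (g' := -g) (by rw [map_neg, neg_one_mul]) (Z q)
      2592 (-162) (Zf q)
  have n2 : ¬ (p : ℤ) ∣ ((2 : ℕ) : ℤ) := nd23 (p := p) (by omega) (n := 2) (l := [2]) (by norm_num) (by simp)
  have n1 : ¬ (p : ℤ) ∣ ((1 : ℕ) : ℤ) := by
    intro h; exact (Nat.prime_iff_prime_int.mp hp.out).not_isUnit (isUnit_of_dvd_one (by exact_mod_cast h))
  have hpx : (p : WO p) = (x : WO p) ^ 2 + 2 * (y : WO p) ^ 2 := by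
    exact_mod_cast congrArg (Int.cast : ℤ → WO p) hxy
  have h := val_form0 (SW p) (p := p) (by omega) (SW_q p) hY (redZ (by omega) hq hg) (redZ1 hq hg) hz'
    (redA (by omega) hq hg) (redB h7 hq hg) (ne_of_red (redU hq hg ht)) (ne_of_red (redMU (by omega) hq hg))
    (dat1 hq hg ht) (dat2 (by omega) hq hg) x y (by push_cast; linarith) n1 n2 (by
      have : 8 ≤ p := by omega
      nlinarith) (c := U q g t ^ 2) (by rw [map_pow]; exact pow_ne_zero 2 (redU hq hg ht)) (by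
      rw [MU2 ht, hpx]; ring)
  have huu := congrArg (mk2 (WO p) p) (UU hq hg ht)
  rw [map_mul, map_one] at huu
  rw [map_mul, map_pow]
  rw [map_sub, map_mul, map_mul, map_mul, map_mul, map_pow, map_pow] at h
  rw [map_sub, map_mul, map_mul, map_pow]
  set a := mk2 (WO p) p (U q g t)
  set b := mk2 (WO p) p (U q (-g) t)
  set pp := mk2 (WO p) p (p : WO p)
  set c4 := mk2 (WO p) p 4
  set c2 := mk2 (WO p) p 2
  set X := mk2 (WO p) p (x : WO p)
  linear_combination b ^ 4 * h - (SS p Y * (a ^ 3 * b ^ 3 + a ^ 2 * b ^ 2 + a * b + 1)) * huu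
    + ((c4 * X ^ 2 - c2 * pp) * b ^ 2 * (a * b + 1)) * huu

/-- the supersingular case -/
theorem zero_side (h5 : 5 < p) (hq : 3000 * q = 1) (hg : g ^ 2 = 6) (ht : t ^ 2 = -2)
    (h8 : p % 8 = 5 ∨ p % 8 = 7) {Y : QO (WO p) p} (hY : mk2 (WO p) p (Z q g * (1 - Z q g)) = 27 * Y) :
    SS p Y = 0 := by
  refine ss_zero (SW p) (p := p) (by omega) (SW_q p) hY ?_
  have h4 : (SW p).red (4 * Z q g) ≠ 0 := by
    have : (SW p).red 4 ≠ 0 := by
      have := red_int_ne (p := p) (n := 4) (by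
        have := nd23 (p := p) h5 (n := 4) (l := [2, 2]) (by norm_num) (by simp)
        exact_mod_cast this)
      exact_mod_cast this
    rw [map_mul]; exact mul_ne_zero this (redZ h5 hq hg)
  have h := Dat_hs (SW p) (p := p) (by omega) (dats h5 hq hg ht) h4 h4 (redt h5 ht)
  have hFt : (SW p).red t ^ p = -(SW p).red t := by
    have h1 := red_pow_sqrt (p := p) (by omega) (g := t) (d := -2) (by push_cast; exact ht)
    rw [legm2 (by omega), if_neg (by omega)] at h1
    rw [h1]; push_cast; ring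
  rw [hFt] at h
  have h2 : (2 * (SW p).red t) * hs p ((SW p).red (4 * Z q g)) = 0 := by linear_combination h
  have h3 := (mul_eq_zero.mp h2).resolve_left (mul_ne_zero (red2 h5) (redt h5 ht))
  rw [map_mul, map_ofNat, hs_lg (by omega) (by omega)] at h3
  exact h3

end side

section main

variable (p : ℕ) [hp : Fact p.Prime]

theorem data (h5 : 5 < p) : ∃ q g t : WO p, 3000 * q = 1 ∧ g ^ 2 = 6 ∧ t ^ 2 = -2 := by
  obtain ⟨q, hq⟩ := ((SW p).unit_of_red (x := ((3000 : ℤ) : WO p)) (red_int_ne (by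
    have := nd23 (p := p) h5 (n := 3000) (l := [2, 2, 2, 3, 5, 5, 5]) (by norm_num) (by simp)
    exact_mod_cast this))).exists_right_inv
  obtain ⟨g, hg⟩ := wo_isqrt p (by omega) (d := 6) (by
    have := nd23 (p := p) h5 (n := 6) (l := [2, 3]) (by norm_num) (by simp)
    exact_mod_cast this)
  obtain ⟨t, ht⟩ := wo_isqrt p (by omega) (d := -2) (by
    rw [dvd_neg]
    have := nd23 (p := p) h5 (n := 2) (l := [2]) (by norm_num) (by simp)
    exact_mod_cast this)
  push_cast at hq hg ht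
  exact ⟨q, g, t, hq, hg, ht⟩

/-- the arguments of the two cubic sums -/
theorem argY {q g : WO p} (hq : 3000 * q = 1) (hg : g ^ 2 = 6) :
    mk2 (WO p) p (Z q g * (1 - Z q g)) = 27 * (mk2 (WO p) p (S q g) ^ 2 * mk2 (WO p) p (I4 q g) ^ 3) := by
  rw [yy hq hg, map_mul, map_mul, map_pow, map_pow, map_ofNat]

theorem argY2 {q g : WO p} (hq : 3000 * q = 1) (hg : g ^ 2 = 6) :
    mk2 (WO p) p (Z q (-g) * (1 - Z q (-g))) = 27 * (mk2 (WO p) p (S q g) * mk2 (WO p) p (I16 q g) ^ 3) := by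
  rw [yy2 hq hg, map_mul, map_mul, map_pow, map_ofNat]

theorem main (h5 : 5 < p) {wi : R p} (hwi : ((96 : ℤ) : R p) * wi = 1) :
    (∀ x y : ℤ, p % 3 = 1 → (p % 8 = 1 ∨ p % 8 = 3) → (p : ℤ) = x ^ 2 + 2 * y ^ 2 →
      AA p wi = ((4 * x ^ 2 - 2 * p : ℤ) : R p)) ∧
    (∀ x y : ℤ, p % 3 = 2 → (p % 8 = 1 ∨ p % 8 = 3) → (p : ℤ) = x ^ 2 + 2 * y ^ 2 →
      AA p wi = ((-(4 * x ^ 2 - 2 * p) : ℤ) : R p)) ∧
    ((p % 8 = 5 ∨ p % 8 = 7) → AA p wi = ((0 : ℤ) : R p)) := by
  obtain ⟨q, g, t, hq, hg, ht⟩ := data p (by omega)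
  have hg' : (-g) ^ 2 = 6 := by rw [neg_sq]; exact hg
  have hX : ((96 : ℤ) : WO p) * (S q g * I8 q g ^ 2) = 1 := by push_cast; exact xx hq hg
  have k4 := congrArg (mk2 (WO p) p) (i4 hq hg)
  have k8 := congrArg (mk2 (WO p) p) (i8 hq hg)
  have k16 := congrArg (mk2 (WO p) p) (i16 hq hg)
  have k8' := congrArg (mk2 (WO p) p) (i8 hq hg')
  rw [map_mul, map_add, map_mul, map_one, map_ofNat] at k4 k8 k16 k8'
  have u3 : IsUnit (3 : QO (WO p) p) := by
    have h1 : IsUnit (((3 : ℤ)) : WO p) := (SW p).unit_of_red (red_int_ne (by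
      have := nd23 (p := p) (by omega) (n := 3) (l := [3]) (by norm_num) (by simp)
      exact_mod_cast this))
    have := h1.map (mk2 (WO p) p)
    rwa [map_intCast, Int.cast_ofNat] at this
  have hpp := mk2_p (O := WO p) (p := p)
  have hgF := red_pow_sqrt (p := p) (by omega) (g := g) (d := 6) (by push_cast; exact hg)
  rw [leg6 (by omega) (by omega)] at hgF
  refine ⟨fun x y h3 h8 hxy => ?_, fun x y h3 h8 hxy => ?_, fun h8 => ?_⟩
  · have h7 : 7 < p := by omega
    rw [if_pos h8, if_pos h3] at hgF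
    push_cast at hgF
    replace hgF : (SW p).red g ^ p = (SW p).red g := by rw [hgF]; ring
    have hgF' : (SW p).red (-g) ^ p = (SW p).red (-g) := by
      have h1 : ∀ x : kb p, x ^ p = frobenius (kb p) p x := fun _ => rfl
      rw [map_neg, h1, map_neg, ← h1, hgF]
    have v1 := val_same h7 hq hg ht hgF (argY p hq hg) hxy
    have v2 := val_same h7 hq hg' ht hgF' (argY2 p hq hg) hxy
    obtain ⟨δ, hδ⟩ := red_lift (p := p) (x := S q g) (y := S q g) (by
      refine (frobZ hq (ε := 1) (by rw [hgF, one_mul]) (g' := g) (by rw [one_mul]) (S q) 1875 750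
        (Sf q)).symm)
    have hδ' := congrArg (mk2 (WO p) p) hδ
    rw [map_pow, map_add, map_mul, map_natCast] at hδ'
    have key := club_same (p := p) hpp (by omega) k4 k8 k16 hδ' u3 (by rw [v1, v2])
    refine aa_transfer hX hwi ?_
    rw [map_mul, map_pow, key, v1]
    push_cast
    rw [map_sub, map_mul, map_mul, map_pow, map_intCast, map_natCast, map_ofNat, map_ofNat]
  · have h7 : 7 < p := by omega
    rw [if_pos h8, if_neg (by omega)] at hgF
    push_cast at hgF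
    replace hgF : (SW p).red g ^ p = -(SW p).red g := by rw [hgF]; ring
    have hgF' : (SW p).red (-g) ^ p = -(SW p).red (-g) := by
      have h1 : ∀ x : kb p, x ^ p = frobenius (kb p) p x := fun _ => rfl
      rw [map_neg, h1, map_neg, ← h1, hgF]
    have v1 := val_conj h7 hq hg ht hgF (argY p hq hg) hxy
    have v2 := val_conj h7 hq hg' ht hgF' (argY2 p hq hg) hxy
    rw [neg_neg] at v2
    obtain ⟨δ, hδ⟩ := red_lift (p := p) (x := S q g) (y := S q (-g)) (by
      refine (frobZ hq (ε := -1) (by rw [hgF, neg_one_mul]) (g' := -g)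
        (by rw [map_neg, neg_one_mul]) (S q) 1875 750 (Sf q)).symm)
    have hδ' := congrArg (mk2 (WO p) p) hδ
    rw [map_pow, map_add, map_mul, map_natCast] at hδ'
    have r1 := congrArg (mk2 (WO p) p) (rel1 hq hg ht)
    have r2 := congrArg (mk2 (WO p) p) (rel2 hq hg ht)
    rw [map_mul, map_mul, map_add, map_mul, map_one, map_pow, map_mul, map_mul, map_add, map_mul, map_one,
      map_pow, map_ofNat, map_ofNat] at r1
    rw [map_mul, map_mul, map_add, map_mul, map_one, map_pow, map_neg, map_mul, map_add, map_mul, map_one,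
      map_ofNat, map_ofNat] at r2
    rw [map_mul, map_pow] at v1 v2
    have key := club_fin (p := p) hpp (by omega) k4 k8 k16 hδ' (IsUnit.of_mul_eq_one _ k8') u3 (by
      rw [v1, v2]
      linear_combination mk2 (WO p) p (4 * (x : WO p) ^ 2 - 2 * p) * r1)
    refine aa_transfer hX hwi ?_
    rw [map_mul, map_pow]
    have hu : IsUnit (mk2 (WO p) p (I8 q g) * (1 + 8 * mk2 (WO p) p (S q (-g)))) :=
      (IsUnit.of_mul_eq_one (1 + 8 * mk2 (WO p) p (S q g)) (by linear_combination k8)).mul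
        (IsUnit.of_mul_eq_one _ k8')
    apply hu.mul_left_cancel
    rw [key, v1]
    push_cast
    rw [map_sub, map_mul, map_mul, map_pow, map_intCast, map_natCast, map_ofNat, map_ofNat]
    linear_combination (4 * (x : QO (WO p) p) ^ 2 - 2 * (p : QO (WO p) p)) * r2
  · have v1 := zero_side (by omega) hq hg ht h8 (argY p hq hg)
    have v2 := zero_side (by omega) hq hg' ht h8 (argY2 p hq hg)
    have key := club_zero (p := p) hpp (by omega) k4 k8 k16 u3 v2 v1
    refine aa_transfer hX hwi ?_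
    rw [map_mul, map_pow, key, Int.cast_zero]

end main

end Pool.Agent.H578.CM.M96
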