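import Pool.Agent.H578.CM.Lp3

set_option autoImplicit false
set_option linter.unusedSectionVars false
set_option maxHeartbeats 4000000

/-!
# Level six: four conjugate parameters and the isogenies of degree two and three
-/

namespace Pool.Agent.H578.CM

open Finset Pool.Agent.H546 Pool.Agent.H547
open Pool.Agent.Q267.CDE (R)

section ring

variable {B : Type*} [CommRing B]

/-- the four conjugate parameters -/
structure Q4 (m : ℤ) (w w2 w3 w6 : B) : Prop where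
  e2 : 8 * w * w2 = -1
  e2' : 8 * w3 * w6 = -1
  e3 : 8 * w * w3 = 1 + w + w3
  e3' : 8 * w2 * w6 = 1 + w2 + w6
  em : (1 - 8 * (w * w3)) ^ 2 = -m * (w * w3)
  em' : (1 - 8 * (w2 * w6)) ^ 2 = -m * (w2 * w6)

variable {m : ℤ} {w w2 w3 w6 : B}

theorem Q4.t2 (h : Q4 m w w2 w3 w6) : Q4 m w2 w w6 w3 :=
  ⟨by linear_combination h.e2, by linear_combination h.e2', h.e3', h.e3, h.em', h.em⟩

theorem Q4.t3 (h : Q4 m w w2 w3 w6) : Q4 m w3 w6 w w2 :=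
  ⟨h.e2', h.e2, by linear_combination h.e3, by linear_combination h.e3', by linear_combination h.em,
    by linear_combination h.em'⟩

theorem Q4.t6 (h : Q4 m w w2 w3 w6) : Q4 m w6 w3 w2 w := h.t3.t2

/-- the inverse of `1 - 2w` -/
noncomputable def Jw (w : B) : B := Ring.inverse (1 - 2 * w)

/-- the argument -/
noncomputable def Zw (w : B) : B := 27 * w ^ 2 * Jw w ^ 3

/-- the multiplier of the 2-isogeny -/
noncomputable def MUw (w : B) : B := (1 + 4 * w) * Jw w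

/-- `1/(1+4s)` -/
noncomputable def I4w (w : B) : B := (1 - 8 * w) * Jw w ^ 2

/-- all `1 - 2w` are units -/
structure U4 (w w2 w3 w6 : B) : Prop where
  u : (1 - 2 * w) * Jw w = 1
  u2 : (1 - 2 * w2) * Jw w2 = 1
  u3 : (1 - 2 * w3) * Jw w3 = 1
  u6 : (1 - 2 * w6) * Jw w6 = 1

theorem U4.t2 (h : U4 w w2 w3 w6) : U4 w2 w w6 w3 := ⟨h.u2, h.u, h.u6, h.u3⟩
theorem U4.t3 (h : U4 w w2 w3 w6) : U4 w3 w6 w w2 := ⟨h.u3, h.u6, h.u, h.u2⟩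

theorem Jw_eq {w j : B} (h : (1 - 2 * w) * j = 1) : Jw w = j := by
  have hu : IsUnit (1 - 2 * w) := IsUnit.of_mul_eq_one _ h
  have h1 : (1 - 2 * w) * Jw w = 1 := Ring.mul_inverse_cancel _ hu
  apply hu.mul_left_cancel
  rw [h1, h]

theorem Jw_mul {w : B} (h : IsUnit (1 - 2 * w)) : (1 - 2 * w) * Jw w = 1 := Ring.mul_inverse_cancel _ h

/-! ### identities -/

theorem w_root (hj : (1 - 2 * w) * Jw w = 1) : (3 - 36 * w ^ 2 * Jw w ^ 2) ^ 3 +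
    ca (4 * Zw w) * (3 - 36 * w ^ 2 * Jw w ^ 2) + cb (4 * Zw w) = 0 := by
  unfold Zw
  generalize Jw w = j at *
  simp only [ca, cb]
  linear_combination (23328 * w ^ 5 * j ^ 5 + 11664 * w ^ 4 * j ^ 5 - 11664 * w ^ 4 * j ^ 4) * hj

/-- the inverse of `1 + 4w` -/
theorem w_n (h : Q4 m w w2 w3 w6) (u : U4 w w2 w3 w6) : (1 + 4 * w) * (-2 * w2 * Jw w2) = 1 := by
  linear_combination (-Jw w2) * h.e2 + u.u2

theorem w_A2 (h : Q4 m w w2 w3 w6) : 4 * Zw w2 = 108 * w * (-2 * w2 * Jw w2) ^ 3 := by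
  unfold Zw
  linear_combination (108 * w2 ^ 2 * Jw w2 ^ 3) * h.e2

theorem w_twoa (h : Q4 m w w2 w3 w6) (u : U4 w w2 w3 w6) :
    ca (4 * Zw w) - 5 * (3 * (3 - 36 * w ^ 2 * Jw w ^ 2) ^ 2 + ca (4 * Zw w)) = MUw w ^ 4 * ca (4 * Zw w2) := by
  have hn := w_n h u
  rw [w_A2 h]
  have hj := u.u
  generalize -2 * w2 * Jw w2 = n at *
  unfold Zw MUw
  generalize Jw w = j at *
  simp only [ca]
  linear_combination (6264 * w ^ 3 * j ^ 3 - 324 * w ^ 2 * j ^ 3 - 3132 * w ^ 2 * j ^ 2 - 162 * w * j ^ 3 - 108 * w * j ^ 2 - 54 * w * j + 27 * j ^ 3 + 27 * j ^ 2 + 27 * j + 27) * hj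
    + (-648 * j ^ 4 * w * (1 + 4 * w) * (((1 + 4 * w) * n) ^ 2 + (1 + 4 * w) * n + 1)) * hn

theorem w_twob (h : Q4 m w w2 w3 w6) (u : U4 w w2 w3 w6) :
    cb (4 * Zw w) - 7 * (3 * (3 - 36 * w ^ 2 * Jw w ^ 2) ^ 2 + ca (4 * Zw w)) * (3 - 36 * w ^ 2 * Jw w ^ 2) =
      MUw w ^ 6 * cb (4 * Zw w2) := by
  have hn := w_n h u
  rw [w_A2 h]
  have hj := u.u
  generalize -2 * w2 * Jw w2 = n at *
  unfold Zw MUw
  generalize Jw w = j at *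
  simp only [ca, cb]
  linear_combination (-379296 * w ^ 5 * j ^ 5 - 23760 * w ^ 4 * j ^ 5 + 189648 * w ^ 4 * j ^ 4 + 23760 * w ^ 3 * j ^ 5 + 25056 * w ^ 3 * j ^ 4 + 27648 * w ^ 3 * j ^ 3 - 216 * w ^ 2 * j ^ 5 + 648 * w ^ 2 * j ^ 4 + 1296 * w ^ 2 * j ^ 3 - 13824 * w ^ 2 * j ^ 2 + 540 * w * j ^ 5 + 432 * w * j ^ 4 + 324 * w * j ^ 3 + 216 * w * j ^ 2 + 108 * w * j - 54 * j ^ 5 - 54 * j ^ 4 - 54 * j ^ 3 - 54 * j ^ 2 - 54 * j - 54) * hj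
    + (-(11664 * j ^ 6 * w ^ 2 * (((1 + 4 * w) * n) ^ 5 + ((1 + 4 * w) * n) ^ 4 + ((1 + 4 * w) * n) ^ 3 +
      ((1 + 4 * w) * n) ^ 2 + (1 + 4 * w) * n + 1)) + 1944 * j ^ 6 * w * (1 + 4 * w) ^ 3 *
      (((1 + 4 * w) * n) ^ 2 + (1 + 4 * w) * n + 1)) * hn

theorem w_t (hj : (1 - 2 * w) * Jw w = 1) : 3 * (3 - 36 * w ^ 2 * Jw w ^ 2) ^ 2 + ca (4 * Zw w) =
    1296 * w ^ 3 * (1 + w) * Jw w ^ 4 := by
  unfold Zw
  generalize Jw w = j at *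
  simp only [ca]
  linear_combination (-1296 * w ^ 3 * j ^ 3 + 648 * w ^ 2 * j ^ 2) * hj

theorem w_1z (hj : (1 - 2 * w) * Jw w = 1) : 1 - Zw w = (1 + w) ^ 2 * (1 - 8 * w) * Jw w ^ 3 := by
  unfold Zw
  generalize Jw w = j at *
  linear_combination (-4 * w ^ 2 * j ^ 2 + 4 * w * j ^ 2 + 2 * w * j - j ^ 2 - j - 1) * hj

theorem w_j3 (h : Q4 m w w2 w3 w6) (u : U4 w w2 w3 w6) : 3 * Jw w3 = -(8 * w - 1) * Jw w := by
  linear_combination (-3 * Jw w3) * u.u - ((8 * w - 1) * Jw w) * u.u3 +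
    (-2 * Jw w3 * Jw w) * h.e3

theorem w_w3 (h : Q4 m w w2 w3 w6) : w3 * (8 * w - 1) = 1 + w := by linear_combination h.e3

theorem w_3 (h : Q4 m w w2 w3 w6) (u : U4 w w2 w3 w6) : 4 - 4 * Zw w = 4 * Zw w3 := by
  have e : 4 - 4 * Zw w = 4 * (1 - Zw w) := by ring
  rw [e, w_1z u.u]
  have h1 := w_j3 h u
  have h2 := w_w3 h
  unfold Zw
  linear_combination (-4 * w3 ^ 2 * ((3 * Jw w3) ^ 2 + (3 * Jw w3) * (-(8 * w - 1) * Jw w) +
    (-(8 * w - 1) * Jw w) ^ 2)) * h1 + (4 * (8 * w - 1) * Jw w ^ 3 * (w3 * (8 * w - 1) + (1 + w))) * h2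

/-- the relation between multipliers -/
theorem w_mu3 (h : Q4 m w w2 w3 w6) (u : U4 w w2 w3 w6) : 3 * MUw w3 = -(3 * MUw w) := by
  have h1 := w_j3 h u
  have h2 := w_w3 h
  unfold MUw
  linear_combination (1 + 4 * w3) * h1 - 4 * Jw w * h2

theorem w_mu2 (h : Q4 m w w2 w3 w6) (u : U4 w w2 w3 w6) : MUw w * MUw w2 = -2 := by
  have h1 := w_n h u
  have h2 := w_n h.t2 u.t2
  have h0 := h.e2
  unfold MUw
  linear_combination ((1 + 4 * w) * Jw w * ((1 + 4 * w2) * Jw w2)) * h0 -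
    2 * ((1 + 4 * w2) * (-2 * w * Jw w)) * h1 - 2 * h2

theorem w_mu6 (h : Q4 m w w2 w3 w6) (u : U4 w w2 w3 w6) : 3 * (MUw w * MUw w6) = 6 := by
  linear_combination MUw w * w_mu3 h.t2 u.t2 - 3 * w_mu2 h u

theorem w_I4 (h : Q4 m w w2 w3 w6) (u : U4 w w2 w3 w6) : (1 - 4 * (w * w3)) * I4w w = 1 := by
  unfold I4w
  linear_combination (4 * w * Jw w ^ 2) * h.e3 + ((1 - 2 * w) * Jw w + 1) * u.u

theorem w_musq (h : Q4 m w w2 w3 w6) : MUw w ^ 2 = (1 - 16 * (w * w3)) * I4w w := by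
  unfold I4w MUw
  linear_combination (-16 * w * Jw w ^ 2) * h.e3

theorem w_64 (h : Q4 m w w2 w3 w6) : 64 * (w * w3) * (w2 * w6) = 1 := by
  linear_combination (8 * w3 * w6) * h.e2 - h.e2'

theorem w_I16 (h : Q4 m w w2 w3 w6) (u : U4 w w2 w3 w6) :
    (1 - 16 * (w * w3)) * (-4 * (w2 * w6) * I4w w2) = 1 := by
  linear_combination w_I4 h.t2 u.t2 + I4w w2 * w_64 h

theorem w_Y (h : Q4 m w w2 w3 w6) (u : U4 w w2 w3 w6) :
    Zw w * (1 - Zw w) = 27 * ((-(w * w3)) ^ 2 * I4w w ^ 3) := by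
  rw [w_1z u.u]
  have h2 := w_w3 h
  unfold Zw I4w
  linear_combination (-27 * w ^ 2 * Jw w ^ 6 * (1 - 8 * w) * (w3 * (8 * w - 1) + (1 + w))) * h2

theorem w_Y2 (h : Q4 m w w2 w3 w6) (u : U4 w w2 w3 w6) :
    Zw w2 * (1 - Zw w2) = 27 * ((-(w * w3)) * (-4 * (w2 * w6) * I4w w2) ^ 3) := by
  rw [w_Y h.t2 u.t2]
  linear_combination (-27 * (w2 * w6) ^ 2 * I4w w2 ^ 3) * w_64 h

theorem w_m4 (h : Q4 m w w2 w3 w6) : 16 * (1 - 4 * (w * w3)) * (1 - 4 * (w2 * w6)) = m + 4 := by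
  linear_combination (-64 * (w2 * w6)) * h.em + (m + 64 * (w * w3) - 12) * w_64 h

/-- `1/(1+8s)` -/
def I8w (μ w w2 w3 w6 : B) : B := (1 - 8 * (w * w3)) * μ * (-64 * (w2 * w6))

theorem w_I8 (h : Q4 m w w2 w3 w6) {μ : B} (hμ : (m : B) * μ = 1) :
    (1 - 8 * (w * w3)) * I8w μ w w2 w3 w6 = 1 := by
  unfold I8w
  linear_combination (-64 * μ * (w2 * w6)) * h.em + (64 * (w * w3) * (w2 * w6)) * hμ + w_64 h

theorem w_x (h : Q4 m w w2 w3 w6) {μ : B} (hμ : (m : B) * μ = 1) :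
    (m : B) * (-(w * w3) * I8w μ w w2 w3 w6 ^ 2) = 1 := by
  have h1 := w_I8 h hμ
  linear_combination (I8w μ w w2 w3 w6 ^ 2) * (-1) * h.em + ((1 - 8 * (w * w3)) * I8w μ w w2 w3 w6 + 1) * h1

theorem w_8 (h : Q4 m w w2 w3 w6) {μ : B} (hμ : (m : B) * μ = 1) :
    I8w μ w w2 w3 w6 * (1 - 8 * (w2 * w6)) = -8 * (w2 * w6) := by
  have h1 := w_I8 h hμ
  linear_combination (-8 * (w2 * w6)) * h1 - I8w μ w w2 w3 w6 * w_64 h

theorem w_r1 (h : Q4 m w w2 w3 w6) {μ : B} (hμ : (m : B) * μ = 1) :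
    2 * (I4w w * (1 - 4 * (w2 * w6))) = I8w μ w w2 w3 w6 * (1 - 8 * (w2 * w6)) * MUw w ^ 2 := by
  rw [w_8 h hμ, w_musq h]
  linear_combination (-2 * I4w w) * w_64 h

theorem w_r2 (h : Q4 m w w2 w3 w6) {μ : B} (hμ : (m : B) * μ = 1) :
    2 * (-4 * (w2 * w6) * I4w w2 * (1 - 16 * (w2 * w6))) =
      I8w μ w w2 w3 w6 * (1 - 8 * (w2 * w6)) * MUw w2 ^ 2 := by
  rw [w_8 h hμ, w_musq h.t2]
  ring

end ring

section units

variable {B : Type*} [CommRing B] {m : ℤ} {w w2 w3 w6 : B}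

theorem u_w (h : Q4 m w w2 w3 w6) : IsUnit w :=
  IsUnit.of_mul_eq_one (-8 * w2) (by linear_combination (-1 : B) * h.e2)

theorem u_8w (h : Q4 m w w2 w3 w6) (h3 : IsUnit (3 : B)) : IsUnit (8 * w - 1) := by
  have h9 : IsUnit ((8 * w - 1) * (8 * w3 - 1)) := by
    have : (8 * w - 1) * (8 * w3 - 1) = 3 * 3 := by linear_combination 8 * h.e3
    rw [this]; exact h3.mul h3
  exact isUnit_of_mul_isUnit_left h9

theorem u_1w (h : Q4 m w w2 w3 w6) (h3 : IsUnit (3 : B)) : IsUnit (1 + w) := by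
  rw [← w_w3 h]; exact (u_w h.t3).mul (u_8w h h3)

theorem u_12 (h : Q4 m w w2 w3 w6) (h3 : IsUnit (3 : B)) (hm : IsUnit ((m : B) + 4)) : IsUnit (1 - 2 * w) := by
  have h1 : IsUnit ((8 * w - 1) * (1 - 4 * (w * w3))) := by
    refine (u_8w h h3).mul ?_
    rw [← w_m4 h] at hm
    exact isUnit_of_mul_isUnit_right (isUnit_of_mul_isUnit_left hm)
  have h2 : (8 * w - 1) * (1 - 4 * (w * w3)) = (1 - 2 * w) * (-(1 - 2 * w)) := by
    linear_combination (-4 * w) * h.e3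
  rw [h2] at h1
  exact isUnit_of_mul_isUnit_left h1

theorem u_4 (h : Q4 m w w2 w3 w6) (h3 : IsUnit (3 : B)) (hm : IsUnit ((m : B) + 4)) : U4 w w2 w3 w6 :=
  ⟨Jw_mul (u_12 h h3 hm), Jw_mul (u_12 h.t2 h3 hm), Jw_mul (u_12 h.t3 h3 hm), Jw_mul (u_12 h.t3.t2 h3 hm)⟩

theorem u_14 (h : Q4 m w w2 w3 w6) (u : U4 w w2 w3 w6) : IsUnit (1 + 4 * w) :=
  IsUnit.of_mul_eq_one _ (w_n h u)

theorem u_J (hj : (1 - 2 * w) * Jw w = 1) : IsUnit (Jw w) :=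
  IsUnit.of_mul_eq_one (1 - 2 * w) (by linear_combination hj)

theorem u_MU (h : Q4 m w w2 w3 w6) (u : U4 w w2 w3 w6) : IsUnit (MUw w) := (u_14 h u).mul (u_J u.u)

end units

section dat

variable {O K k : Type*} [CommRing O] [IsDomain O] [Field K] [Algebra O K] [Field k]
  (S : DV O K k) {m : ℤ} {w w2 w3 w6 : O}

/-- an isogeny between the curves of the parameters -/
def DW (w w' μ : O) (l : ℕ) : Prop :=
  Dat S (cub (ca (4 * Zw w)) (cb (4 * Zw w))) (ca (4 * Zw w')) (cb (4 * Zw w')) μ l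

theorem red_unit {x : O} (h : IsUnit x) : S.red x ≠ 0 := by
  have := h.map S.red
  exact this.ne_zero

theorem u_red {x : O} (h : S.red x ≠ 0) : IsUnit x := S.unit_of_red h

theorem DW.id (w : O) : DW S w w 1 1 := Dat.id S _ _

theorem DW.two {w0 μ : O} {l : ℕ} (h : Q4 m w w2 w3 w6) (u : U4 w w2 w3 w6) (h2 : (2 : k) ≠ 0) (h3 : (3 : k) ≠ 0)
    (d : DW S w0 w μ l) : DW S w0 w2 (μ * MUw w) (2 * l) := by
  have h3u : IsUnit (3 : O) := S.unit_of_red (by rwa [map_ofNat])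
  have h2u : IsUnit (2 : O) := S.unit_of_red (by rwa [map_ofNat])
  have ht : IsUnit (1296 * w ^ 3 * (1 + w) * Jw w ^ 4) := by
    have : (1296 : O) = 2 ^ 4 * 3 ^ 4 := by norm_num
    rw [this]
    exact ((((h2u.pow 4).mul (h3u.pow 4)).mul ((u_w h).pow 3)).mul (u_1w h h3u)).mul ((u_J u.u).pow 4)
  refine Dat_iso S (Dat_two S d (w_root u.u) ?_) (red_unit S (u_MU h u)) (w_twoa h u) (w_twob h u)
  rw [w_t u.u]
  exact red_unit S ht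

theorem DW.three {w0 μ ρ : O} {l : ℕ} (h : Q4 m w w2 w3 w6) (u : U4 w w2 w3 w6) (h2 : (2 : k) ≠ 0)
    (h3 : (3 : k) ≠ 0) (hρ : ρ ^ 2 = -3) (d : DW S w0 w μ l) : DW S w0 w3 (μ * ρ) (3 * l) := by
  have h3u : IsUnit (3 : O) := S.unit_of_red (by rwa [map_ofNat])
  have h2u : IsUnit (2 : O) := S.unit_of_red (by rwa [map_ofNat])
  have hz : IsUnit (4 * Zw w) := by
    have : (4 : O) * Zw w = (2 * 2 * (3 * 3 * 3)) * w ^ 2 * Jw w ^ 3 := by unfold Zw; ring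
    rw [this]
    exact (((h2u.mul h2u).mul ((h3u.mul h3u).mul h3u)).mul ((u_w h).pow 2)).mul ((u_J u.u).pow 3)
  have := Dat.nu S d h2 h3 (red_unit S hz) hρ
  rwa [w_3 h u] at this

end dat

end Pool.Agent.H578.CM
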