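import Pool.Agent.H578.CM.Q4

set_option autoImplicit false
set_option linter.unusedSectionVars false
set_option maxHeartbeats 4000000

/-!
# Level six: values of the sums
-/

namespace Pool.Agent.H578.CM

open Finset Pool.Agent.H546 Pool.Agent.H547
open Pool.Agent.Q267.CDE (R)

section gen

variable {O K k : Type*} [CommRing O] [IsDomain O] [Field K] [Algebra O K] [Field k]
  (S : DV O K k) {p : ℕ} [hp : Fact p.Prime] [CharP k p] [IsAlgClosed k]

/-- the value, from two conjugate combinations -/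
theorem val_two (hp5 : 5 ≤ p) (hq : S.q = (p : O))
    {z z' : O} {Y : QO O p} (hY : mk2 O p (z * (1 - z)) = 27 * Y)
    (hz : S.red z ≠ 0) (hz1 : S.red (1 - z) ≠ 0) (hz' : S.red z' = S.red z ^ p)
    (ha0 : S.red (ca (4 * z)) ≠ 0) (hb0 : S.red (cb (4 * z)) ≠ 0) {m1 m2 : O} {l1 l2 : ℕ}
    (hm1 : m1 ≠ 0) (hm2 : m2 ≠ 0)
    (d1 : Dat S (cub (ca (4 * z)) (cb (4 * z))) (ca (4 * z')) (cb (4 * z')) m1 l1)
    (d2 : Dat S (cub (ca (4 * z)) (cb (4 * z))) (ca (4 * z')) (cb (4 * z')) m2 l2)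
    (r s r' s' t0 : ℤ) (hform : (p : ℤ) = r ^ 2 * l1 + r * s * t0 + s ^ 2 * l2)
    (hform' : (p : ℤ) = r' ^ 2 * l1 + r' * s' * t0 + s' ^ 2 * l2)
    (hl1 : ¬ (p : ℤ) ∣ l1) (hl2 : ¬ (p : ℤ) ∣ l2) (ht0 : t0 ^ 2 ≤ 4 * l1 * l2)
    (hbig : 16 * (l1 * l2) < p ^ 2) {τ c : O}
    (hsum : ((r : O) * m1 + (s : O) * m2) + ((r' : O) * m1 + (s' : O) * m2) = τ)
    (hprod : ((r : O) * m1 + (s : O) * m2) * ((r' : O) * m1 + (s' : O) * m2) = c * p)
    (hc : S.red c ≠ 0) :
    mk2 O p c ^ 2 * SS p Y = mk2 O p (τ ^ 2 - 2 * c * p) := by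
  have h0 : S.red ((r : O) * m1 + (s : O) * m2) * S.red ((r' : O) * m1 + (s' : O) * m2) = 0 := by
    rw [← map_mul, hprod, ← hq, map_mul, S.red_q, mul_zero]
  rcases mul_eq_zero.mp h0 with h | h
  · exact val_form S hp5 hq hY hz hz1 hz' ha0 hb0 hm1 hm2 d1 d2 r s t0 hform hl1 hl2 ht0 hbig rfl h hc
      (by rw [← hprod, ← hsum]; ring)
  · exact val_form S hp5 hq hY hz hz1 hz' ha0 hb0 hm1 hm2 d1 d2 r' s' t0 hform' hl1 hl2 ht0 hbig rfl h hc
      (by rw [← hprod, ← hsum]; ring)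

end gen

section wo

variable {p : ℕ} [hp : Fact p.Prime] {m : ℤ} {w w2 w3 w6 v v2 v3 v6 : WO p}

theorem red_frob_eq {x : kb p} : x ^ p = frobenius (kb p) p x := rfl

/-- the Frobenius on the argument -/
theorem frob_J (h : (SW p).red w ^ p = (SW p).red v) (hj : (1 - 2 * w) * Jw w = 1) (hj' : (1 - 2 * v) * Jw v = 1) :
    (SW p).red (Jw w) ^ p = (SW p).red (Jw v) := by
  have h1 := congrArg (fun x => frobenius (kb p) p ((SW p).red x)) hj
  beta_reduce at h1
  have h2 := congrArg (SW p).red hj'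
  simp only [map_mul, map_sub, map_one, map_ofNat] at h1 h2
  rw [← red_frob_eq, ← red_frob_eq, h] at h1
  have hu : (1 - 2 * (SW p).red v) ≠ 0 := left_ne_zero_of_mul_eq_one h2
  apply mul_left_cancel₀ hu
  rw [h1, h2]

theorem frob_Z (h : (SW p).red w ^ p = (SW p).red v) (hj : (1 - 2 * w) * Jw w = 1) (hj' : (1 - 2 * v) * Jw v = 1) :
    (SW p).red (Zw v) = (SW p).red (Zw w) ^ p := by
  have h1 := frob_J h hj hj'
  unfold Zw
  rw [red_frob_eq]
  simp only [map_mul, map_pow, map_ofNat]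
  rw [← red_frob_eq, ← red_frob_eq, h, h1]

theorem frob_2 (h : (SW p).red w ^ p = (SW p).red v) (q : Q4 m w w2 w3 w6) (q' : Q4 m v v2 v3 v6) :
    (SW p).red w2 ^ p = (SW p).red v2 := by
  have h1 := congrArg (fun x => frobenius (kb p) p ((SW p).red x)) q.e2
  beta_reduce at h1
  have h2 := congrArg (SW p).red q'.e2
  simp only [map_mul, map_neg, map_one, map_ofNat] at h1 h2
  rw [← red_frob_eq, ← red_frob_eq, h] at h1
  have hu : 8 * (SW p).red v ≠ 0 := by
    intro h0; rw [h0, zero_mul] at h2; exact one_ne_zero (by linear_combination h2)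
  apply mul_left_cancel₀ hu
  rw [h1, h2]

theorem frob_3 (h3 : IsUnit (3 : WO p)) (h : (SW p).red w ^ p = (SW p).red v) (q : Q4 m w w2 w3 w6)
    (q' : Q4 m v v2 v3 v6) : (SW p).red w3 ^ p = (SW p).red v3 := by
  have h1 := congrArg (fun x => frobenius (kb p) p ((SW p).red x)) (w_w3 q)
  beta_reduce at h1
  have h2 := congrArg (SW p).red (w_w3 q')
  simp only [map_mul, map_add, map_sub, map_one, map_ofNat] at h1 h2
  rw [← red_frob_eq, ← red_frob_eq, h] at h1
  have hu : 8 * (SW p).red v - 1 ≠ 0 := by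
    have := red_unit (SW p) (u_8w q' h3)
    simpa only [map_sub, map_mul, map_one, map_ofNat] using this
  apply mul_right_cancel₀ hu
  rw [h1, h2]

/-- what is needed at each of the four parameters -/
structure BW (b : ℕ) (w w6 : WO p) : Prop where
  ha : (SW p).red (ca (4 * Zw w)) ≠ 0
  hb : (SW p).red (cb (4 * Zw w)) ≠ 0
  iso : ∃ M : WO p, 2 * M ^ 2 = b * MUw w ^ 2 ∧ DW (SW p) w w6 M b

theorem u3_of (h3 : 3 < p) : IsUnit (3 : WO p) := by
  apply (SW p).unit_of_red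
  have := small_ne (k := kb p) (p := p) (n := 3) (by norm_num) (by omega)
  rw [map_ofNat]
  exact_mod_cast this

theorem u2_of (h3 : 3 < p) : IsUnit (2 : WO p) := by
  apply (SW p).unit_of_red
  have := small_ne (k := kb p) (p := p) (n := 2) (by norm_num) (by omega)
  rw [map_ofNat]
  exact_mod_cast this

theorem k2_of (h3 : 3 < p) : (2 : kb p) ≠ 0 := by
  have := small_ne (k := kb p) (p := p) (n := 2) (by norm_num) (by omega)
  exact_mod_cast this

theorem k3_of (h3 : 3 < p) : (3 : kb p) ≠ 0 := by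
  have := small_ne (k := kb p) (p := p) (n := 3) (by norm_num) (by omega)
  exact_mod_cast this

theorem zne (h3 : 3 < p) (q : Q4 m w w2 w3 w6) (u : U4 w w2 w3 w6) :
    (SW p).red (Zw w) ≠ 0 ∧ (SW p).red (1 - Zw w) ≠ 0 := by
  constructor
  · apply red_unit
    unfold Zw
    have h27 : (27 : WO p) = 3 * 3 * 3 := by norm_num
    rw [h27]
    exact ((((u3_of h3).mul (u3_of h3)).mul (u3_of h3)).mul ((u_w q).pow 2)).mul ((u_J u.u).pow 3)
  · apply red_unit
    rw [w_1z u.u]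
    refine (((u_1w q (u3_of h3)).pow 2).mul ?_).mul ((u_J u.u).pow 3)
    have := (u_8w q (u3_of h3)).neg
    rwa [neg_sub] at this

end wo

end Pool.Agent.H578.CM
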