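import Pool.Agent.H578.CM.Q4b

set_option autoImplicit false
set_option linter.unusedSectionVars false
set_option maxHeartbeats 4000000

/-!
# Level six: the diagonal case
-/

namespace Pool.Agent.H578.CM

open Finset Pool.Agent.H546 Pool.Agent.H547
open Pool.Agent.Q267.CDE (R)

section vals

variable {p : ℕ} [hp : Fact p.Prime] {m : ℤ} {w w2 w3 w6 : WO p}

theorem mu6_eq (h3 : 3 < p) (q : Q4 m w w2 w3 w6) (u : U4 w w2 w3 w6) : MUw w * MUw w6 = 2 := by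
  apply (u3_of h3).mul_left_cancel
  rw [w_mu6 q u]; norm_num

theorem mm_eq (h3 : 3 < p) (q : Q4 m w w2 w3 w6) (u : U4 w w2 w3 w6) {M : WO p} {b : ℕ}
    (hM : 2 * M ^ 2 = b * MUw w ^ 2) : (M * MUw w6) ^ 2 = 2 * b := by
  apply (u2_of h3).mul_left_cancel
  have h := mu6_eq h3 q u
  linear_combination MUw w6 ^ 2 * hM + (b * (MUw w * MUw w6 + 2)) * h

theorem ne_of_sq {x y : WO p} (h : x ^ 2 = y) (hy : y ≠ 0) : x ≠ 0 := by
  rintro rfl; apply hy; rw [← h]; ring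

theorem nat_ne (n : ℕ) (h : ¬ (p : ℤ) ∣ (n : ℤ)) : ((n : ℕ) : WO p) ≠ 0 := by
  intro h0
  have := red_int_ne (p := p) (n := n) h
  apply this
  rw [Int.cast_natCast, h0, map_zero]

theorem nd_mul {a b : ℤ} (h : ¬ (p : ℤ) ∣ a * b) : ¬ (p : ℤ) ∣ a ∧ ¬ (p : ℤ) ∣ b :=
  ⟨fun h' => h (h'.mul_right _), fun h' => h (h'.mul_left _)⟩

variable {b : ℕ} {ρ : WO p}

/-- class `x² + 6b y²` -/
theorem ev1 (h3 : 3 < p) (q : Q4 m w w2 w3 w6) (u : U4 w w2 w3 w6) (B : BW b w w6) (hρ : ρ ^ 2 = -3)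
    (hF : (SW p).red w ^ p = (SW p).red w) {Y : QO (WO p) p} (hY : mk2 (WO p) p (Zw w * (1 - Zw w)) = 27 * Y)
    (hb : ¬ (p : ℤ) ∣ (6 * b)) (hbig : 16 * (6 * b) < p ^ 2) {x y : ℤ} (hxy : (p : ℤ) = x ^ 2 + 6 * b * y ^ 2) :
    SS p Y = mk2 (WO p) p (4 * (x : WO p) ^ 2 - 2 * p) := by
  obtain ⟨M, hM, d⟩ := B.iso
  have h5 : 5 ≤ p := by
    rcases Nat.lt_or_ge p 5 with h | h
    · have : p = 4 := by omega
      rw [this] at hp; exact absurd hp.out (by norm_num)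
    · exact h
  obtain ⟨z0, z1⟩ := zne h3 q u
  have d2 := ((d.two (SW p) q.t6 ⟨u.u6, u.u3, u.u2, u.u⟩ (k2_of h3) (k3_of h3)).three (SW p) q.t3 u.t3
    (k2_of h3) (k3_of h3) hρ)
  have hmm := mm_eq h3 q u hM
  have hm2 : (M * MUw w6 * ρ) ^ 2 = -((6 * b : ℕ) : WO p) := by
    push_cast; linear_combination ρ ^ 2 * hmm + 2 * b * hρ
  have hpx : (p : WO p) = (x : WO p) ^ 2 + 6 * b * (y : WO p) ^ 2 := by
    exact_mod_cast congrArg (Int.cast : ℤ → WO p) hxy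
  have n6 : ((6 * b : ℕ) : WO p) ≠ 0 := nat_ne _ (by push_cast; exact hb)
  have h := val_two (SW p) h5 (SW_q p) hY z0 z1 (frob_Z hF u.u u.u) B.ha B.hb one_ne_zero
    (ne_of_sq hm2 (neg_ne_zero.mpr n6)) (DW.id (SW p) w) d2 x y x (-y) 0
    (by rw [hxy]; push_cast; ring) (by rw [hxy]; push_cast; ring)
    (by
      intro h1; exact (Nat.prime_iff_prime_int.mp hp.out).not_isUnit (isUnit_of_dvd_one (by exact_mod_cast h1)))
    (by intro h1; apply hb; push_cast at h1; rwa [show (3 : ℤ) * (2 * b) = 6 * b by ring] at h1)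
    (by positivity) (by rw [one_mul]; calc 16 * (3 * (2 * b)) = 16 * (6 * b) := by ring
          _ < p ^ 2 := hbig)
    (τ := 2 * x) (c := 1) (by push_cast; ring)
    (by rw [hpx]; push_cast at hm2 ⊢; linear_combination (-(y : WO p) ^ 2) * hm2)
    (by rw [map_one]; exact one_ne_zero)
  rw [map_one, one_pow, one_mul] at h
  rw [h]
  have e : (2 * (x : WO p)) ^ 2 - 2 * 1 * (p : WO p) = 4 * (x : WO p) ^ 2 - 2 * p := by ring
  rw [e]

/-- class `3 x² + 2b y²` -/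
theorem ev3 (h3 : 3 < p) (q : Q4 m w w2 w3 w6) (u : U4 w w2 w3 w6) (B : BW b w w6) (hρ : ρ ^ 2 = -3)
    (hF : (SW p).red w ^ p = (SW p).red w3) {Y : QO (WO p) p} (hY : mk2 (WO p) p (Zw w * (1 - Zw w)) = 27 * Y)
    (hb : ¬ (p : ℤ) ∣ (6 * b)) (hbig : 16 * (6 * b) < p ^ 2) {x y : ℤ}
    (hxy : (p : ℤ) = 3 * x ^ 2 + 2 * b * y ^ 2) :
    SS p Y = mk2 (WO p) p (2 * p - 12 * (x : WO p) ^ 2) := by
  obtain ⟨M, hM, d⟩ := B.iso
  have h5 : 5 ≤ p := by
    rcases Nat.lt_or_ge p 5 with h | h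
    · have : p = 4 := by omega
      rw [this] at hp; exact absurd hp.out (by norm_num)
    · exact h
  obtain ⟨z0, z1⟩ := zne h3 q u
  have d1 := (DW.id (SW p) w).three (SW p) q u (k2_of h3) (k3_of h3) hρ
  have d2 := d.two (SW p) q.t6 ⟨u.u6, u.u3, u.u2, u.u⟩ (k2_of h3) (k3_of h3)
  have hmm := mm_eq h3 q u hM
  have hpx : (p : WO p) = 3 * (x : WO p) ^ 2 + 2 * b * (y : WO p) ^ 2 := by
    exact_mod_cast congrArg (Int.cast : ℤ → WO p) hxy
  have hb3 : ¬ (p : ℤ) ∣ (3 : ℤ) * (2 * b) := by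
    rwa [show (3 : ℤ) * (2 * b) = 6 * b by ring]
  obtain ⟨nd3, nd2b⟩ := nd_mul hb3
  have h := val_two (SW p) h5 (SW_q p) hY z0 z1 (frob_Z hF u.u u.u3) B.ha B.hb
    (ne_of_sq (y := -((3 : ℕ) : WO p)) (by push_cast; linear_combination hρ)
      (neg_ne_zero.mpr (nat_ne _ (by exact_mod_cast nd3))))
    (ne_of_sq (y := ((2 * b : ℕ) : WO p)) (by push_cast; exact hmm) (nat_ne _ (by exact_mod_cast nd2b)))
    d1 d2 x y x (-y) 0
    (by rw [hxy]; push_cast; ring) (by rw [hxy]; push_cast; ring)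
    (by exact_mod_cast nd3) (by exact_mod_cast nd2b)
    (by positivity) (by calc 16 * (3 * 1 * (2 * b)) = 16 * (6 * b) := by ring
          _ < p ^ 2 := hbig)
    (τ := 2 * x * ρ) (c := -1) (by push_cast; ring)
    (by rw [hpx]; push_cast; linear_combination (x : WO p) ^ 2 * hρ - (y : WO p) ^ 2 * hmm)
    (by rw [map_neg, map_one]; exact neg_ne_zero.mpr one_ne_zero)
  rw [map_neg, map_one, neg_sq, one_pow, one_mul] at h
  rw [h]
  have e : (2 * (x : WO p) * ρ) ^ 2 - 2 * (-1) * (p : WO p) = 2 * p - 12 * (x : WO p) ^ 2 := by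
    linear_combination (4 * (x : WO p) ^ 2) * hρ
  rw [e]

/-- class `2 x² + 3b y²` -/
theorem ev2 (h3 : 3 < p) (q : Q4 m w w2 w3 w6) (u : U4 w w2 w3 w6) (B : BW b w w6) (hρ : ρ ^ 2 = -3)
    (hF : (SW p).red w ^ p = (SW p).red w2) {Y : QO (WO p) p} (hY : mk2 (WO p) p (Zw w * (1 - Zw w)) = 27 * Y)
    (hb : ¬ (p : ℤ) ∣ (6 * b)) (hbig : 16 * (6 * b) < p ^ 2) {x y : ℤ}
    (hxy : (p : ℤ) = 2 * x ^ 2 + 3 * b * y ^ 2) :
    mk2 (WO p) p (MUw w) ^ 2 * SS p Y = mk2 (WO p) p (2 * (8 * (x : WO p) ^ 2 - 2 * p)) := by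
  obtain ⟨M, hM, d⟩ := B.iso
  have h5 : 5 ≤ p := by
    rcases Nat.lt_or_ge p 5 with h | h
    · have : p = 4 := by omega
      rw [this] at hp; exact absurd hp.out (by norm_num)
    · exact h
  obtain ⟨z0, z1⟩ := zne h3 q u
  have d1 := (DW.id (SW p) w).two (SW p) q u (k2_of h3) (k3_of h3)
  have d2 := d.three (SW p) q.t6 ⟨u.u6, u.u3, u.u2, u.u⟩ (k2_of h3) (k3_of h3) hρ
  obtain ⟨η, hη⟩ := (u2_of (p := p) h3).exists_right_inv
  have hpx : (p : WO p) = 2 * (x : WO p) ^ 2 + 3 * b * (y : WO p) ^ 2 := by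
    exact_mod_cast congrArg (Int.cast : ℤ → WO p) hxy
  have hb3 : ¬ (p : ℤ) ∣ (2 : ℤ) * (3 * b) := by
    rwa [show (2 : ℤ) * (3 * b) = 6 * b by ring]
  obtain ⟨nd2, nd3b⟩ := nd_mul hb3
  have uMU := u_MU q u
  have hMU0 : MUw w ≠ 0 := uMU.ne_zero
  have hM0 : M ≠ 0 := by
    rintro rfl
    have : (b : WO p) * MUw w ^ 2 = 0 := by rw [← hM]; ring
    rcases mul_eq_zero.mp this with h | h
    · exact nat_ne b (nd_mul nd3b).2 h
    · exact hMU0 (pow_eq_zero_iff (by norm_num) |>.mp h)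
  have hρ0 : ρ ≠ 0 := ne_of_sq (y := -3) hρ (neg_ne_zero.mpr (u3_of h3).ne_zero)
  have uη : IsUnit η := IsUnit.of_mul_eq_one 2 (by rw [mul_comm]; exact hη)
  have h := val_two (SW p) h5 (SW_q p) hY z0 z1 (frob_Z hF u.u u.u2) B.ha B.hb
    (by rw [one_mul]; exact hMU0) (mul_ne_zero hM0 hρ0)
    d1 d2 x y x (-y) 0
    (by rw [hxy]; push_cast; ring) (by rw [hxy]; push_cast; ring)
    (by exact_mod_cast nd2) (by exact_mod_cast nd3b)
    (by positivity) (by calc 16 * (2 * 1 * (3 * b)) = 16 * (6 * b) := by ring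
          _ < p ^ 2 := hbig)
    (τ := 2 * x * MUw w) (c := η * MUw w ^ 2) (by push_cast; ring)
    (by
      rw [hpx]; push_cast
      linear_combination (-(x : WO p) ^ 2 * MUw w ^ 2 - 3 * η * b * (y : WO p) ^ 2 * MUw w ^ 2 * 0 -
        3 * (y : WO p) ^ 2 * M ^ 2) * hη + (3 * η * (y : WO p) ^ 2) * hM - (M ^ 2 * (y : WO p) ^ 2) * hρ)
    (red_unit (SW p) (uη.mul (uMU.pow 2)))
  have hη' := congrArg (mk2 (WO p) p) hη
  rw [map_mul, map_ofNat, map_one] at hη'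
  rw [map_sub, map_mul, map_pow, map_pow, map_mul, map_mul, map_mul, map_mul, map_mul, map_pow, map_ofNat,
    map_natCast, map_intCast] at h
  rw [map_mul, map_sub, map_mul, map_mul, map_pow, map_ofNat, map_ofNat, map_natCast, map_intCast]
  have uM2 := (uMU.map (mk2 (WO p) p)).pow 2
  apply uM2.mul_left_cancel
  set μ := mk2 (WO p) p (MUw w)
  set e := mk2 (WO p) p η
  set V := SS p Y
  linear_combination 4 * h - (μ ^ 4 * V * (2 * e + 1) + 4 * (p : QO (WO p) p) * μ ^ 2) * hη'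

/-- class `6 x² + b y²` -/
theorem ev6 (h3 : 3 < p) (q : Q4 m w w2 w3 w6) (u : U4 w w2 w3 w6) (B : BW b w w6) (hρ : ρ ^ 2 = -3)
    (hF : (SW p).red w ^ p = (SW p).red w6) {Y : QO (WO p) p} (hY : mk2 (WO p) p (Zw w * (1 - Zw w)) = 27 * Y)
    (hb : ¬ (p : ℤ) ∣ (6 * b)) (hbig : 16 * (6 * b) < p ^ 2) {x y : ℤ}
    (hxy : (p : ℤ) = 6 * x ^ 2 + b * y ^ 2) :
    mk2 (WO p) p (MUw w) ^ 2 * SS p Y = mk2 (WO p) p (2 * (2 * p - 24 * (x : WO p) ^ 2)) := by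
  obtain ⟨M, hM, d⟩ := B.iso
  have h5 : 5 ≤ p := by
    rcases Nat.lt_or_ge p 5 with h | h
    · have : p = 4 := by omega
      rw [this] at hp; exact absurd hp.out (by norm_num)
    · exact h
  obtain ⟨z0, z1⟩ := zne h3 q u
  have d1 := ((DW.id (SW p) w).two (SW p) q u (k2_of h3) (k3_of h3)).three (SW p) q.t2 u.t2 (k2_of h3) (k3_of h3) hρ
  obtain ⟨η, hη⟩ := (u2_of (p := p) h3).exists_right_inv
  have hpx : (p : WO p) = 6 * (x : WO p) ^ 2 + b * (y : WO p) ^ 2 := by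
    exact_mod_cast congrArg (Int.cast : ℤ → WO p) hxy
  obtain ⟨nd6, ndb⟩ := nd_mul hb
  have uMU := u_MU q u
  have hMU0 : MUw w ≠ 0 := uMU.ne_zero
  have hM0 : M ≠ 0 := by
    rintro rfl
    have : (b : WO p) * MUw w ^ 2 = 0 := by rw [← hM]; ring
    rcases mul_eq_zero.mp this with h | h
    · exact nat_ne b ndb h
    · exact hMU0 (pow_eq_zero_iff (by norm_num) |>.mp h)
  have hρ0 : ρ ≠ 0 := ne_of_sq (y := -3) hρ (neg_ne_zero.mpr (u3_of h3).ne_zero)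
  have uη : IsUnit η := IsUnit.of_mul_eq_one 2 (by rw [mul_comm]; exact hη)
  have h := val_two (SW p) h5 (SW_q p) hY z0 z1 (frob_Z hF u.u u.u6) B.ha B.hb
    (by rw [one_mul]; exact mul_ne_zero hMU0 hρ0) hM0
    d1 d x y x (-y) 0
    (by rw [hxy]; push_cast; ring) (by rw [hxy]; push_cast; ring)
    (by push_cast; exact nd6) ndb
    (by positivity) (by calc 16 * (3 * (2 * 1) * b) = 16 * (6 * b) := by ring
          _ < p ^ 2 := hbig)
    (τ := 2 * x * (MUw w * ρ)) (c := -(η * MUw w ^ 2)) (by push_cast; ring)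
    (by
      rw [hpx]; push_cast
      linear_combination ((x : WO p) ^ 2 * MUw w ^ 2) * hρ + (3 * (x : WO p) ^ 2 * MUw w ^ 2 +
        (y : WO p) ^ 2 * M ^ 2) * hη - (η * (y : WO p) ^ 2) * hM)
    (by rw [map_neg]; exact neg_ne_zero.mpr (red_unit (SW p) (uη.mul (uMU.pow 2))))
  have hη' := congrArg (mk2 (WO p) p) hη
  have hρ' := congrArg (mk2 (WO p) p) hρ
  rw [map_mul, map_ofNat, map_one] at hη'
  rw [map_pow, map_neg, map_ofNat] at hρ'
  rw [map_sub, map_neg, map_mul, map_pow, map_pow, map_mul, map_mul, map_mul, map_mul, map_mul, map_neg,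
    map_mul, map_pow, map_ofNat, map_natCast, map_intCast] at h
  rw [map_mul, map_sub, map_mul, map_mul, map_pow, map_ofNat, map_ofNat, map_natCast, map_intCast]
  have uM2 := (uMU.map (mk2 (WO p) p)).pow 2
  apply uM2.mul_left_cancel
  set μ := mk2 (WO p) p (MUw w)
  set e := mk2 (WO p) p η
  set V := SS p Y
  set r := mk2 (WO p) p ρ
  linear_combination 4 * h - (μ ^ 4 * V * (2 * e + 1) - 4 * (p : QO (WO p) p) * μ ^ 2) * hη' +
    (16 * (x : QO (WO p) p) ^ 2 * μ ^ 2) * hρ'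

end vals

end Pool.Agent.H578.CM
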