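import Pool.Agent.H578.CM.Q4e

set_option autoImplicit false
set_option linter.unusedSectionVars false
set_option maxHeartbeats 4000000

/-!
# Level six: from the cubic sums to the Franel sums
-/

namespace Pool.Agent.H578.CM

open Finset Pool.Agent.H546 Pool.Agent.H547
open Pool.Agent.Q267.CDE (R)

section vals

variable {p : ℕ} [hp : Fact p.Prime] {m : ℤ} {w w2 w3 w6 μ : WO p} {wi : R p}

theorem mk_I4 (q : Q4 m w w2 w3 w6) (u : U4 w w2 w3 w6) :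
    (1 + 4 * mk2 (WO p) p (-(w * w3))) * mk2 (WO p) p (I4w w) = 1 := by
  have h := congrArg (mk2 (WO p) p) (w_I4 q u)
  rw [map_mul, map_sub, map_one, map_mul, map_ofNat] at h
  rw [map_neg]
  linear_combination h

theorem mk_I8 (q : Q4 m w w2 w3 w6) (hμ : (m : WO p) * μ = 1) :
    (1 + 8 * mk2 (WO p) p (-(w * w3))) * mk2 (WO p) p (I8w μ w w2 w3 w6) = 1 := by
  have h := congrArg (mk2 (WO p) p) (w_I8 q hμ)
  rw [map_mul, map_sub, map_one, map_mul, map_ofNat] at h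
  rw [map_neg]
  linear_combination h

theorem mk_I16 (q : Q4 m w w2 w3 w6) (u : U4 w w2 w3 w6) :
    (1 + 16 * mk2 (WO p) p (-(w * w3))) * mk2 (WO p) p (-4 * (w2 * w6) * I4w w2) = 1 := by
  have h := congrArg (mk2 (WO p) p) (w_I16 q u)
  rw [map_mul, map_sub, map_one, map_mul, map_ofNat] at h
  rw [map_neg]
  linear_combination h

theorem mk_Y (q : Q4 m w w2 w3 w6) (u : U4 w w2 w3 w6) : mk2 (WO p) p (Zw w * (1 - Zw w)) =
    27 * (mk2 (WO p) p (-(w * w3)) ^ 2 * mk2 (WO p) p (I4w w) ^ 3) := by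
  rw [w_Y q u, map_mul (mk2 (WO p) p) 27, map_mul, map_pow, map_pow, map_ofNat]

theorem mk_Y2 (q : Q4 m w w2 w3 w6) (u : U4 w w2 w3 w6) : mk2 (WO p) p (Zw w2 * (1 - Zw w2)) =
    27 * (mk2 (WO p) p (-(w * w3)) * mk2 (WO p) p (-4 * (w2 * w6) * I4w w2) ^ 3) := by
  rw [w_Y2 q u, map_mul (mk2 (WO p) p) 27, map_mul (mk2 (WO p) p) (-(w * w3)), map_pow, map_ofNat]

theorem u3k (h3 : 3 < p) : IsUnit (3 : QO (WO p) p) := by
  have := (u3_of (p := p) h3).map (mk2 (WO p) p)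
  rwa [map_ofNat] at this

theorem u2k (h3 : 3 < p) : IsUnit (2 : QO (WO p) p) := by
  have := (u2_of (p := p) h3).map (mk2 (WO p) p)
  rwa [map_ofNat] at this

/-- the Frobenius fixing `s` -/
theorem fin_same (h3 : 3 < p) (q : Q4 m w w2 w3 w6) (u : U4 w w2 w3 w6) (hμ : (m : WO p) * μ = 1)
    (hwi : (m : R p) * wi = 1) (hs : (SW p).red (w * w3) ^ p = (SW p).red (w * w3)) {E : ℤ}
    (v1 : SS p (mk2 (WO p) p (-(w * w3)) ^ 2 * mk2 (WO p) p (I4w w) ^ 3) = ((E : ℤ) : QO (WO p) p))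
    (v2 : SS p (mk2 (WO p) p (-(w * w3)) * mk2 (WO p) p (-4 * (w2 * w6) * I4w w2) ^ 3) =
      ((E : ℤ) : QO (WO p) p)) : AA p wi = ((E : ℤ) : R p) := by
  have hpp := mk2_p (O := WO p) (p := p)
  obtain ⟨δ, hδ⟩ := red_lift (p := p) (x := -(w * w3)) (y := -(w * w3)) (by
    rw [map_neg, red_frob_eq, map_neg, ← red_frob_eq, hs])
  have hδ' := congrArg (mk2 (WO p) p) hδ
  rw [map_pow, map_add, map_mul, map_natCast] at hδ'
  have key := club_same (p := p) hpp (by omega) (mk_I4 q u) (mk_I8 q hμ) (mk_I16 q u) hδ' (u3k h3)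
    (by rw [v1, v2])
  refine aa_transfer (w_x q hμ) hwi ?_
  rw [map_mul, map_pow, key, v1]

/-- the supersingular case -/
theorem fin_zero (h3 : 3 < p) (q : Q4 m w w2 w3 w6) (u : U4 w w2 w3 w6) (hμ : (m : WO p) * μ = 1)
    (hwi : (m : R p) * wi = 1)
    (v1 : SS p (mk2 (WO p) p (-(w * w3)) ^ 2 * mk2 (WO p) p (I4w w) ^ 3) = 0)
    (v2 : SS p (mk2 (WO p) p (-(w * w3)) * mk2 (WO p) p (-4 * (w2 * w6) * I4w w2) ^ 3) = 0) :
    AA p wi = ((0 : ℤ) : R p) := by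
  have hpp := mk2_p (O := WO p) (p := p)
  have key := club_zero (p := p) hpp (by omega) (mk_I4 q u) (mk_I8 q hμ) (mk_I16 q u) (u3k h3) v2 v1
  refine aa_transfer (w_x q hμ) hwi ?_
  rw [map_mul, map_pow, key, Int.cast_zero]

/-- the Frobenius moving `s` -/
theorem fin_conj (h3 : 3 < p) (q : Q4 m w w2 w3 w6) (u : U4 w w2 w3 w6) (hμ : (m : WO p) * μ = 1)
    (hwi : (m : R p) * wi = 1) (hs : (SW p).red (w * w3) ^ p = (SW p).red (w2 * w6)) {E : ℤ}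
    (v1 : mk2 (WO p) p (MUw w) ^ 2 * SS p (mk2 (WO p) p (-(w * w3)) ^ 2 * mk2 (WO p) p (I4w w) ^ 3) =
      ((2 * E : ℤ) : QO (WO p) p))
    (v2 : mk2 (WO p) p (MUw w2) ^ 2 *
      SS p (mk2 (WO p) p (-(w * w3)) * mk2 (WO p) p (-4 * (w2 * w6) * I4w w2) ^ 3) =
      ((2 * E : ℤ) : QO (WO p) p)) : AA p wi = ((E : ℤ) : R p) := by
  have hpp := mk2_p (O := WO p) (p := p)
  obtain ⟨δ, hδ⟩ := red_lift (p := p) (x := -(w * w3)) (y := -(w2 * w6)) (by
    rw [map_neg, red_frob_eq, map_neg, ← red_frob_eq, hs, map_neg])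
  have hδ' := congrArg (mk2 (WO p) p) hδ
  rw [map_pow, map_add, map_mul, map_natCast] at hδ'
  have r1 := congrArg (mk2 (WO p) p) (w_r1 q hμ)
  have r2 := congrArg (mk2 (WO p) p) (w_r2 q hμ)
  have e8 : ∀ x : WO p, mk2 (WO p) p (1 - 8 * x) = 1 + 8 * mk2 (WO p) p (-x) := by
    intro x; rw [map_sub, map_one, map_mul, map_ofNat, map_neg]; ring
  have e4 : ∀ x : WO p, mk2 (WO p) p (1 - 4 * x) = 1 + 4 * mk2 (WO p) p (-x) := by
    intro x; rw [map_sub, map_one, map_mul, map_ofNat, map_neg]; ring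
  have e16 : ∀ x : WO p, mk2 (WO p) p (1 - 16 * x) = 1 + 16 * mk2 (WO p) p (-x) := by
    intro x; rw [map_sub, map_one, map_mul, map_ofNat, map_neg]; ring
  rw [map_mul, map_mul (mk2 (WO p) p) (I4w w), e4, map_mul (mk2 (WO p) p) (I8w μ w w2 w3 w6 * _), map_mul _ _ (1 - 8 * _), e8,
    map_pow, map_ofNat] at r1
  rw [map_mul, map_mul (mk2 (WO p) p) (-4 * (w2 * w6) * I4w w2), e16, map_mul (mk2 (WO p) p) (I8w μ w w2 w3 w6 * _), map_mul _ _ (1 - 8 * _), e8,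
    map_pow, map_ofNat] at r2
  have h8' := mk_I8 q.t2 hμ
  set s' := mk2 (WO p) p (-(w2 * w6))
  set s := mk2 (WO p) p (-(w * w3))
  set i8 := mk2 (WO p) p (I8w μ w w2 w3 w6)
  set i4 := mk2 (WO p) p (I4w w)
  set i16 := mk2 (WO p) p (-4 * (w2 * w6) * I4w w2)
  set μ1 := mk2 (WO p) p (MUw w)
  set μ2 := mk2 (WO p) p (MUw w2)
  have h8 : (1 + 8 * s) * i8 = 1 := mk_I8 q hμ
  have key := club_fin (p := p) hpp (by omega) (mk_I4 q u) h8 (mk_I16 q u) hδ'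
    (IsUnit.of_mul_eq_one _ h8') (u3k h3) (by
      apply (u2k (p := p) h3).mul_left_cancel
      linear_combination (SS p (s * i16 ^ 3)) * r2 - (SS p (s ^ 2 * i4 ^ 3)) * r1 + (i8 * (1 + 8 * s')) * v2 -
        (i8 * (1 + 8 * s')) * v1)
  refine aa_transfer (w_x q hμ) hwi ?_
  rw [map_mul, map_pow]
  have hu : IsUnit (2 * (i8 * (1 + 8 * s'))) :=
    (u2k (p := p) h3).mul ((IsUnit.of_mul_eq_one (1 + 8 * s) (by linear_combination h8)).mul
      (IsUnit.of_mul_eq_one _ h8'))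
  apply hu.mul_left_cancel
  push_cast at v1 ⊢
  linear_combination 2 * key + (SS p (s ^ 2 * i4 ^ 3)) * r1 + (i8 * (1 + 8 * s')) * v1

end vals

end Pool.Agent.H578.CM
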