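import Pool.Agent.H578.CM.Lp3

set_option autoImplicit false

/-!
# Splitting the verification of an isogeny into parts
-/

namespace Pool.Agent.H578.CM

theorem chkAll_append {f : ℤ → Bool} {c : ℤ} {n m : ℕ} (h1 : chkAll f c n = true)
    (h2 : chkAll f (c - n) m = true) : chkAll f c (n + m) = true := by
  induction m with
  | zero => exact h1
  | succ m ih =>
    simp only [chkAll, Bool.and_eq_true] at h2
    have e : ((n + m : ℕ) : ℤ) - c = (m : ℤ) - (c - n) := by push_cast; ring
    have : chkAll f c (n + (m + 1)) = (f (((n + m : ℕ) : ℤ) - c) && chkAll f c (n + m)) := rfl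
    rw [this, e, h2.1, ih h2.2]
    rfl

namespace LD

/-- the points `s, …, s + m - 1` of `okO` -/
def segO (d : LD) (s m : ℕ) : Bool :=
  chkAll (chkO d.A d.B d.C d.al d.be d.al' d.be' d.N d.H) (3 * d.l / 2 - s) m

theorem segO_append {d : LD} {s m m' : ℕ} (h1 : d.segO s m = true) (h2 : d.segO (s + m) m' = true) :
    d.segO s (m + m') = true := by
  unfold segO at *
  refine chkAll_append h1 ?_
  have e : (3 * (d.l : ℤ) / 2 - ((s + m : ℕ) : ℤ)) = 3 * (d.l : ℤ) / 2 - s - m := by push_cast; ring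
  rw [e] at h2
  exact h2

theorem okO_of_seg {d : LD} {m : ℕ} (hm : m = 3 * d.l + 3) (h : d.segO 0 m = true) : d.okO = true := by
  unfold segO at h
  have e : (3 * (d.l : ℤ) / 2 - ((0 : ℕ) : ℤ)) = 3 * (d.l : ℤ) / 2 := by push_cast; ring
  rw [e, hm] at h
  exact h

end LD

end Pool.Agent.H578.CM
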