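import Pool.Agent.H578.CM.Diag

set_option autoImplicit false
set_option linter.unusedSectionVars false
set_option maxHeartbeats 4000000

/-!
# Polynomials over a ring generated by three square roots, by computation
-/

namespace Pool.Agent.H578.CM

/-- integral linear combinations of the products of `g`, `k`, `i` -/
structure T8 where
  mk ::
  a0 : ℤ
  a1 : ℤ
  a2 : ℤ
  a3 : ℤ
  a4 : ℤ
  a5 : ℤ
  a6 : ℤ
  a7 : ℤ

namespace T8

def add (x y : T8) : T8 :=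
  ⟨Int.add x.a0 y.a0, Int.add x.a1 y.a1, Int.add x.a2 y.a2, Int.add x.a3 y.a3,
   Int.add x.a4 y.a4, Int.add x.a5 y.a5, Int.add x.a6 y.a6, Int.add x.a7 y.a7⟩

def smul (n : ℤ) (y : T8) : T8 :=
  ⟨Int.mul n y.a0, Int.mul n y.a1, Int.mul n y.a2, Int.mul n y.a3,
   Int.mul n y.a4, Int.mul n y.a5, Int.mul n y.a6, Int.mul n y.a7⟩

def mul (A B C : ℤ) (x y : T8) : T8 :=
  ⟨(Int.add (Int.add (Int.add (Int.add (Int.add (Int.add (Int.add (Int.mul x.a0 y.a0) (Int.mul A (Int.mul x.a1 y.a1))) (Int.mul B (Int.mul x.a2 y.a2))) (Int.mul B (Int.mul A (Int.mul x.a3 y.a3)))) (Int.mul C (Int.mul x.a4 y.a4))) (Int.mul C (Int.mul A (Int.mul x.a5 y.a5)))) (Int.mul C (Int.mul B (Int.mul x.a6 y.a6)))) (Int.mul C (Int.mul B (Int.mul A (Int.mul x.a7 y.a7))))),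
   (Int.add (Int.add (Int.add (Int.add (Int.mul x.a0 y.a1) (Int.mul x.a1 y.a0)) (Int.mul B (Int.add (Int.mul x.a2 y.a3) (Int.mul x.a3 y.a2)))) (Int.mul C (Int.add (Int.mul x.a4 y.a5) (Int.mul x.a5 y.a4)))) (Int.mul C (Int.mul B (Int.add (Int.mul x.a6 y.a7) (Int.mul x.a7 y.a6))))),
   (Int.add (Int.add (Int.add (Int.add (Int.mul x.a0 y.a2) (Int.mul x.a2 y.a0)) (Int.mul A (Int.add (Int.mul x.a1 y.a3) (Int.mul x.a3 y.a1)))) (Int.mul C (Int.add (Int.mul x.a4 y.a6) (Int.mul x.a6 y.a4)))) (Int.mul C (Int.mul A (Int.add (Int.mul x.a5 y.a7) (Int.mul x.a7 y.a5))))),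
   (Int.add (Int.add (Int.add (Int.add (Int.mul x.a0 y.a3) (Int.mul x.a1 y.a2)) (Int.mul x.a2 y.a1)) (Int.mul x.a3 y.a0)) (Int.mul C (Int.add (Int.add (Int.add (Int.mul x.a4 y.a7) (Int.mul x.a5 y.a6)) (Int.mul x.a6 y.a5)) (Int.mul x.a7 y.a4)))),
   (Int.add (Int.add (Int.add (Int.add (Int.mul x.a0 y.a4) (Int.mul x.a4 y.a0)) (Int.mul A (Int.add (Int.mul x.a1 y.a5) (Int.mul x.a5 y.a1)))) (Int.mul B (Int.add (Int.mul x.a2 y.a6) (Int.mul x.a6 y.a2)))) (Int.mul B (Int.mul A (Int.add (Int.mul x.a3 y.a7) (Int.mul x.a7 y.a3))))),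
   (Int.add (Int.add (Int.add (Int.add (Int.mul x.a0 y.a5) (Int.mul x.a1 y.a4)) (Int.mul x.a4 y.a1)) (Int.mul x.a5 y.a0)) (Int.mul B (Int.add (Int.add (Int.add (Int.mul x.a2 y.a7) (Int.mul x.a3 y.a6)) (Int.mul x.a6 y.a3)) (Int.mul x.a7 y.a2)))),
   (Int.add (Int.add (Int.add (Int.add (Int.mul x.a0 y.a6) (Int.mul x.a2 y.a4)) (Int.mul x.a4 y.a2)) (Int.mul x.a6 y.a0)) (Int.mul A (Int.add (Int.add (Int.add (Int.mul x.a1 y.a7) (Int.mul x.a3 y.a5)) (Int.mul x.a5 y.a3)) (Int.mul x.a7 y.a1)))),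
   (Int.add (Int.add (Int.add (Int.add (Int.add (Int.add (Int.add (Int.mul x.a0 y.a7) (Int.mul x.a1 y.a6)) (Int.mul x.a2 y.a5)) (Int.mul x.a3 y.a4)) (Int.mul x.a4 y.a3)) (Int.mul x.a5 y.a2)) (Int.mul x.a6 y.a1)) (Int.mul x.a7 y.a0))⟩

def iz (n : ℤ) : Bool :=
  match n with
  | Int.ofNat m => Nat.beq m 0
  | Int.negSucc _ => false

def isz (x : T8) : Bool :=
  iz x.a0 && (iz x.a1 && (iz x.a2 && (iz x.a3 && (iz x.a4 && (iz x.a5 && (iz x.a6 && iz x.a7))))))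

/-- the integers -/
def int (n : ℤ) : T8 := ⟨n, 0, 0, 0, 0, 0, 0, 0⟩

/-- strict evaluation -/
def fN {α : Type} (m : ℕ) (f : ℕ → α) : α := Nat.rec (f Nat.zero) (fun m' _ => f (Nat.succ m')) m

def fI {α : Type} (n : ℤ) (f : ℤ → α) : α :=
  match n with
  | Int.ofNat m => fN m fun m' => f (Int.ofNat m')
  | Int.negSucc m => fN m fun m' => f (Int.negSucc m')

def fT {α : Type} (t : T8) (f : T8 → α) : α :=
  fI t.a0 fun b0 => fI t.a1 fun b1 => fI t.a2 fun b2 => fI t.a3 fun b3 =>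
  fI t.a4 fun b4 => fI t.a5 fun b5 => fI t.a6 fun b6 => fI t.a7 fun b7 => f ⟨b0, b1, b2, b3, b4, b5, b6, b7⟩

theorem fN_eq {α : Type} (m : ℕ) (f : ℕ → α) : fN m f = f m := by cases m <;> rfl

theorem fI_eq {α : Type} (n : ℤ) (f : ℤ → α) : fI n f = f n := by
  cases n <;> simp only [fI, fN_eq]

theorem fT_eq {α : Type} (t : T8) (f : T8 → α) : fT t f = f t := by
  simp only [fT, fI_eq]

theorem iz_eq {n : ℤ} (h : iz n = true) : n = 0 := by
  rcases n with m | m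
  · have : m = 0 := Nat.eq_of_beq_eq_true h
    rw [this]; rfl
  · exact absurd h (by simp [iz])

section ev

variable {S : Type*} [CommRing S] (g k i : S)

def ev (x : T8) : S := x.a0 + x.a1 * g + x.a2 * k + x.a3 * (g * k) + x.a4 * i + x.a5 * (g * i) + x.a6 * (k * i) +
  x.a7 * (g * k * i)

theorem ev_add (x y : T8) : ev g k i (add x y) = ev g k i x + ev g k i y := by
  have e : ∀ a b : ℤ, ((Int.add a b : ℤ) : S) = (a : S) + b := fun a b => Int.cast_add a b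
  simp only [ev, add, e]
  ring

theorem ev_smul (n : ℤ) (y : T8) : ev g k i (smul n y) = n * ev g k i y := by
  have e : ∀ a b : ℤ, ((Int.mul a b : ℤ) : S) = (a : S) * b := fun a b => Int.cast_mul a b
  simp only [ev, smul, e]
  ring

theorem ev_int (n : ℤ) : ev g k i (int n) = n := by
  simp [ev, int]

theorem ev_isz {x : T8} (h : isz x = true) : ev g k i x = 0 := by
  simp only [isz, Bool.and_eq_true] at h
  obtain ⟨h0, h1, h2, h3, h4, h5, h6, h7⟩ := h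
  simp [ev, iz_eq h0, iz_eq h1, iz_eq h2, iz_eq h3, iz_eq h4, iz_eq h5, iz_eq h6, iz_eq h7]

variable {g k i} {A B C : ℤ}

theorem ev_mul (hg : g ^ 2 = A) (hk : k ^ 2 = B) (hi : i ^ 2 = C) (x y : T8) :
    ev g k i (mul A B C x y) = ev g k i x * ev g k i y := by
  have e : ∀ a b : ℤ, ((Int.add a b : ℤ) : S) = (a : S) + b := fun a b => Int.cast_add a b
  have e' : ∀ a b : ℤ, ((Int.mul a b : ℤ) : S) = (a : S) * b := fun a b => Int.cast_mul a b
  simp only [ev, mul, e, e']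
  obtain ⟨x0, x1, x2, x3, x4, x5, x6, x7⟩ := x
  obtain ⟨y0, y1, y2, y3, y4, y5, y6, y7⟩ := y
  simp only
  generalize (x0 : S) = x0
  generalize (x1 : S) = x1
  generalize (x2 : S) = x2
  generalize (x3 : S) = x3
  generalize (x4 : S) = x4
  generalize (x5 : S) = x5
  generalize (x6 : S) = x6
  generalize (x7 : S) = x7
  generalize (y0 : S) = y0
  generalize (y1 : S) = y1
  generalize (y2 : S) = y2
  generalize (y3 : S) = y3
  generalize (y4 : S) = y4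
  generalize (y5 : S) = y5
  generalize (y6 : S) = y6
  generalize (y7 : S) = y7
  generalize (A : S) = A at hg ⊢
  generalize (B : S) = B at hk ⊢
  generalize (C : S) = C at hi ⊢
  linear_combination (-g ^ 2 * k ^ 2 * x7 * y7 - g ^ 2 * k * x5 * y7 - g ^ 2 * k * x7 * y5 - g ^ 2 * x5 * y5 - g * k ^ 2 * x6 * y7 - g * k ^ 2 * x7 * y6 - g * k * x4 * y7 - g * k * x5 * y6 - g * k * x6 * y5 - g * k * x7 * y4 - g * x4 * y5 - g * x5 * y4 - k ^ 2 * x6 * y6 - k * x4 * y6 - k * x6 * y4 - x4 * y4) * hi + (-g ^ 2 * i * x3 * y7 - g ^ 2 * i * x7 * y3 - g ^ 2 * C * x7 * y7 - g ^ 2 * x3 * y3 - g * i * x2 * y7 - g * i * x3 * y6 - g * i * x6 * y3 - g * i * x7 * y2 - g * C * x6 * y7 - g * C * x7 * y6 - g * x2 * y3 - g * x3 * y2 - i * x2 * y6 - i * x6 * y2 - C * x6 * y6 - x2 * y2) * hk + (-k * i * x1 * y7 - k * i * x3 * y5 - k * i * x5 * y3 - k * i * x7 * y1 - k * C * x5 * y7 - k * C * x7 * y5 - k * x1 * y3 -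 k * x3 * y1 - i * B * x3 * y7 - i * B * x7 * y3 - i * x1 * y5 - i * x5 * y1 - B * C * x7 * y7 - B * x3 * y3 - C * x5 * y5 - x1 * y1) * hg

end ev

end T8

end Pool.Agent.H578.CM
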